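import Mathlib

set_option autoImplicit false

namespace Pool.Agent.MP_098ecc_co.H85

open Equiv

/-- number of cycles of a permutation, fixed points included -/
noncomputable def cycles {α : Type} (π : Perm α) : ℕ :=
  Nat.card (MulAction.orbitRel.Quotient (Subgroup.zpowers π) α)

/-- A rooted Eulerian planar map with `n` labelled edges, in the standard permutation encoding:
the cycles of `σ` are the black faces, the cycles of `τ` the white faces, the cycles of `σ * τ`
the vertices; connected, of Euler characteristic two, with degrees in `D₁` and `D₂`. -/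
structure EMap (D₁ D₂ : Set ℕ) (n : ℕ) where
  σ : Perm (Fin n)
  τ : Perm (Fin n)
  root : Fin n
  conn : MulAction.IsPretransitive (Subgroup.closure {σ, τ}) (Fin n)
  planar : cycles σ + cycles τ + cycles (σ * τ) = n + 2
  black : ∀ e, Function.minimalPeriod σ e ∈ D₁
  white : ∀ e, Function.minimalPeriod τ e ∈ D₂

/-- root preserving isomorphism (relabelling of the edges) -/
def Iso {D₁ D₂ : Set ℕ} {n : ℕ} (m m' : EMap D₁ D₂ n) : Prop :=
  ∃ g : Perm (Fin n), m'.σ = g * m.σ * g⁻¹ ∧ m'.τ = g * m.τ * g⁻¹ ∧ m'.root = g m.root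

/-- number of rooted Eulerian planar maps with `n` edges and prescribed face degrees -/
noncomputable def count (D₁ D₂ : Set ℕ) (n : ℕ) : ℕ := Nat.card (Quot (@Iso D₁ D₂ n))

/-- eventually periodic sets -/
def EvPer (D : Set ℕ) : Prop := ∃ p, 0 < p ∧ ∃ N, ∀ n, N ≤ n → (n + p ∈ D ↔ n ∈ D)

end Pool.Agent.MP_098ecc_co.H85
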