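import Pool.Agent.MP_098ecc_co.H85.Rec

set_option autoImplicit false

namespace Pool.Agent.MP_098ecc_co.H85

open Polynomial
open scoped PowerSeries

theorem per_poly (x : ℕ → ℚ) (hx : ∃ p, 0 < p ∧ ∃ N, ∀ n, N ≤ n → x (n + p) = x n) :
    ∃ (p : ℕ) (P : ℚ[X]), (1 - PowerSeries.X ^ (p + 1)) * PowerSeries.mk x = P.toPowerSeries := by
  obtain ⟨p, hp, N, h⟩ := hx
  obtain ⟨p, rfl⟩ := Nat.exists_eq_succ_of_ne_zero hp.ne'
  refine ⟨p, PowerSeries.trunc (N + (p + 1))
    ((1 - PowerSeries.X ^ (p + 1)) * PowerSeries.mk x), ?_⟩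
  ext i
  rw [coeff_coe, PowerSeries.coeff_trunc]
  split_ifs with hi
  · rfl
  · obtain ⟨j, rfl⟩ : ∃ j, i = j + (p + 1) := ⟨i - (p + 1), by omega⟩
    rw [sub_mul, one_mul, map_sub, PowerSeries.coeff_X_pow_mul, PowerSeries.coeff_mk,
      PowerSeries.coeff_mk, sub_eq_zero]
    exact h j (by omega)

theorem scale_poly {T : Type*} [CommRing T] (ε : ℚ[X] →+* T) (x : ℕ → ℚ) (p : ℕ) (P : ℚ[X])
    (h : (1 - PowerSeries.X ^ (p + 1)) * PowerSeries.mk x = P.toPowerSeries) :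
    (1 + C (ε X ^ 3) * X * (-(C (X ^ (3 * p)) * X ^ p) : ℚ[X][X]).map ε : T[X]).toPowerSeries *
      PowerSeries.mk (fun m => ε (C (x m)) * (ε X ^ 3) ^ (m + 1)) =
      (C (ε X ^ 3) * ((P.map C).comp (C (X ^ 3) * X)).map ε : T[X]).toPowerSeries := by
  have h1 := congrArg (fun f => PowerSeries.C (ε X ^ 3) *
    PowerSeries.rescale (ε X ^ 3) (PowerSeries.map (ε.comp C) f)) h
  simp only [map_mul, map_sub, map_one, map_pow, PowerSeries.map_X,
    PowerSeries.rescale_X] at h1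
  have e1 : PowerSeries.mk (fun m => ε (C (x m)) * (ε X ^ 3) ^ (m + 1)) =
      PowerSeries.C (ε X ^ 3) * PowerSeries.rescale (ε X ^ 3)
        (PowerSeries.map (ε.comp C) (PowerSeries.mk x)) := by
    ext i
    simp only [PowerSeries.coeff_mk, PowerSeries.coeff_C_mul, PowerSeries.coeff_rescale,
      PowerSeries.coeff_map, RingHom.comp_apply]
    ring
  have e2 : (((P.map C).comp (C (X ^ 3) * X)).map ε).toPowerSeries =
      PowerSeries.rescale (ε X ^ 3) (PowerSeries.map (ε.comp C) P.toPowerSeries) := by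
    ext i
    simp only [coeff_coe, coeff_map, comp_C_mul_X_coeff, PowerSeries.coeff_rescale,
      PowerSeries.coeff_map, RingHom.comp_apply, map_mul, map_pow ε]
    ring
  rw [e1, coe_mul (C _), e2, coe_C, map_pow PowerSeries.C, ← h1]
  simp only [Polynomial.map_neg, Polynomial.map_mul, map_C, Polynomial.map_pow, map_X, map_pow,
    coe_add, coe_one, coe_mul, coe_neg, coe_C, coe_pow, coe_X]
  ring

theorem alg_of_rec (x y : ℕ → ℚ) (hx : ∃ p, 0 < p ∧ ∃ N, ∀ n, N ≤ n → x (n + p) = x n)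
    (hy : ∃ p, 0 < p ∧ ∃ N, ∀ n, N ≤ n → y (n + p) = y n) (Z : ℕ → ℕ → ℚ⟦X⟧)
    (hZ : Rec PowerSeries.X PowerSeries.X (fun m => PowerSeries.C (x m))
      (fun m => PowerSeries.C (y m)) Z) (k l : ℕ) : IsAlgebraic ℚ[X] (Z k l) := by
  obtain ⟨p, P, hP⟩ := per_poly x hx
  obtain ⟨p', P', hP'⟩ := per_poly y hy
  let n := p + p' + P.natDegree + P'.natDegree
  let G : Bool → ℚ[X][X] := fun s =>
    cond s (-(C (X ^ (3 * p)) * X ^ p)) (-(C (X ^ (3 * p')) * X ^ p'))
  let H : Bool → ℚ[X][X] := fun s =>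
    cond s ((P.map C).comp (C (X ^ 3) * X)) ((P'.map C).comp (C (X ^ 3) * X))
  have hG : ∀ s, (G s).natDegree ≤ n := by
    have : ∀ (c : ℚ[X]) (p : ℕ), (-(C c * X ^ p) : ℚ[X][X]).natDegree ≤ p := fun c p => by
      rw [natDegree_neg]; exact natDegree_C_mul_X_pow_le _ _
    rintro (_ | _)
    · exact (this _ _).trans (by omega)
    · exact (this _ _).trans (by omega)
  have hH : ∀ s, (H s).natDegree ≤ n + 1 := by
    have : ∀ P : ℚ[X], ((P.map C).comp (C (X ^ 3) * X) : ℚ[X][X]).natDegree ≤ P.natDegree :=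
      fun P => natDegree_comp_le.trans (by
        have h1 : (C (X ^ 3) * X : ℚ[X][X]).natDegree ≤ 1 :=
          (natDegree_C_mul_le _ _).trans natDegree_X_le
        have h2 := natDegree_map_le (p := P) (f := (C : ℚ →+* ℚ[X]))
        nlinarith)
    rintro (_ | _)
    · exact (this _).trans (by omega)
    · exact (this _).trans (by omega)
  obtain ⟨f, hf1, hf2⟩ := exists_alg_fix n G H
  let T := Subalgebra.algebraicClosure ℚ[X] ℚ⟦X⟧
  let ε : ℚ[X] →+* T := algebraMap _ _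
  let ψ : T →+* ℚ⟦X⟧ := T.val.toRingHom
  have hψε : ψ.comp ε = algebraMap ℚ[X] ℚ⟦X⟧ := rfl
  have hψX : ψ (ε X) = PowerSeries.X := by
    rw [← RingHom.comp_apply, hψε]; simp [PowerSeries.algebraMap_apply']
  have hψC : ∀ c, ψ (ε (C c)) = PowerSeries.C c := fun c => by
    rw [← RingHom.comp_apply, hψε]; simp [PowerSeries.algebraMap_apply']
  let g : Ix n → T := fun j => ⟨f j, hf1 j⟩
  have hg : ∀ j, g j = ε X * Phi n G H ε g j := by
    intro j
    refine Subtype.val_injective ?_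
    change ψ (g j) = ψ (ε X * Phi n G H ε g j)
    rw [map_mul, Phi_map, hψX, hψε]
    exact hf2 j
  let π : T →+* ℚ := PowerSeries.constantCoeff.comp ψ
  have hu : π (ε X) = 0 := by simp [π, hψX]
  have hπ : ∀ z, π z = 1 → IsUnit z := by
    intro z hz
    obtain ⟨v, hv⟩ : IsUnit (ψ z) := by
      rw [PowerSeries.isUnit_iff_constantCoeff]
      change IsUnit (π z)
      rw [hz]; exact isUnit_one
    have h1 : IsAlgebraic ℚ[X] (↑v⁻¹ : ℚ⟦X⟧) := by
      refine IsAlgebraic.of_mul (y := ψ z) ?_ z.2 ?_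
      · exact hv ▸ v.isUnit.mem_nonZeroDivisors
      · rw [← hv, Units.mul_inv]; exact isAlgebraic_one
    refine IsUnit.of_mul_eq_one ⟨_, h1⟩ (Subtype.val_injective ?_)
    change ψ z * _ = 1
    rw [← hv]; exact v.mul_inv
  obtain ⟨M, h0, h1, ⟨W, hW, hW1, hL⟩, W', hW', hL'⟩ := two_loops hu hπ
    (sol_of_fix n G H π ε hu hG hH g hg false) (sol_of_fix n G H π ε hu hG hH g hg true) rfl (by
      have := hg none
      simpa [dat, Phi] using this)
  have hR := rec_of_loops n (ε X ^ 3) (fun m => ε (C (x m))) (fun m => ε (C (y m))) _ _ _ _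
    (natDegree_map_le.trans (hG true)) (natDegree_map_le.trans (hG false))
    ((natDegree_C_mul_le _ _).trans (natDegree_map_le.trans (hH true)))
    ((natDegree_C_mul_le _ _).trans (natDegree_map_le.trans (hH false)))
    (scale_poly ε x p P hP) (scale_poly ε y p' P' hP') h0 h1 hW hW1 hW' hL hL'
  have hR1 := hR.map ψ PowerSeries.X (by rw [map_pow, hψX]; exact dvd_pow_self _ (by norm_num))
  have hR2 := hZ.map (PowerSeries.expand 6 (by norm_num) : ℚ⟦X⟧ →ₐ[ℚ] ℚ⟦X⟧).toRingHom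
    PowerSeries.X (by simp)
  simp only [hψC, map_pow ψ, hψX, ← pow_mul] at hR1
  simp only [AlgHom.toRingHom_eq_coe, RingHom.coe_coe, PowerSeries.expand_X,
    PowerSeries.expand_C] at hR2
  refine alg_of_expand 6 (by norm_num) _ ?_
  have : PowerSeries.expand 6 (by norm_num) (Z k l) = ψ ((ε X ^ 3) ^ (k + l) * mm M k l) := by
    ext i
    have := PowerSeries.X_pow_dvd_iff.1
      (Rec.unique (dvd_pow_self _ (by norm_num)) hR2 hR1 (i + 1) k l) i (Nat.lt_succ_self i)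
    rw [map_sub, sub_eq_zero] at this
    rw [this, ← pow_mul]
  rw [this]
  exact ((ε X ^ 3) ^ (k + l) * mm M k l).2

end Pool.Agent.MP_098ecc_co.H85
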