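import Pool.Agent.MP_098ecc_co.H85.Link
import Pool.Agent.MP_098ecc_co.H85.Alg

set_option autoImplicit false

namespace Pool.Agent.MP_098ecc_co.H85

open Polynomial
open scoped PowerSeries

theorem rec_zz (x y : ℕ → ℚ) : Rec PowerSeries.X PowerSeries.X (fun m => PowerSeries.C (x m))
    (fun m => PowerSeries.C (y m)) fun k l => PowerSeries.mk fun n => zz x y n k l := by
  intro N
  have hs : ∀ (n : ℕ) (g : ℕ → ℚ), n < N → (∀ m, n < m → g m = 0) →
      ∑ m ∈ Finset.range (N + 1), g m = ∑ m ∈ Finset.range (n + 1), g m := fun n g h hg =>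
    (Finset.sum_subset (Finset.range_subset_range.2 (by omega)) fun m _ hm =>
      hg m (by simpa using hm)).symm
  refine ⟨?_, fun k l => ?_, fun k => ?_⟩ <;> rw [PowerSeries.X_pow_dvd_iff] <;>
    rintro (_ | n) hn
  · simp [zz]
  · simp [zz, PowerSeries.coeff_one]
  · simp [zz]
  · rw [map_sub, PowerSeries.coeff_succ_X_mul, PowerSeries.coeff_mk, zz, sub_eq_zero, map_add,
      map_sum, map_sum]
    simp only [PowerSeries.coeff_C_mul, PowerSeries.coeff_mk]
    rw [hs n _ (by omega) fun m hm => by rw [zz_eq_zero x y n _ _ (by omega), mul_zero]]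
    congr 1
    refine Finset.sum_congr rfl fun i _ => ?_
    rw [PowerSeries.coeff_mul, Finset.Nat.sum_antidiagonal_eq_sum_range_succ
      (fun p q => PowerSeries.coeff p (PowerSeries.mk fun n => zz x y n i 0) *
        PowerSeries.coeff q (PowerSeries.mk fun n => zz x y n (k - 1 - i) l)),
      Fin.sum_univ_eq_sum_range (fun p => zz x y p i 0 * zz x y (n - p) (k - 1 - i) l)]
    simp only [PowerSeries.coeff_mk]
  · simp [zz]
  · rw [map_sub, PowerSeries.coeff_succ_X_mul, PowerSeries.coeff_mk, zz, sub_eq_zero, map_sum]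
    simp only [PowerSeries.coeff_C_mul, PowerSeries.coeff_mk]
    rw [hs n _ (by omega) fun m hm => by rw [zz_eq_zero x y n _ _ (by omega), mul_zero]]

theorem zz_one_one (D₁ D₂ : Set ℕ) :
    (PowerSeries.mk fun n => zz (fun m => wt (fun c => cond c D₁ D₂) true m)
      (fun m => wt (fun c => cond c D₁ D₂) false m) n 1 1) =
      PowerSeries.X * (1 + PowerSeries.mk fun n => (count D₁ D₂ n : ℚ)) := by
  ext (_ | n)
  · simp [zz]
  · rw [PowerSeries.coeff_succ_X_mul, PowerSeries.coeff_mk, map_add, PowerSeries.coeff_mk,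
      count_eq, zz, Finset.sum_range_succ _ n, zz_eq_zero _ _ n (1 + n) _ (by omega), mul_zero,
      add_zero, Finset.sum_range_one, PowerSeries.coeff_one]
    simp only [add_comm 1]
    congr 1
    rcases n with _ | n
    · simp [zz]
    · rw [if_neg (by omega)]
      refine Finset.sum_eq_zero fun p _ => ?_
      rcases p with ⟨_ | p, hp⟩ <;> simp [zz]

theorem main {D₁ D₂ : Set ℕ} (h₁ : EvPer D₁) (h₂ : EvPer D₂) :
    IsAlgebraic ℚ[X] (PowerSeries.mk fun n => (count D₁ D₂ n : ℚ)) := by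
  have key : ∀ c, EvPer (cond c D₁ D₂) → ∃ p, 0 < p ∧ ∃ N, ∀ n, N ≤ n →
      (wt (fun c => cond c D₁ D₂) c (n + p) : ℚ) = wt (fun c => cond c D₁ D₂) c n := by
    rintro c ⟨p, hp, N, h⟩
    refine ⟨p, hp, N, fun n hn => ?_⟩
    have := h (n + 1) (by omega)
    rw [add_right_comm] at this
    unfold wt
    rw [propext this]
  have h := alg_of_rec (fun m => wt (fun c => cond c D₁ D₂) true m)
    (fun m => wt (fun c => cond c D₁ D₂) false m) (key true h₁) (key false h₂) _ (rec_zz _ _) 1 1
  rw [zz_one_one] at h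
  have hX : IsAlgebraic ℚ[X] (PowerSeries.X : ℚ⟦X⟧) := by
    simpa [PowerSeries.algebraMap_apply'] using
      isAlgebraic_algebraMap (R := ℚ[X]) (A := ℚ⟦X⟧) X
  simpa using (IsAlgebraic.of_mul (mem_nonZeroDivisors_of_ne_zero PowerSeries.X_ne_zero) hX h).sub
    isAlgebraic_one

end Pool.Agent.MP_098ecc_co.H85
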