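import Pool.Agent.MP_098ecc_co.H85.Maps

set_option autoImplicit false

namespace Pool.Agent.MP_098ecc_co.H85

open Equiv Function List

theorem card_eq_sum_unique {A B : Type*} (s : Finset A) (t : Finset B) (P : A → Prop)
    (Q : B → A → Prop) [DecidablePred P] [∀ b, DecidablePred (Q b)]
    (h : ∀ a, P a ↔ ∃ b ∈ t, Q b a)
    (hu : ∀ a, ∀ b ∈ t, ∀ b' ∈ t, Q b a → Q b' a → b = b') :
    (s.filter P).card = ∑ b ∈ t, (s.filter (Q b)).card := by
  classical
  simp only [Finset.card_filter]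
  rw [Finset.sum_comm]
  refine Finset.sum_congr rfl fun a _ => ?_
  by_cases hP : P a
  · obtain ⟨b, hb, hQ⟩ := (h a).1 hP
    rw [if_pos hP, Finset.sum_eq_single_of_mem b hb, if_pos hQ]
    exact fun b' hb' hne => if_neg fun hQ' => hne (hu a _ hb' _ hb hQ' hQ)
  · rw [if_neg hP, Finset.sum_eq_zero]
    exact fun b hb => if_neg fun hQ => hP ((h a).2 ⟨b, hb, hQ⟩)

variable {α : Type*} [DecidableEq α] [Fintype α] (Ds : Bool → Set ℕ)

/-- inner faces are monochromatic with allowed degrees -/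
def Wt (L : List (α × Bool)) (ψ : Perm (α × Bool)) (S : Finset α) : Prop :=
  ∀ x, x.1 ∈ S → x ∉ L → (ψ x).2 = x.2 ∧ minimalPeriod ψ x ∈ Ds x.2

def G0 (L : List (α × Bool)) (ψ : Perm (α × Bool)) (S : Finset α) : Prop :=
  Pre L ψ S ∧ Conn L ψ S ∧ chi L ψ S = 0 ∧ Wt Ds L ψ S

def Supp (ψ : Perm (α × Bool)) (S : Finset α) : Prop := ∀ x, x.1 ∉ S → ψ x = x

open Classical in
/-- number of planar maps with a given boundary -/
noncomputable def cnt (L : List (α × Bool)) (S : Finset α) : ℕ :=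
  (Finset.univ.filter fun ψ => Supp ψ S ∧ G0 Ds L ψ S).card

variable {Ds}

omit [Fintype α] in
theorem G0.congr {L : List (α × Bool)} {ψ ψ' : Perm (α × Bool)} {S : Finset α}
    (h : G0 Ds L ψ S) (e : ∀ x, x.1 ∈ S → ψ x = ψ' x) : G0 Ds L ψ' S := by
  obtain ⟨h1, h2, h3, h4⟩ := h
  refine ⟨⟨h1.nd, h1.sub, fun x hx => by rw [← e x (h1.sub x hx), h1.fix x hx], fun x =>
    ⟨fun hx => ?_, fun hx => by rw [← e x hx]; exact (h1.inv x).2 hx⟩⟩,
    fun p hp1 hp2 => h2 p hp1 fun x hx => by rw [e x hx]; exact hp2 x hx, ?_, fun x hx hx' => ?_⟩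
  · have h5 : (ψ⁻¹ (ψ' x)).1 ∈ S := by rw [← h1.inv]; simpa using hx
    have h6 := e _ h5
    simp only [Perm.coe_inv, apply_symm_apply, EmbeddingLike.apply_eq_iff_eq] at h6
    rw [h6]; exact h5
  · rw [← h3, chi, chi, cyc_congr h1.inner_inv fun x hx => e x
      (mem_D.1 (Finset.mem_sdiff.1 hx).1), cyc_congr (π := fl * (L.formPerm * ψ))
      (π' := fl * (L.formPerm * ψ'))
      (fun x hx => by simpa using (h1.phi_inv x).2 (mem_D.1 hx))
      fun x hx => by simp only [Perm.mul_apply, e x (mem_D.1 hx)]]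
  · rw [← e x hx, ← per_congr (fun x => x.1 ∈ S) (fun x => (h1.inv x).2) e hx]
    exact h4 x hx hx'

theorem cnt_eq_zero {L : List (α × Bool)} {S : Finset α} (h : ¬ (L.Nodup ∧ ∀ x ∈ L, x.1 ∈ S)) :
    cnt Ds L S = 0 := by
  classical
  rw [cnt, Finset.card_eq_zero, Finset.filter_eq_empty_iff]
  exact fun ψ _ h' => h ⟨h'.2.1.nd, h'.2.1.sub⟩

open Classical in
theorem cnt_prod (l₁ l₂ : List (α × Bool)) {S₁ S₂ : Finset α} (hd : Disjoint S₁ S₂) :
    (Finset.univ.filter fun ψ => Supp ψ (S₁ ∪ S₂) ∧ G0 Ds l₁ ψ S₁ ∧ G0 Ds l₂ ψ S₂).card =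
      cnt Ds l₁ S₁ * cnt Ds l₂ S₂ := by
  have hd' := Finset.disjoint_left.1 hd
  have key : ∀ ψ₁ ψ₂ : Perm (α × Bool), Supp ψ₁ S₁ → Supp ψ₂ S₂ → G0 Ds l₂ ψ₂ S₂ →
      (∀ x, x.1 ∉ S₂ → ψ₁ x = (ψ₁ * ψ₂) x) ∧ ∀ x, x.1 ∈ S₂ → ψ₂ x = (ψ₁ * ψ₂) x :=
    fun ψ₁ ψ₂ h1 h2 h3 => ⟨fun x hx => by rw [Perm.mul_apply, h2 x hx], fun x hx => by
      rw [Perm.mul_apply, h1 _ fun h => hd' h ((h3.1.inv x).2 hx)]⟩
  rw [cnt, cnt, ← Finset.card_product]
  symm
  refine Finset.card_bij (fun p _ => p.1 * p.2) ?_ ?_ ?_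
  · rintro ⟨ψ₁, ψ₂⟩ h
    simp only [Finset.mem_product, Finset.mem_filter, Finset.mem_univ, true_and] at h ⊢
    obtain ⟨⟨h1, h2⟩, h3, h4⟩ := h
    have := key _ _ h1 h3 h4
    refine ⟨fun x hx => ?_, h2.congr fun x hx => this.1 x (hd' hx), h4.congr this.2⟩
    rw [Finset.mem_union, not_or] at hx
    rw [Perm.mul_apply, h3 x hx.2, h1 x hx.1]
  · rintro ⟨ψ₁, ψ₂⟩ h ⟨φ₁, φ₂⟩ h' e
    simp only [Finset.mem_product, Finset.mem_filter, Finset.mem_univ, true_and] at h h' e
    have k1 := key _ _ h.1.1 h.2.1 h.2.2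
    have k2 := key _ _ h'.1.1 h'.2.1 h'.2.2
    have : ψ₂ = φ₂ := by
      ext1 x
      by_cases hx : x.1 ∈ S₂
      · rw [k1.2 x hx, k2.2 x hx, e]
      · rw [h.2.1 x hx, h'.2.1 x hx]
    subst this
    rw [mul_right_cancel e]
  · intro ψ h
    simp only [Finset.mem_filter, Finset.mem_univ, true_and] at h
    obtain ⟨h1, h2, h3⟩ := h
    have a1 := fun x => Perm.ofSubtype_subtypePerm_of_mem (p := fun x : α × Bool => x.1 ∈ S₁) h2.1.inv
      (a := x)
    have a2 := fun x => Perm.ofSubtype_subtypePerm_of_not_mem (p := fun x : α × Bool => x.1 ∈ S₁) h2.1.inv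
      (a := x)
    have b1 := fun x => Perm.ofSubtype_subtypePerm_of_mem (p := fun x : α × Bool => x.1 ∈ S₂) h3.1.inv
      (a := x)
    have b2 := fun x => Perm.ofSubtype_subtypePerm_of_not_mem (p := fun x : α × Bool => x.1 ∈ S₂) h3.1.inv
      (a := x)
    have g2 := h3.congr fun x hx => (b1 x hx).symm
    have := key _ _ a2 b2 g2
    refine ⟨(_, _), Finset.mem_product.2 ⟨Finset.mem_filter.2 ⟨Finset.mem_univ _, a2,
      h2.congr fun x hx => (a1 x hx).symm⟩, Finset.mem_filter.2 ⟨Finset.mem_univ _, b2, g2⟩⟩, ?_⟩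
    ext1 x
    by_cases hx : x.1 ∈ S₂
    · rw [← this.2 x hx, b1 x hx]
    · rw [← this.1 x hx]
      by_cases hx' : x.1 ∈ S₁
      · exact a1 x hx'
      · rw [a2 x hx', h1 x (by simp [hx, hx'])]

theorem cnt_cut (u v w : List (α × Bool)) (a : α × Bool) {S : Finset α} (haS : a.1 ∈ S) :
    cnt Ds (u ++ a :: v ++ fl a :: w) S =
      ∑ S₁ ∈ (S.erase a.1).powerset, cnt Ds v S₁ * cnt Ds (u ++ w) (S.erase a.1 \ S₁) := by
  classical
  rw [cnt, card_eq_sum_unique _ (S.erase a.1).powerset _ (fun S₁ ψ =>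
    Supp ψ (S₁ ∪ (S.erase a.1 \ S₁)) ∧ G0 Ds v ψ S₁ ∧ G0 Ds (u ++ w) ψ (S.erase a.1 \ S₁))]
  · refine Finset.sum_congr rfl fun S₁ _ => ?_
    rw [← cnt_prod _ _ Finset.disjoint_sdiff]
  · intro ψ
    have hw : ∀ S₁ S₂ : Finset α, S₁ ∪ S₂ = S.erase a.1 → Disjoint S₁ S₂ → Pre v ψ S₁ →
        Pre (u ++ w) ψ S₂ → (Wt Ds (u ++ a :: v ++ fl a :: w) ψ S ↔
          Wt Ds v ψ S₁ ∧ Wt Ds (u ++ w) ψ S₂) := by
      intro S₁ S₂ h1 h2 h3 h4
      have hm : ∀ x : α × Bool, (x.1 ∈ S₁ ∨ x.1 ∈ S₂) ↔ ¬ (x = a ∨ x = fl a) ∧ x.1 ∈ S :=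
        fun x => by rw [← Finset.mem_union, h1, Finset.mem_erase, ne_eq, fst_eq]
      have hd := Finset.disjoint_left.1 h2
      have s1 := h3.sub
      have s2 := h4.sub
      refine ⟨fun H => ⟨fun x hx hx' => H x ((hm x).1 (Or.inl hx)).2 ?_,
        fun x hx hx' => H x ((hm x).1 (Or.inr hx)).2 ?_⟩, fun H x hx hx' => ?_⟩
      · simp only [mem_append, mem_cons] at *
        grind
      · simp only [mem_append, mem_cons] at *
        grind
      · simp only [mem_append, mem_cons, not_or] at hx'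
        rcases (hm x).2 ⟨by tauto, hx⟩ with h | h
        · exact H.1 x h (by tauto)
        · exact H.2 x h (by simp only [mem_append]; tauto)
    constructor
    · rintro ⟨h0, h1, h2, h3, h4⟩
      have ha := h1.fix a (by simp)
      have hb := h1.fix (fl a) (by simp)
      rcases cut_cases h1 h2 with ⟨S₁, S₂, k1, k2, k3, k4, k5, k6⟩ | ⟨k1, k2⟩
      · have e : S.erase a.1 \ S₁ = S₂ := by
          rw [← k2, Finset.union_sdiff_cancel_left k1]
        rw [split_chi k3 k4 k1 k2 haS ha hb] at h3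
        have c1 := chi_le _ _ _ _ rfl k3 k5
        have c2 := chi_le _ _ _ _ rfl k4 k6
        have := (hw _ _ k2 k1 k3 k4).1 h4
        refine ⟨S₁, Finset.mem_powerset.2 (k2 ▸ Finset.subset_union_left), ?_⟩
        rw [e, k2]
        refine ⟨fun x hx => ?_, ⟨k3, k5, by linarith, this.1⟩, k4, k6, by linarith, this.2⟩
        rw [Finset.mem_erase, ne_eq, fst_eq, not_and_or, not_not] at hx
        rcases hx with (rfl | rfl) | hx
        exacts [ha, hb, h0 x hx]
      · have := chi_le _ _ _ _ rfl (join_pre h1) k2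
        rw [join_chi h1 k1] at h3
        linarith
    · rintro ⟨S₁, h0, h1, ⟨k3, k5, c1, w1⟩, k4, k6, c2, w2⟩
      have k2 := Finset.union_sdiff_of_subset (Finset.mem_powerset.1 h0)
      rw [k2] at h1
      have ha := h1 a (by simp)
      have hb := h1 (fl a) (by simp)
      refine ⟨fun x hx => h1 x fun h => hx (Finset.mem_of_mem_erase h),
        split_pre k3 k4 Finset.disjoint_sdiff k2 haS ha hb, split_conn k5 k6 k2, ?_,
        (hw _ _ k2 Finset.disjoint_sdiff k3 k4).2 ⟨w1, w2⟩⟩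
      rw [split_chi k3 k4 Finset.disjoint_sdiff k2 haS ha hb, c1, c2, add_zero]
  · have : ∀ (ψ : Perm (α × Bool)) (S₁ S₂ : Finset α), G0 Ds v ψ S₁ → G0 Ds v ψ S₂ → S₁ ⊆ S₂ :=
      fun ψ S₁ S₂ h1 h2 e he => h1.2.1 (· ∈ S₂) h2.1.sub (fun x _ => (h2.1.inv x).symm) e he
    exact fun ψ S₁ _ S₂ _ h1 h2 => Finset.Subset.antisymm (this ψ _ _ h1.2.1 h2.2.1)
      (this ψ _ _ h2.2.1 h1.2.1)

/-- lists of `k` edge sides of colour `c` -/
def lists (c : Bool) : ℕ → Finset (List (α × Bool))
  | 0 => {[]}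
  | k + 1 => (Finset.univ ×ˢ lists c k).map ⟨fun p : α × List (α × Bool) => (p.1, c) :: p.2,
      fun p q h => by simpa [Prod.ext_iff] using h⟩

omit [DecidableEq α] in
theorem mem_lists {c : Bool} {k : ℕ} {l : List (α × Bool)} :
    l ∈ lists c k ↔ l.length = k ∧ ∀ x ∈ l, x.2 = c := by
  induction k generalizing l with
  | zero =>
    simp only [lists, Finset.mem_singleton, length_eq_zero_iff]
    exact ⟨fun h => by simp [h], fun h => h.1⟩
  | succ k ih =>
    rcases l with _ | ⟨⟨e, d⟩, l⟩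
    · simp [lists]
    · simp only [lists, Finset.mem_map, Finset.mem_product, Finset.mem_univ, true_and,
        Embedding.coeFn_mk, cons.injEq, Prod.mk.injEq, Prod.exists, ih, length_cons,
        Nat.add_right_cancel_iff, mem_cons, forall_eq_or_imp]
      exact ⟨fun ⟨_, _, h1, ⟨_, h2⟩, h3⟩ => h3 ▸ ⟨h1.1, h2.symm, h1.2⟩,
        fun h => ⟨e, l, ⟨h.1, h.2.2⟩, ⟨rfl, h.2.1.symm⟩, rfl⟩⟩

omit [DecidableEq α] in
theorem sum_lists_succ (c : Bool) (k : ℕ) (g : List (α × Bool) → ℕ) :
    ∑ l ∈ lists c (k + 1), g l = ∑ e : α, ∑ l ∈ lists c k, g ((e, c) :: l) := by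
  rw [lists, Finset.sum_map, Finset.sum_product]; rfl

omit [DecidableEq α] in
theorem sum_lists_zero (c : Bool) (g : List (α × Bool) → ℕ) : ∑ l ∈ lists c 0, g l = g [] :=
  Finset.sum_singleton _ _

omit [DecidableEq α] in
theorem sum_lists_add (c : Bool) (i j : ℕ) (g : List (α × Bool) → ℕ) :
    ∑ l ∈ lists c (i + j), g l = ∑ u ∈ lists c i, ∑ v ∈ lists c j, g (u ++ v) := by
  induction i generalizing g with
  | zero => simp [sum_lists_zero]
  | succ i ih =>
    rw [add_right_comm, sum_lists_succ, sum_lists_succ]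
    exact Finset.sum_congr rfl fun e _ => ih _

theorem sum_lists_split (c : Bool) (e : α) (k : ℕ) (g : List (α × Bool) → ℕ) :
    ∑ l ∈ lists c k, g l = (∑ l ∈ lists c k, if (e, c) ∈ l then 0 else g l) +
      ∑ j ∈ Finset.range k, ∑ u ∈ lists c j, ∑ v ∈ lists c (k - 1 - j),
        if (e, c) ∈ u then 0 else g (u ++ (e, c) :: v) := by
  induction k generalizing g with
  | zero => simp [sum_lists_zero]
  | succ k ih =>
    rw [sum_lists_succ, sum_lists_succ, Finset.sum_range_succ', sum_lists_zero]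
    simp only [sum_lists_succ, Nat.add_sub_cancel, Nat.sub_zero, not_mem_nil, if_false,
      nil_append]
    rw [Finset.sum_comm (s := Finset.range k), ← add_assoc, ← Finset.sum_add_distrib,
      ← Finset.add_sum_erase _ _ (Finset.mem_univ e),
      ← Finset.add_sum_erase _ _ (Finset.mem_univ e)]
    simp only [mem_cons, true_or, if_true, Finset.sum_const_zero, add_zero, zero_add]
    rw [add_comm]
    congr 1
    refine Finset.sum_congr rfl fun e' he' => ?_
    have : (e, c) ≠ (e', c) := fun h => (Finset.mem_erase.1 he').1 (Prod.mk.inj h).1.symm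
    rw [ih]
    simp only [this, false_or, cons_append, Nat.sub_add_eq, Nat.sub_right_comm k _ 1]

open Classical in
theorem cnt_merge (u w : List (α × Bool)) (b : α × Bool) {S : Finset α} (hS : b.1 ∈ S)
    (ha : fl b ∉ u ++ b :: w) : cnt Ds (u ++ b :: w) S = ∑ m ∈ Finset.range S.card,
      ∑ f ∈ lists (!b.2) m,
        (if m + 1 ∈ Ds (!b.2) then 1 else 0) * cnt Ds (u ++ f ++ w) (S.erase b.1) := by
  rw [Finset.sum_sigma', cnt, card_eq_sum_unique _
    ((Finset.range S.card).sigma (lists (!b.2))) _ (fun p ψ => p.1 + 1 ∈ Ds (!b.2) ∧ ∃ ψ',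
      (Supp ψ' (S.erase b.1) ∧ G0 Ds (u ++ p.2 ++ w) ψ' (S.erase b.1)) ∧
        (fl b :: p.2).formPerm * ψ' = ψ)]
  · refine Finset.sum_congr rfl fun p _ => ?_
    split_ifs with h
    · rw [one_mul, cnt]
      refine Eq.trans ?_ (Finset.card_image_of_injective _
        (mul_right_injective (fl b :: p.2).formPerm))
      congr 1
      ext ψ
      simp only [h, true_and, Finset.mem_filter, Finset.mem_univ, Finset.mem_image]
    · simp [h]
  · intro ψ
    have hw : ∀ f ψ', Pre (u ++ f ++ w) ψ' (S.erase b.1) → ψ' b = b → ψ' (fl b) = fl b →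
        (Wt Ds (u ++ b :: w) ((fl b :: f).formPerm * ψ') S ↔
          ((∀ x ∈ f, x.2 = !b.2) ∧ f.length + 1 ∈ Ds (!b.2)) ∧
            Wt Ds (u ++ f ++ w) ψ' (S.erase b.1)) := by
      intro f ψ' h hb hb'
      obtain ⟨h1, h2, h3, h4, h5⟩ := merge_pre h hS hb hb'
      have hc := isCyc_mul h3 h4
      have hp : ∀ x, x ∉ fl b :: f →
          minimalPeriod ⇑((fl b :: f).formPerm * ψ') x = minimalPeriod ψ' x := fun x hx =>
        per_congr (· ∉ fl b :: f) (fun y hy => by rwa [hc.mem_iff])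
          (fun y hy => (mul_apply_notMem h4 hy).2) hx
      constructor
      · intro H
        have k1 := hc.reach (fun x => x ∈ fl b :: f ∧ x.1 ∈ S ∧ x.2 = !b.2)
          (fun x hx => ⟨(hc.mem_iff x).2 hx.1, (h1.inv x).2 hx.2.1,
            (H x hx.2.1 fun h => h5 hx.1 h).1.trans hx.2.2⟩) ⟨mem_cons_self, hS, rfl⟩
        have k2 := (H (fl b) hS h2).2
        rw [hc.per mem_cons_self] at k2
        refine ⟨⟨fun x hx => (k1 x (mem_cons_of_mem _ hx)).2.2, k2⟩, fun x hx hx' => ?_⟩
        rw [Finset.mem_erase, ne_eq, fst_eq] at hx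
        have k3 : x ∉ fl b :: f := by simp only [mem_append, mem_cons] at *; tauto
        rw [← hp x k3, ← (mul_apply_notMem h4 k3).2]
        exact H x hx.2 (by simp only [mem_append, mem_cons] at *; tauto)
      · rintro ⟨⟨k1, k2⟩, H⟩ x hx hx'
        have k0 : ∀ x ∈ fl b :: f, x.2 = !b.2 := by
          intro x hx
          rcases mem_cons.1 hx with rfl | hx
          exacts [rfl, k1 x hx]
        by_cases k3 : x ∈ fl b :: f
        · rw [hc.per k3, k0 x k3, k0 _ ((hc.mem_iff x).2 k3)]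
          exact ⟨rfl, k2⟩
        · rw [hp x k3, (mul_apply_notMem h4 k3).2]
          refine H x ?_ (by simp only [mem_append, mem_cons] at *; tauto)
          rw [Finset.mem_erase, ne_eq, fst_eq]
          simp only [mem_append, mem_cons] at *
          tauto
    constructor
    · rintro ⟨h0, h1, h2, h3, h4⟩
      obtain ⟨f, ψ', k1, k2, k3, rfl⟩ := exists_merge h1 ha
      obtain ⟨⟨w1, w2⟩, w3⟩ := (hw f ψ' k1 k2 k3).1 h4
      obtain ⟨-, -, m3, m4, -⟩ := merge_pre k1 hS k2 k3
      refine ⟨⟨f.length, f⟩, Finset.mem_sigma.2 ⟨Finset.mem_range.2 ?_, mem_lists.2 ⟨rfl, w1⟩⟩,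
        w2, ψ', ⟨fun x hx => ?_, k1, (merge_conn k1 hS k2 k3).1 h2,
          (merge_chi k1 hS k2 k3).symm.trans h3, w3⟩, rfl⟩
      · have n1 : (f.map Prod.fst).Nodup := (nodup_cons.1 m3).2.map_on fun x hx y hy h =>
          Prod.ext h ((w1 x hx).trans (w1 y hy).symm)
        have n2 : (f.map Prod.fst).toFinset ⊆ S.erase b.1 := by
          intro e he
          obtain ⟨x, hx, rfl⟩ := mem_map.1 (mem_toFinset.1 he)
          exact k1.sub x (by simp [hx])
        have n3 := Finset.card_le_card n2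
        rw [toFinset_card_of_nodup n1, length_map] at n3
        exact n3.trans_lt (Finset.card_erase_lt_of_mem hS)
      · by_cases k4 : x ∈ fl b :: f
        · exact m4 x k4
        · rw [Finset.mem_erase, ne_eq, fst_eq, not_and_or, not_not] at hx
          rcases hx with (rfl | rfl) | hx
          exacts [k2, k3, by rw [← (mul_apply_notMem m4 k4).2, h0 x hx]]
    · rintro ⟨⟨m, f⟩, h0, h1, ψ', ⟨h2, k1, h3, h4, h5⟩, rfl⟩
      have k2 := h2 b (by simp)
      have k3 := h2 (fl b) (by simp)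
      obtain ⟨rfl, w1⟩ : f.length = m ∧ ∀ x ∈ f, x.2 = !b.2 :=
        mem_lists.1 (Finset.mem_sigma.1 h0).2
      obtain ⟨m1, -, m3, m4, -⟩ := merge_pre k1 hS k2 k3
      refine ⟨fun x hx => ?_, m1, (merge_conn k1 hS k2 k3).2 h3,
        (merge_chi k1 hS k2 k3).trans h4, (hw f ψ' k1 k2 k3).2 ⟨⟨w1, h1⟩, h5⟩⟩
      have : x ∉ fl b :: f := by
        intro h
        rcases mem_cons.1 h with rfl | h
        exacts [hx hS, hx (Finset.mem_of_mem_erase (k1.sub x (by simp [h])))]
      rw [(mul_apply_notMem m4 this).2, h2 x fun h => hx (Finset.mem_of_mem_erase h)]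
  · rintro ψ ⟨m, f⟩ h0 ⟨m', f'⟩ h0' ⟨-, ψ₁, ⟨a1, a2⟩, a3⟩ ⟨-, ψ₂, ⟨b1, b2⟩, b3⟩
    obtain rfl : f.length = m := (mem_lists.1 (Finset.mem_sigma.1 h0).2).1
    obtain rfl : f'.length = m' := (mem_lists.1 (Finset.mem_sigma.1 h0').2).1
    obtain ⟨-, -, m3, m4, -⟩ := merge_pre a2.1 hS (a1 b (by simp)) (a1 (fl b) (by simp))
    obtain ⟨-, -, n3, n4, -⟩ := merge_pre b2.1 hS (b1 b (by simp)) (b1 (fl b) (by simp))
    have c1 := isCyc_mul m3 m4
    have c2 := isCyc_mul n3 n4
    rw [a3] at c1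
    rw [b3] at c2
    obtain rfl : f = f' := c1.unique c2
    rfl

theorem cnt_nil (S : Finset α) : cnt Ds [] S = if S = ∅ then 1 else 0 := by
  classical
  rw [cnt]
  split_ifs with h
  · subst h
    rw [Finset.card_eq_one]
    refine ⟨1, ?_⟩
    ext ψ
    simp only [Finset.mem_filter, Finset.mem_univ, true_and, Finset.mem_singleton]
    refine ⟨fun h => Equiv.ext fun x => h.1 x (by simp), ?_⟩
    rintro rfl
    have : Conn ([] : List (α × Bool)) 1 ∅ := fun p _ _ e he => by simp at he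
    exact ⟨fun _ _ => rfl, ⟨by simp, by simp, by simp, by simp⟩, this, (chi_nil this).2,
      fun x hx => by simp at hx⟩
  · rw [Finset.card_eq_zero, Finset.filter_eq_empty_iff]
    exact fun ψ _ h' => h (chi_nil h'.2.2.1).1

variable (Ds)

/-- number of labelled maps whose boundary has `k` sides of one colour, then `l` of the other -/
noncomputable def CC (k l : ℕ) (S : Finset α) : ℕ :=
  ∑ A ∈ lists true k, ∑ B ∈ lists false l, cnt Ds (A ++ B) S

open Classical in
/-- indicator of allowed degrees -/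
noncomputable def wt (c : Bool) (m : ℕ) : ℕ := if m + 1 ∈ Ds c then 1 else 0

theorem CC_zero (S : Finset α) : CC Ds 0 0 S = if S = ∅ then 1 else 0 := by
  rw [CC, sum_lists_zero, sum_lists_zero, append_nil, cnt_nil]

omit [DecidableEq α] in
theorem sum_univ_eq (S : Finset α) (g : α → ℕ) (h : ∀ e, e ∉ S → g e = 0) :
    ∑ e, g e = ∑ e ∈ S, g e :=
  (Finset.sum_subset (Finset.subset_univ S) fun e _ he => h e he).symm

theorem CC_left (k : ℕ) (S : Finset α) : CC Ds (k + 1) 0 S =
    ∑ e ∈ S, ∑ m ∈ Finset.range S.card, wt Ds false m * CC Ds k m (S.erase e) := by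
  simp only [CC, sum_lists_zero, append_nil]
  rw [sum_lists_add]
  simp only [sum_lists_succ true 0, sum_lists_zero]
  rw [Finset.sum_comm, sum_univ_eq S]
  · refine Finset.sum_congr rfl fun e he => ?_
    rw [Finset.sum_congr rfl fun u hu => cnt_merge u [] (e, true) he (by
      have := (mem_lists.1 hu).2 (e, false)
      simpa using this), Finset.sum_comm]
    refine Finset.sum_congr rfl fun m _ => ?_
    simp only [append_nil, Finset.mul_sum, wt, Bool.not_true]
    rfl
  · exact fun e he => Finset.sum_eq_zero fun u _ => cnt_eq_zero fun h =>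
      he (h.2 (e, true) (by simp))

theorem CC_right (k l : ℕ) (S : Finset α) : CC Ds k (l + 1) S = ∑ e ∈ S,
    (∑ i ∈ Finset.range k, ∑ S₁ ∈ (S.erase e).powerset,
      CC Ds i 0 S₁ * CC Ds (k - 1 - i) l (S.erase e \ S₁) +
    ∑ m ∈ Finset.range S.card, wt Ds true m * CC Ds (k + m) l (S.erase e)) := by
  rw [CC]
  simp only [sum_lists_succ]
  rw [Finset.sum_comm, sum_univ_eq S]
  swap
  · exact fun e he => Finset.sum_eq_zero fun u _ => Finset.sum_eq_zero fun v _ =>
      cnt_eq_zero fun h => he (h.2 (e, false) (by simp))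
  refine Finset.sum_congr rfl fun e he => ?_
  rw [sum_lists_split true e, add_comm]
  congr 1
  · rw [← Finset.sum_range_reflect]
    refine Finset.sum_congr rfl fun i hi => ?_
    have hi' := Finset.mem_range.1 hi
    rw [show k - 1 - (k - 1 - i) = i by omega]
    have : ∀ u v : List (α × Bool), (if (e, true) ∈ u then 0 else
        ∑ B ∈ lists false l, cnt Ds (u ++ (e, true) :: v ++ (e, false) :: B) S) =
        ∑ B ∈ lists false l, ∑ S₁ ∈ (S.erase e).powerset,
          cnt Ds v S₁ * cnt Ds (u ++ B) (S.erase e \ S₁) := by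
      intro u v
      rw [← Finset.sum_congr rfl fun B _ => cnt_cut u v B (e, true) he]
      split_ifs with h
      · refine (Finset.sum_eq_zero fun B _ => cnt_eq_zero fun h' => ?_).symm
        have := h'.1
        simp only [nodup_append, mem_append, mem_cons, nodup_cons] at this
        grind
      · rfl
    simp only [this, CC, sum_lists_zero, append_nil, Finset.sum_mul]
    simp only [Finset.mul_sum]
    rw [Finset.sum_comm]
    symm
    rw [Finset.sum_comm]
    refine Finset.sum_congr rfl fun v _ => ?_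
    rw [Finset.sum_comm]
    refine Finset.sum_congr rfl fun u _ => ?_
    rw [Finset.sum_comm]
  · simp only [CC, sum_lists_add, Finset.mul_sum]
    rw [Finset.sum_comm (s := Finset.range S.card)]
    refine Finset.sum_congr rfl fun A hA => ?_
    split_ifs with h
    · refine (Finset.sum_eq_zero fun m _ => Finset.sum_eq_zero fun f _ =>
        Finset.sum_eq_zero fun B _ => ?_).symm
      rw [cnt_eq_zero fun h' => by simpa using h'.2 (e, true) (by simp [h]), mul_zero]
    · rw [Finset.sum_congr rfl fun B hB => cnt_merge A B (e, false) he (by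
        have := (mem_lists.1 hB).2 (e, true)
        simpa [h] using this), Finset.sum_comm]
      refine Finset.sum_congr rfl fun m _ => ?_
      rw [Finset.sum_comm]
      simp only [wt, Bool.not_false]
      rfl

/-- the normalised counts, by recursion on the number of edges -/
noncomputable def zz (x y : ℕ → ℚ) : ℕ → ℕ → ℕ → ℚ
  | 0, k, l => if k = 0 ∧ l = 0 then 1 else 0
  | _ + 1, 0, 0 => 0
  | n + 1, k + 1, 0 => ∑ m ∈ Finset.range (n + 1), y m * zz x y n k m
  | n + 1, k, l + 1 => ∑ i ∈ Finset.range k, ∑ p : Fin (n + 1),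
      zz x y p i 0 * zz x y (n - p) (k - 1 - i) l +
      ∑ m ∈ Finset.range (n + 1), x m * zz x y n (k + m) l
termination_by n => n
decreasing_by all_goals omega

theorem CC_eq (n : ℕ) : ∀ (k l : ℕ) (S : Finset α), S.card = n → (CC Ds k l S : ℚ) =
    n.factorial * zz (fun m => wt Ds true m) (fun m => wt Ds false m) n k l := by
  induction n using Nat.strong_induction_on with
  | _ n ih =>
  intro k l S hS
  rcases n with _ | n
  · obtain rfl := Finset.card_eq_zero.1 hS
    rw [zz]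
    rcases l with _ | l
    · rcases k with _ | k
      · simp [CC_zero]
      · simp [CC_left]
    · simp [CC_right]
  have he : ∀ e ∈ S, (S.erase e).card = n := fun e he => by
    rw [Finset.card_erase_of_mem he, hS]; rfl
  rcases l with _ | l
  · rcases k with _ | k
    · rw [zz, CC_zero, if_neg (by rintro rfl; simp at hS)]; simp
    · rw [zz, CC_left]
      push_cast
      rw [Finset.sum_congr rfl fun e he' => Finset.sum_congr rfl fun m _ => by
        rw [ih n (by omega) k m _ (he e he')], Finset.sum_const, hS, Nat.factorial_succ,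
        nsmul_eq_mul, Finset.mul_sum, Finset.mul_sum]
      refine Finset.sum_congr rfl fun m _ => ?_
      push_cast; ring
  · rw [zz, CC_right]
    push_cast
    rw [Nat.factorial_succ, Nat.cast_mul, mul_assoc, ← nsmul_eq_mul, ← hS, ← Finset.sum_const]
    refine Finset.sum_congr rfl fun e he' => ?_
    rw [mul_add, Finset.mul_sum, Finset.mul_sum, hS]
    congr 1
    · refine Finset.sum_congr rfl fun i _ => ?_
      let F : ℕ → ℚ := fun p => (p.factorial *
        zz (fun m => wt Ds true m) (fun m => wt Ds false m) p i 0) * ((n - p).factorial *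
        zz (fun m => wt Ds true m) (fun m => wt Ds false m) (n - p) (k - 1 - i) l)
      rw [Finset.sum_congr rfl (g := fun S₁ => F S₁.card) fun S₁ h₁ => ?_,
        Finset.sum_powerset_apply_card F, he e he',
        Finset.mul_sum, ← Fin.sum_univ_eq_sum_range (fun p => n.choose p • F p)]
      · refine Finset.sum_congr rfl fun p _ => ?_
        rw [← Nat.choose_mul_factorial_mul_factorial (Nat.lt_succ_iff.1 p.2), nsmul_eq_mul]
        simp only [F]
        push_cast; ring
      · have h1 := Finset.mem_powerset.1 h₁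
        have h2 := Finset.card_le_card h1
        rw [he e he'] at h2
        rw [ih _ (by omega) _ _ _ rfl, ih (n - S₁.card) (by omega) _ _ _
          (by rw [Finset.card_sdiff_of_subset h1, he e he'])]
    · refine Finset.sum_congr rfl fun m _ => ?_
      rw [ih n (by omega) _ _ _ (he e he')]; ring

theorem zz_eq_zero (x y : ℕ → ℚ) (n : ℕ) : ∀ k l, n < k ∨ n < l → zz x y n k l = 0 := by
  induction n using Nat.strong_induction_on with
  | _ n ih =>
  intro k l h
  rcases n with _ | n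
  · rw [zz, if_neg (by omega)]
  rcases l with _ | l
  · rcases k with _ | k
    · omega
    · rw [zz]
      exact Finset.sum_eq_zero fun m _ => by rw [ih n (by omega) _ _ (by omega), mul_zero]
  · rw [zz, Finset.sum_eq_zero, Finset.sum_eq_zero, add_zero]
    · exact fun m _ => by rw [ih n (by omega) _ _ (by omega), mul_zero]
    · refine fun i hi => Finset.sum_eq_zero fun p _ => ?_
      have := Finset.mem_range.1 hi
      have := p.2
      by_cases h1 : (p : ℕ) < i
      · rw [ih p (by omega) _ _ (Or.inl h1), zero_mul]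
      · rw [ih (n - p) (by omega) _ _ (by omega), mul_zero]

end Pool.Agent.MP_098ecc_co.H85
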