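import Mathlib

set_option autoImplicit false

namespace Pool.Agent.MP_098ecc_co.H85

open Equiv Function List

variable {β : Type*} [DecidableEq β]

omit [DecidableEq β] in
theorem per_congr {f g : β → β} (p : β → Prop) (hp : ∀ x, p x → p (f x))
    (h : ∀ x, p x → f x = g x) {x : β} (hx : p x) : minimalPeriod f x = minimalPeriod g x := by
  have : ∀ n, p (f^[n] x) ∧ f^[n] x = g^[n] x := by
    intro n
    induction n with
    | zero => exact ⟨hx, rfl⟩
    | succ n ih =>
      rw [iterate_succ_apply', iterate_succ_apply', ← ih.2]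
      exact ⟨hp _ ih.1, h _ ih.1⟩
  rw [minimalPeriod_eq_minimalPeriod_iff]
  intro n
  simp only [IsPeriodicPt, IsFixedPt, (this n).2]

theorem per_formPerm {l : List β} (hl : l.Nodup) {x : β} (hx : x ∈ l) :
    minimalPeriod l.formPerm x = l.length := by
  obtain ⟨i, hi, rfl⟩ := List.getElem_of_mem hx
  have key : ∀ n, IsPeriodicPt l.formPerm n l[i] ↔ l.length ∣ n := by
    intro n
    rw [IsPeriodicPt, IsFixedPt, Perm.iterate_eq_pow, formPerm_pow_apply_getElem l hl,
      hl.getElem_inj_iff]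
    constructor
    · intro h
      have h2 : (i + n) % l.length = (i + 0) % l.length := by
        rw [h, add_zero, Nat.mod_eq_of_lt hi]
      exact (Nat.modEq_zero_iff_dvd).1 (Nat.ModEq.add_left_cancel' i h2)
    · rintro ⟨c, rfl⟩
      rw [Nat.add_mul_mod_self_left, Nat.mod_eq_of_lt hi]
  exact Nat.dvd_antisymm ((key _).2 dvd_rfl).minimalPeriod_dvd
    ((key _).1 (isPeriodicPt_minimalPeriod _ _))

/-- the list `l` is a cycle of `π` -/
def IsCyc (π : Perm β) (l : List β) : Prop := l.Nodup ∧ ∀ x ∈ l, π x = l.formPerm x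

theorem IsCyc.mem_iff {π : Perm β} {l : List β} (h : IsCyc π l) (x : β) : π x ∈ l ↔ x ∈ l := by
  refine ⟨fun hx => ?_, fun hx => by rw [h.2 x hx]; exact formPerm_apply_mem_of_mem hx⟩
  have h1 : l.formPerm⁻¹ (π x) ∈ l := by
    rw [← formPerm_mem_iff_mem]; simpa using hx
  have h2 := h.2 _ h1
  simp only [Perm.coe_inv, apply_symm_apply, EmbeddingLike.apply_eq_iff_eq] at h2
  rw [← h2]; exact h1

theorem IsCyc.per {π : Perm β} {l : List β} (h : IsCyc π l) {x : β} (hx : x ∈ l) :
    minimalPeriod π x = l.length := by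
  rw [per_congr (· ∈ l) (fun y hy => (h.mem_iff y).2 hy) h.2 hx, per_formPerm h.1 hx]

theorem IsCyc.getElem {π : Perm β} {a : β} {f : List β} (h : IsCyc π (a :: f)) (i : ℕ)
    (hi : i < (a :: f).length) : (a :: f)[i] = π^[i] a := by
  induction i with
  | zero => rfl
  | succ i ih =>
    rw [iterate_succ_apply', ← ih (by omega), h.2 _ (getElem_mem _),
      formPerm_apply_lt_getElem _ h.1]

theorem IsCyc.unique {π : Perm β} {a : β} {f g : List β} (h : IsCyc π (a :: f))
    (h' : IsCyc π (a :: g)) : f = g := by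
  have h1 : (a :: f).length = (a :: g).length := by
    rw [← h.per mem_cons_self, h'.per mem_cons_self]
  have : a :: f = a :: g :=
    List.ext_getElem h1 fun i hi hi' => by rw [h.getElem, h'.getElem]
  exact (cons.inj this).2

theorem IsCyc.reach {π : Perm β} {a : β} {f : List β} (h : IsCyc π (a :: f)) (p : β → Prop)
    (hp : ∀ x, p x → p (π x)) (ha : p a) : ∀ x ∈ a :: f, p x := by
  intro x hx
  obtain ⟨i, hi, rfl⟩ := List.getElem_of_mem hx
  rw [h.getElem]
  clear hx hi
  induction i with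
  | zero => exact ha
  | succ i ih => rw [iterate_succ_apply']; exact hp _ ih

theorem exists_cyc [Finite β] (π : Perm β) (a : β) : ∃ f, IsCyc π (a :: f) := by
  have h0 : 0 < minimalPeriod π a :=
    minimalPeriod_pos_of_mem_periodicPts (π.injective.mem_periodicPts a)
  obtain ⟨m, hm⟩ := Nat.exists_eq_succ_of_ne_zero h0.ne'
  let l := List.ofFn fun i : Fin (m + 1) => π^[i] a
  have hl : l.Nodup := by
    refine nodup_ofFn_ofInjective fun i j hij => Fin.ext ?_
    exact iterate_injOn_Iio_minimalPeriod (by simpa [hm] using i.2) (by simpa [hm] using j.2) hij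
  have h : IsCyc π l := by
    refine ⟨hl, fun x hx => ?_⟩
    obtain ⟨i, hi, rfl⟩ := List.getElem_of_mem hx
    rw [formPerm_apply_getElem _ hl]
    simp only [l, List.getElem_ofFn, length_ofFn]
    rw [← iterate_succ_apply' π, ← iterate_mod_minimalPeriod_eq, hm]
  exact ⟨_, by simpa only [l, ofFn_succ, Fin.val_zero, iterate_zero_apply] using h⟩

theorem isCyc_mul {l : List β} (hl : l.Nodup) {ψ : Perm β} (h : ∀ x ∈ l, ψ x = x) :
    IsCyc (l.formPerm * ψ) l := ⟨hl, fun x hx => by simp [h x hx]⟩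

theorem mul_apply_notMem {l : List β} {ψ : Perm β} (h : ∀ x ∈ l, ψ x = x) {x : β}
    (hx : x ∉ l) : ψ x ∉ l ∧ (l.formPerm * ψ) x = ψ x := by
  have : ψ x ∉ l := fun h1 => hx (ψ.injective (h _ h1) ▸ h1)
  exact ⟨this, by simp [formPerm_apply_of_notMem this]⟩

theorem IsCyc.decomp {π : Perm β} {l : List β} (h : IsCyc π l) :
    ∃ ψ : Perm β, (∀ x ∈ l, ψ x = x) ∧ π = l.formPerm * ψ :=
  ⟨l.formPerm⁻¹ * π, fun x hx => by simp [h.2 x hx], by simp⟩

/-- number of cycles inside an invariant set -/
noncomputable def cyc (π : Perm β) (s : Finset β) : ℚ := ∑ x ∈ s, (minimalPeriod π x : ℚ)⁻¹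

omit [DecidableEq β] in
theorem cyc_congr {π π' : Perm β} {s : Finset β} (hs : ∀ x ∈ s, π x ∈ s)
    (h : ∀ x ∈ s, π x = π' x) : cyc π s = cyc π' s :=
  Finset.sum_congr rfl fun x hx => by rw [per_congr (· ∈ s) hs h hx]

theorem IsCyc.cyc {π : Perm β} {l : List β} (h : IsCyc π l) :
    cyc π l.toFinset = if l = [] then 0 else 1 := by
  unfold H85.cyc
  rw [Finset.sum_congr rfl fun x hx => by rw [h.per (mem_toFinset.1 hx)], Finset.sum_const,
    toFinset_card_of_nodup h.1]
  split_ifs with h0
  · simp [h0]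
  · have : (l.length : ℚ) ≠ 0 := by simpa using h0
    simp [this]

theorem del_formPerm {a : β} {f : List β} (h : (a :: f).Nodup) :
    swap a ((a :: f).formPerm a) * (a :: f).formPerm = f.formPerm := by
  rcases f with _ | ⟨c, f⟩
  · simp; rfl
  · rw [formPerm_apply_head _ _ _ h, formPerm_cons_cons, swap_mul_self_mul]

theorem cyc_del [Finite β] (π : Perm β) {s : Finset β} (hs : ∀ x ∈ s, π x ∈ s) {a : β}
    (ha : a ∈ s) : cyc π s = cyc (swap a (π a) * π) (s.erase a) + if π a = a then 1 else 0 := by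
  obtain ⟨f, hf⟩ := exists_cyc π a
  obtain ⟨ψ, h1, h2⟩ := hf.decomp
  have hsub : (a :: f).toFinset ⊆ s := fun x hx => hf.reach (· ∈ s) hs ha x (mem_toFinset.1 hx)
  have hnd := nodup_cons.1 hf.1
  have e : swap a (π a) * π = f.formPerm * ψ := by
    rw [hf.2 a mem_cons_self, h2, ← mul_assoc, del_formPerm hf.1]
  have hf' : IsCyc (f.formPerm * ψ) f := isCyc_mul hnd.2 fun x hx => h1 x (mem_cons_of_mem _ hx)
  have hsub' : f.toFinset ⊆ s.erase a := fun x hx => by
    have := mem_toFinset.1 hx
    exact Finset.mem_erase.2 ⟨fun h => hnd.1 (h ▸ this), hsub (by simp [this])⟩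
  have e1 : s.erase a \ f.toFinset = s \ (a :: f).toFinset := by
    ext x; simp [and_assoc, and_left_comm]
  have e2 : π a = a ↔ f = [] := by
    rw [hf.2 a mem_cons_self, formPerm_apply_mem_eq_self_iff _ hf.1 _ mem_cons_self]
    simp
  have e3 : cyc π (s \ (a :: f).toFinset) = cyc (f.formPerm * ψ) (s \ (a :: f).toFinset) := by
    refine cyc_congr (fun x hx => ?_) fun x hx => ?_
    · simp only [Finset.mem_sdiff, mem_toFinset] at hx ⊢
      exact ⟨hs x hx.1, fun h => hx.2 ((hf.mem_iff x).1 h)⟩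
    · simp only [Finset.mem_sdiff, mem_toFinset] at hx
      rw [h2, (mul_apply_notMem h1 hx.2).2, (mul_apply_notMem
        (fun x hx => h1 x (mem_cons_of_mem _ hx)) fun h => hx.2 (mem_cons_of_mem _ h)).2]
  have e4 := hf.cyc
  have e5 := hf'.cyc
  rw [e, cyc, ← Finset.sum_sdiff hsub, cyc, ← Finset.sum_sdiff hsub', e1]
  unfold cyc at e3 e4 e5
  rw [e3, e4, e5]
  simp only [e2, reduceCtorEq, if_false]
  split_ifs <;> ring

theorem formPerm_append_cons (u : List β) (b : β) (w : List β) :
    (u ++ b :: w).formPerm = (u ++ [b]).formPerm * (b :: w).formPerm := by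
  induction u with
  | nil => simp
  | cons a u ih =>
    rcases u with _ | ⟨c, u⟩
    · simp [formPerm_cons_cons]
    · rw [cons_append, cons_append, cons_append, cons_append, formPerm_cons_cons,
        formPerm_cons_cons, ← cons_append, ← cons_append, ih, mul_assoc]

theorem swap_mul_formPerm {a b : β} {v w : List β} (h : (a :: v ++ [b]).Nodup) :
    swap a b * (a :: v ++ b :: w).formPerm = (a :: v).formPerm * (b :: w).formPerm := by
  rw [formPerm_append_cons, formPerm_eq_of_isRotated h isRotated_append, singleton_append,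
    formPerm_cons_cons, swap_comm b a, ← mul_assoc, swap_mul_self_mul]

end Pool.Agent.MP_098ecc_co.H85
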