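import Mathlib

set_option autoImplicit false

namespace Pool.Agent.MP_098ecc_co.H85

open PowerSeries

theorem exists_fix {K ι : Type*} [CommRing K] (F : (ι → K⟦X⟧) → (ι → K⟦X⟧))
    (hF : ∀ (n : ℕ) (f g : ι → K⟦X⟧), (∀ i, X ^ n ∣ f i - g i) →
      ∀ i, X ^ (n + 1) ∣ F f i - F g i) : ∃ f, F f = f := by
  have h1 : ∀ n i, (X : K⟦X⟧) ^ n ∣ F^[n + 1] 0 i - F^[n] 0 i := by
    intro n
    induction n with
    | zero => intro i; simp
    | succ n ih =>
      intro i
      have := hF n _ _ ih i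
      rwa [← Function.iterate_succ_apply' F (n + 1), ← Function.iterate_succ_apply' F n] at this
  have h2 : ∀ n k i, (X : K⟦X⟧) ^ n ∣ F^[n + k] 0 i - F^[n] 0 i := by
    intro n k i
    induction k with
    | zero => simp
    | succ k ih =>
      have := (pow_dvd_pow (X : K⟦X⟧) (Nat.le_add_right n k)).trans (h1 (n + k) i)
      have e : F^[n + (k + 1)] 0 i - F^[n] 0 i =
          (F^[n + k + 1] 0 i - F^[n + k] 0 i) + (F^[n + k] 0 i - F^[n] 0 i) := by
        rw [← add_assoc]; ring
      rw [e]; exact dvd_add this ih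
  let f : ι → K⟦X⟧ := fun i => mk fun n => coeff n (F^[n + 1] 0 i)
  have h3 : ∀ n i, (X : K⟦X⟧) ^ n ∣ f i - F^[n] 0 i := by
    intro n i
    rw [X_pow_dvd_iff]
    intro m hm
    obtain ⟨k, rfl⟩ := Nat.exists_eq_add_of_le (Nat.succ_le_of_lt hm)
    have := X_pow_dvd_iff.1 (h2 (m + 1) k i) m (Nat.lt_succ_self m)
    simp only [map_sub, f, coeff_mk] at this ⊢
    rw [sub_eq_zero] at this ⊢
    exact this.symm
  refine ⟨f, funext fun i => ?_⟩
  ext n
  have a := X_pow_dvd_iff.1 (hF n _ _ (h3 n) i) n (Nat.lt_succ_self n)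
  rw [← Function.iterate_succ_apply' F n, map_sub, sub_eq_zero] at a
  rw [a]; simp [f]

theorem alg_of_fix {ι : Type} [Finite ι] (f : ι → ℚ⟦X⟧)
    (h : ∀ i, ∃ c : ℚ, ∃ φ ∈ Algebra.adjoin ℚ (insert X (Set.range f)), f i = C c + X * φ) (i : ι) :
    IsAlgebraic (Polynomial ℚ) (f i) := by
  classical
  let R := ℚ⟦X⟧
  let Ω := FractionRing R
  let K := FractionRing (Polynomial ℚ)
  have hinj : Function.Injective (algebraMap (Polynomial ℚ) R) := by
    intro a b hab
    apply Polynomial.coe_injective ℚ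
    simpa [R, PowerSeries.algebraMap_apply'] using hab
  have hinjR : Function.Injective (algebraMap R Ω) := IsFractionRing.injective R Ω
  have hinjΩ : Function.Injective (algebraMap (Polynomial ℚ) Ω) := by
    rw [IsScalarTower.algebraMap_eq (Polynomial ℚ) R Ω]
    exact hinjR.comp hinj
  have : FaithfulSMul (Polynomial ℚ) Ω := (faithfulSMul_iff_algebraMap_injective _ _).2 hinjΩ
  let : Algebra K Ω := FractionRing.liftAlgebra (Polynomial ℚ) Ω
  let L : IntermediateField K Ω := IntermediateField.adjoin K (Set.range fun j => algebraMap R Ω (f j))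
  have hg : ∀ j, algebraMap R Ω (f j) ∈ L := fun j =>
    IntermediateField.subset_adjoin _ _ ⟨j, rfl⟩
  have : Algebra.EssFiniteType K L := by
    rw [IntermediateField.essFiniteType_iff]
    exact IntermediateField.fg_adjoin_of_finite (Set.finite_range _)
  have hpoly : ∀ p : Polynomial ℚ, algebraMap R Ω (algebraMap (Polynomial ℚ) R p) =
      algebraMap K Ω (algebraMap (Polynomial ℚ) K p) := by
    intro p
    rw [← IsScalarTower.algebraMap_apply, ← IsScalarTower.algebraMap_apply]
  have hD : ∀ (D : Derivation K L L) (j : ι), D ⟨_, hg j⟩ = 0 := by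
    intro D j0
    by_contra hne
    have : Nonempty ι := ⟨j0⟩
    obtain ⟨j, hj⟩ := Finite.exists_max (α := ι)
      fun j => ValuationRing.valuation R Ω (D ⟨_, hg j⟩ : L)
    have hj0 : D ⟨_, hg j⟩ ≠ 0 := by
      intro h0
      have := hj j0
      rw [h0] at this
      simp only [ZeroMemClass.coe_zero, map_zero, le_zero_iff, _root_.map_eq_zero,
        ZeroMemClass.coe_eq_zero] at this
      exact hne this
    let D' : Derivation K L L := (D ⟨_, hg j⟩)⁻¹ • D
    have key0 : ∀ p : Polynomial ℚ, ∃ hx : algebraMap R Ω (algebraMap (Polynomial ℚ) R p) ∈ L,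
        D' ⟨_, hx⟩ = 0 := by
      intro p
      refine ⟨hpoly p ▸ L.algebraMap_mem _, ?_⟩
      have := D'.map_algebraMap (algebraMap (Polynomial ℚ) K p)
      rw [← this]
      congr 1
      exact Subtype.ext (hpoly p)
    have hXe : algebraMap (Polynomial ℚ) R Polynomial.X = X := by
      simp [R, PowerSeries.algebraMap_apply']
    have hCe : ∀ c : ℚ, algebraMap (Polynomial ℚ) R (Polynomial.C c) = C c := by
      intro c; simp [R, PowerSeries.algebraMap_apply']
    have key : ∀ x ∈ Algebra.adjoin ℚ (insert X (Set.range f)),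
        ∃ hx : algebraMap R Ω x ∈ L, ∃ r : R, algebraMap R Ω r = (D' ⟨_, hx⟩ : L) := by
      intro x hx
      induction hx using Algebra.adjoin_induction with
      | mem x hx =>
        rcases hx with rfl | ⟨k, rfl⟩
        · obtain ⟨h1, h2⟩ := key0 Polynomial.X
          refine ⟨hXe ▸ h1, 0, ?_⟩
          have : (⟨algebraMap R Ω X, hXe ▸ h1⟩ : L) = ⟨_, h1⟩ := Subtype.ext (by simp [hXe])
          rw [this, h2]; simp
        · refine ⟨hg k, ?_⟩
          rw [← ValuationRing.mem_integer_iff]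
          rw [Valuation.mem_integer_iff]
          have hv : ValuationRing.valuation R Ω (D ⟨_, hg j⟩ : L) ≠ 0 := by simpa using hj0
          simp only [D', Derivation.smul_apply, smul_eq_mul, MulMemClass.coe_mul,
            IntermediateField.coe_inv, map_mul, map_inv₀]
          rw [inv_mul_le_one₀ (zero_lt_iff.2 hv)]
          exact hj k
      | algebraMap c =>
        obtain ⟨h1, h2⟩ := key0 (Polynomial.C c)
        have e : algebraMap ℚ R c = algebraMap (Polynomial ℚ) R (Polynomial.C c) := by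
          rw [hCe]; rfl
        refine ⟨e ▸ h1, 0, ?_⟩
        have : (⟨algebraMap R Ω (algebraMap ℚ R c), e ▸ h1⟩ : L) = ⟨_, h1⟩ :=
          Subtype.ext (by simp only [e])
        rw [this, h2]; simp
      | add x y _ _ ihx ihy =>
        obtain ⟨hx, r, hr⟩ := ihx
        obtain ⟨hy, s, hs⟩ := ihy
        refine ⟨by rw [map_add]; exact L.add_mem hx hy, r + s, ?_⟩
        have : (⟨algebraMap R Ω (x + y), by rw [map_add]; exact L.add_mem hx hy⟩ : L) =
          ⟨_, hx⟩ + ⟨_, hy⟩ := Subtype.ext (by simp)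
        rw [this, map_add, map_add, hr, hs]; simp
      | mul x y _ _ ihx ihy =>
        obtain ⟨hx, r, hr⟩ := ihx
        obtain ⟨hy, s, hs⟩ := ihy
        refine ⟨by rw [map_mul]; exact L.mul_mem hx hy, x * s + y * r, ?_⟩
        have : (⟨algebraMap R Ω (x * y), by rw [map_mul]; exact L.mul_mem hx hy⟩ : L) =
          ⟨_, hx⟩ * ⟨_, hy⟩ := Subtype.ext (by simp)
        rw [this, Derivation.leibniz, map_add, map_mul, map_mul, hr, hs]; simp
    obtain ⟨c, φ, hφ, e⟩ := h j
    obtain ⟨hφL, r, hr⟩ := key φ hφ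
    obtain ⟨h1, h2⟩ := key0 (Polynomial.C c)
    obtain ⟨h3, h4⟩ := key0 Polynomial.X
    have e2 : (⟨_, hg j⟩ : L) = ⟨_, h1⟩ + ⟨_, h3⟩ * ⟨_, hφL⟩ := Subtype.ext (by
      simp only [hCe, hXe, e, map_add, map_mul, AddMemClass.coe_add, MulMemClass.coe_mul])
    have e3 : D' ⟨_, hg j⟩ = 1 := by
      simp only [D', Derivation.smul_apply, smul_eq_mul]
      exact inv_mul_cancel₀ hj0
    rw [e2, map_add, Derivation.leibniz, h2, h4] at e3
    have e4 := congrArg (fun z : L => (z : Ω)) e3
    simp only [smul_eq_mul, mul_zero, add_zero, zero_add, MulMemClass.coe_mul, hXe,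
      OneMemClass.coe_one, ← hr] at e4
    rw [← map_mul, ← map_one (algebraMap R Ω)] at e4
    have e5 := congrArg constantCoeff (hinjR e4)
    simp [R] at e5
  have hD0 : ∀ x : L, KaehlerDifferential.D K L x = 0 := by
    have h0 : ∀ j, KaehlerDifferential.D K L ⟨_, hg j⟩ = 0 := by
      intro j
      rw [← Module.forall_dual_apply_eq_zero_iff L]
      intro l
      exact hD (l.compDer (KaehlerDifferential.D K L)) j
    rintro ⟨x, hx⟩
    induction hx using IntermediateField.adjoin_induction with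
    | mem x hx => obtain ⟨j, rfl⟩ := hx; exact h0 j
    | algebraMap c => exact (KaehlerDifferential.D K L).map_algebraMap c
    | add x y hx hy ihx ihy =>
      have : (⟨x + y, L.add_mem hx hy⟩ : L) = ⟨x, hx⟩ + ⟨y, hy⟩ := rfl
      rw [this, map_add, ihx, ihy, add_zero]
    | inv x hx ih =>
      have : (⟨x⁻¹, L.inv_mem hx⟩ : L) = (⟨x, hx⟩ : L)⁻¹ := rfl
      rw [this, Derivation.leibniz_inv, ih, smul_zero]
    | mul x y hx hy ihx ihy =>
      have : (⟨x * y, L.mul_mem hx hy⟩ : L) = ⟨x, hx⟩ * ⟨y, hy⟩ := rfl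
      rw [this, Derivation.leibniz, ihx, ihy]; simp
  have : Algebra.FormallyUnramified K L := by
    refine ⟨?_⟩
    have := KaehlerDifferential.span_range_derivation K L
    rw [← Submodule.subsingleton_iff L, ← subsingleton_iff_bot_eq_top, ← this, eq_comm,
      Submodule.span_eq_bot]
    rintro _ ⟨x, rfl⟩
    exact hD0 x
  have := Algebra.FormallyUnramified.isSeparable K L
  have h1 : IsAlgebraic K (⟨_, hg i⟩ : L) := Algebra.IsAlgebraic.isAlgebraic _
  have h2 : IsAlgebraic K (algebraMap R Ω (f i)) := h1.algebraMap (A := Ω)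
  have h3 : IsAlgebraic (Polynomial ℚ) (algebraMap R Ω (f i)) :=
    (IsFractionRing.isAlgebraic_iff (Polynomial ℚ) K Ω).2 h2
  exact (isAlgebraic_algebraMap_iff hinjR).1 h3

theorem alg_of_expand (p : ℕ) (hp : p ≠ 0) (F : ℚ⟦X⟧)
    (h : IsAlgebraic (Polynomial ℚ) (expand p hp F)) : IsAlgebraic (Polynomial ℚ) F := by
  let B : Subalgebra ℚ (Polynomial ℚ) := (Polynomial.expand ℚ p).range
  have hinj : Function.Injective (Polynomial.expand ℚ p) :=
    Polynomial.expand_injective (Nat.pos_of_ne_zero hp)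
  have hB : Algebra.IsAlgebraic B (Polynomial ℚ) := by
    refine ⟨fun g => ?_⟩
    have hX : IsAlgebraic B (Polynomial.X : Polynomial ℚ) := by
      refine IsAlgebraic.of_pow (Nat.pos_of_ne_zero hp) ?_
      exact isAlgebraic_algebraMap (⟨Polynomial.X ^ p, ⟨Polynomial.X, by simp⟩⟩ : B)
    induction g using Polynomial.induction_on' with
    | add a b ha hb => exact ha.add hb
    | monomial n c =>
      rw [← Polynomial.C_mul_X_pow_eq_monomial]
      exact (isAlgebraic_algebraMap (⟨Polynomial.C c, ⟨Polynomial.C c, by simp⟩⟩ : B)).mul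
        (hX.pow n)
  obtain ⟨Q, hQ0, hQ⟩ : IsAlgebraic B (expand p hp F) := h.restrictScalars B
  let e := AlgEquiv.ofInjective (Polynomial.expand ℚ p) hinj
  refine ⟨Q.map (e.symm : B →+* Polynomial ℚ), ?_, ?_⟩
  · exact (Polynomial.map_ne_zero_iff e.symm.injective).2 hQ0
  · have hinj2 : Function.Injective (expand (R := ℚ) p hp) := by
      intro a b hab
      ext n
      rw [← coeff_expand_mul p hp a, hab, coeff_expand_mul]
    apply hinj2
    rw [map_zero, ← hQ, Polynomial.aeval_def, Polynomial.aeval_def, Polynomial.eval₂_map]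
    refine (Polynomial.hom_eval₂ Q _ (expand p hp : ℚ⟦X⟧ →ₐ[ℚ] ℚ⟦X⟧).toRingHom F).trans ?_
    congr 1
    refine RingHom.ext fun b => ?_
    obtain ⟨g, rfl⟩ := e.surjective b
    have : ((expand p hp : ℚ⟦X⟧ →ₐ[ℚ] ℚ⟦X⟧).toRingHom.comp (algebraMap (Polynomial ℚ) ℚ⟦X⟧)) =
        (algebraMap (Polynomial ℚ) ℚ⟦X⟧).comp (Polynomial.expand ℚ p).toRingHom := by
      refine Polynomial.ringHom_ext (fun c => ?_) ?_
      · simp [PowerSeries.algebraMap_apply', expand_C]
      · simp [PowerSeries.algebraMap_apply']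
    have h2 := RingHom.congr_fun this g
    simp only [RingHom.comp_apply, RingHom.coe_coe, AlgEquiv.symm_apply_apply] at h2 ⊢
    exact h2

end Pool.Agent.MP_098ecc_co.H85
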