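import Pool.Agent.MP_098ecc_co.H85.Count
import Pool.Agent.MP_098ecc_co.H85.Defs

set_option autoImplicit false

namespace Pool.Agent.MP_098ecc_co.H85

open Equiv Function List

variable {α : Type} [DecidableEq α] [Fintype α]

omit [DecidableEq α] in
theorem cyc_univ (π : Perm α) : cyc π Finset.univ = cycles π := by
  classical
  rw [cyc, cycles, Nat.card_eq_fintype_card, ← Finset.sum_fiberwise Finset.univ
    (Quotient.mk'' : α → MulAction.orbitRel.Quotient (Subgroup.zpowers π) α),
    Fintype.card_eq_sum_ones, Nat.cast_sum]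
  refine Finset.sum_congr rfl fun q _ => ?_
  induction q using Quotient.inductionOn' with | _ a => ?_
  have e : (Finset.univ.filter fun x => (Quotient.mk'' x :
      MulAction.orbitRel.Quotient (Subgroup.zpowers π) α) = Quotient.mk'' a) =
      (MulAction.orbit (Subgroup.zpowers π) a).toFinset := by
    ext x
    simp only [Finset.mem_filter, Finset.mem_univ, true_and, Set.mem_toFinset, Quotient.eq'',
      MulAction.orbitRel_apply]
  have h : ∀ x ∈ (MulAction.orbit (Subgroup.zpowers π) a).toFinset,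
      (minimalPeriod π x : ℚ)⁻¹ = ((MulAction.orbit (Subgroup.zpowers π) a).toFinset.card : ℚ)⁻¹ := by
    intro x hx
    have h1 : minimalPeriod π x = _ := MulAction.minimalPeriod_eq_card π x
    rw [h1, ← Set.toFinset_card]
    simp only [MulAction.orbit_eq_iff.2 (Set.mem_toFinset.1 hx)]
  have h0 : ((MulAction.orbit (Subgroup.zpowers π) a).toFinset.card : ℚ) ≠ 0 := by
    rw [Nat.cast_ne_zero, Finset.card_ne_zero]
    exact ⟨a, Set.mem_toFinset.2 (MulAction.mem_orbit_self a)⟩
  rw [e, Finset.sum_congr rfl h, Finset.sum_const, nsmul_eq_mul, mul_inv_cancel₀ h0, Nat.cast_one]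

theorem per_semiconj {A B : Type*} {f : A → A} {g : B → B} {i : A → B} (hi : Injective i)
    (h : ∀ x, i (f x) = g (i x)) (x : A) : minimalPeriod g (i x) = minimalPeriod f x := by
  rw [minimalPeriod_eq_minimalPeriod_iff]
  intro n
  rw [IsPeriodicPt, IsFixedPt, ← Semiconj.iterate_right h n x, hi.eq_iff]
  rfl

/-- closure property equivalent to transitivity -/
def Cl (σ τ : Perm α) : Prop :=
  ∀ p : α → Prop, (∀ x, p x ↔ p (σ x)) → (∀ x, p x ↔ p (τ x)) → ∀ a b, p a → p b

omit [DecidableEq α] [Fintype α] in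
theorem trans_iff (σ τ : Perm α) :
    MulAction.IsPretransitive (Subgroup.closure {σ, τ}) α ↔ Cl σ τ := by
  constructor
  · intro h p h1 h2 a b ha
    obtain ⟨⟨g, hg⟩, rfl⟩ := h.exists_smul_eq a b
    have : ∀ x, p x ↔ p (g x) := by
      induction hg using Subgroup.closure_induction with
      | mem g hg => rcases hg with rfl | rfl <;> assumption
      | one => simp
      | mul g g' _ _ ih ih' => exact fun x => (ih' x).trans (ih _)
      | inv g _ ih => intro x; rw [ih (g⁻¹ x)]; simp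
    exact (this a).1 ha
  · intro h
    refine ⟨fun a b => h (fun b => ∃ g : Subgroup.closure {σ, τ}, g • a = b) ?_ ?_ a b ⟨1, rfl⟩⟩
    all_goals intro x
    · let s : Subgroup.closure {σ, τ} := ⟨σ, Subgroup.subset_closure (by simp)⟩
      exact ⟨fun ⟨g, hg⟩ => ⟨s * g, by rw [mul_smul, hg]; rfl⟩,
        fun ⟨g, hg⟩ => ⟨s⁻¹ * g, by rw [mul_smul, hg]; exact σ.symm_apply_apply x⟩⟩
    · let s : Subgroup.closure {σ, τ} := ⟨τ, Subgroup.subset_closure (by simp)⟩
      exact ⟨fun ⟨g, hg⟩ => ⟨s * g, by rw [mul_smul, hg]; rfl⟩,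
        fun ⟨g, hg⟩ => ⟨s⁻¹ * g, by rw [mul_smul, hg]; exact τ.symm_apply_apply x⟩⟩

/-- the face permutation on edge sides -/
def pr (σ τ : Perm α) : Perm (α × Bool) := Equiv.prodCongrLeft fun c => cond c σ τ

omit [DecidableEq α] [Fintype α] in
@[simp] theorem pr_true (σ τ : Perm α) (e : α) : pr σ τ (e, true) = (σ e, true) := rfl
omit [DecidableEq α] [Fintype α] in
@[simp] theorem pr_false (σ τ : Perm α) (e : α) : pr σ τ (e, false) = (τ e, false) := rfl

omit [DecidableEq α] in
theorem exists_pr {π : Perm (α × Bool)} (h : ∀ x, (π x).2 = x.2) : ∃ σ τ, π = pr σ τ := by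
  have : ∀ c, Bijective fun e => (π (e, c)).1 := fun c =>
    Finite.injective_iff_bijective.1 fun a b hab =>
      (Prod.mk.inj (π.injective (Prod.ext hab ((h (a, c)).trans (h (b, c)).symm)))).1
  refine ⟨Equiv.ofBijective _ (this true), Equiv.ofBijective _ (this false), ?_⟩
  ext1 ⟨e, _ | _⟩
  exacts [Prod.ext rfl (h _), Prod.ext rfl (h _)]

omit [DecidableEq α] [Fintype α] in
theorem per_pr (σ τ : Perm α) (e : α) : minimalPeriod (pr σ τ) (e, true) = minimalPeriod σ e ∧
    minimalPeriod (pr σ τ) (e, false) = minimalPeriod τ e :=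
  ⟨per_semiconj (i := fun e => (e, true)) (Prod.mk_left_injective _) (fun _ => rfl) e,
    per_semiconj (i := fun e => (e, false)) (Prod.mk_left_injective _) (fun _ => rfl) e⟩

omit [DecidableEq α] in
theorem cyc_pr (σ τ : Perm α) : cyc (pr σ τ) (D Finset.univ) = cycles σ + cycles τ := by
  rw [← cyc_univ, ← cyc_univ, cyc, D, Finset.sum_product_right, Fintype.sum_bool]
  simp only [per_pr, cyc]

omit [DecidableEq α] in
theorem cyc_vert (σ τ : Perm α) : cyc (fl * pr σ τ) (D Finset.univ) = cycles (σ * τ) := by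
  set ν : Perm (α × Bool) := fl * pr σ τ with hν
  have h1 : ∀ e, minimalPeriod ⇑ν (e, false) = 2 * minimalPeriod ⇑(σ * τ) e := by
    intro e
    have h2 : minimalPeriod (⇑ν)^[2] (e, false) = minimalPeriod ⇑(σ * τ) e :=
      per_semiconj (i := fun e => (e, false)) (Prod.mk_left_injective _) (fun _ => rfl) e
    have h3 : ∀ n, ((⇑ν)^[n] (e, false)).2 = decide (Odd n) := by
      intro n
      induction n with
      | zero => simp
      | succ n ih =>
        rw [iterate_succ_apply']
        generalize (⇑ν)^[n] (e, false) = x at ih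
        rcases x with ⟨x, _ | _⟩ <;> simp_all [ν, Nat.odd_add_one]
    have h4 := h3 (minimalPeriod ⇑ν (e, false))
    rw [iterate_minimalPeriod] at h4
    have h5 : 2 ∣ minimalPeriod ⇑ν (e, false) := by
      rw [← even_iff_two_dvd, ← Nat.not_odd_iff_even]; simpa using h4
    rw [← h2, minimalPeriod_iterate_eq_div_gcd (by norm_num), Nat.gcd_eq_right h5,
      Nat.mul_div_cancel' h5]
  have h2 : ∀ e, minimalPeriod ⇑ν (τ e, true) =
      minimalPeriod ⇑ν (e, false) := fun e =>
    minimalPeriod_apply (f := ⇑ν) (x := (e, false))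
      (ν.injective.mem_periodicPts _)
  rw [← cyc_univ, cyc, D, Finset.sum_product_right, Fintype.sum_bool,
    ← Equiv.sum_comp τ fun e => ((minimalPeriod ⇑ν (e, true) : ℚ))⁻¹]
  simp only [h2, h1, cyc, ← Finset.sum_add_distrib]
  refine Finset.sum_congr rfl fun e _ => ?_
  push_cast
  ring

/-- the conditions on a pair of permutations -/
def Good (Ds : Bool → Set ℕ) (σ τ : Perm α) : Prop :=
  Cl σ τ ∧ cycles σ + cycles τ + cycles (σ * τ) = Fintype.card α + 2 ∧
    (∀ e, minimalPeriod σ e ∈ Ds true) ∧ ∀ e, minimalPeriod τ e ∈ Ds false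

theorem good_iff {Ds : Bool → Set ℕ} {σ τ : Perm α} {e : α} {f : List (α × Bool)}
    {ψ : Perm (α × Bool)} (hn : ((e, true) :: f).Nodup) (hf : ∀ x ∈ (e, true) :: f, ψ x = x)
    (h : ((e, true) :: f).formPerm * ψ = pr σ τ) :
    Good Ds σ τ ↔ f.length + 1 ∈ Ds true ∧ G0 Ds ((e, true) :: f) ψ Finset.univ := by
  have hc := isCyc_mul hn hf
  have hP : Pre ((e, true) :: f) ψ Finset.univ := ⟨hn, by simp, hf, by simp⟩
  have hout : ∀ x, x ∉ (e, true) :: f → ψ x = pr σ τ x := fun x hx => by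
    rw [← h, (mul_apply_notMem hf hx).2]
  have hper : ∀ x, x ∉ (e, true) :: f → minimalPeriod ψ x = minimalPeriod (pr σ τ) x :=
    fun x hx => per_congr (· ∉ (e, true) :: f) (fun y hy => (mul_apply_notMem hf hy).1) hout hx
  have h1 : Cl σ τ ↔ Conn ((e, true) :: f) ψ Finset.univ := by
    constructor
    · intro H p hp1 hp2 b _
      have : ∀ x, p x.1 ↔ p (pr σ τ x).1 := by
        intro x
        by_cases hx : x ∈ (e, true) :: f
        · exact iff_of_true (hp1 x hx) (hp1 _ (h ▸ (hc.mem_iff x).2 hx))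
        · rw [← hout x hx]; exact hp2 x (Finset.mem_univ _)
      exact H p (fun x => this (x, true)) (fun x => this (x, false)) e b (hp1 _ mem_cons_self)
    · intro H p hp1 hp2
      have key : ∀ p : α → Prop, (∀ x, p x ↔ p (σ x)) → (∀ x, p x ↔ p (τ x)) → p e → ∀ b, p b := by
        intro p hp1 hp2 he b
        have : ∀ x : α × Bool, p x.1 ↔ p (pr σ τ x).1 := by
          rintro ⟨x, _ | _⟩
          exacts [hp2 x, hp1 x]
        refine H p (hc.reach (fun x => p x.1) (fun x hx => ?_) he) (fun x _ => ?_) b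
          (Finset.mem_univ _)
        · rw [h]; exact (this x).1 hx
        · by_cases hx : x ∈ (e, true) :: f
          · rw [hf x hx]
          · rw [hout x hx]; exact this x
      intro a b ha
      by_cases he : p e
      · exact key p hp1 hp2 he b
      · exact absurd ha (key (fun x => ¬ p x) (fun x => (hp1 x).not) (fun x => (hp2 x).not) he a)
  have h2 : chi ((e, true) :: f) ψ Finset.univ =
      cycles σ + cycles τ + cycles (σ * τ) - (Fintype.card α + 2) := by
    have e1 := hc.cyc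
    rw [if_neg (by simp), h] at e1
    have e2 := cyc_pr σ τ
    rw [cyc, ← Finset.sum_sdiff (s₁ := ((e, true) :: f).toFinset) (fun x _ => by simp)] at e2
    rw [chi, h, cyc_vert, if_neg (by simp), cyc_congr hP.inner_inv fun x hx =>
      hout x (by simpa using (Finset.mem_sdiff.1 hx).2), Finset.card_univ]
    unfold cyc at e1 ⊢
    linarith
  have h3 : ((∀ e, minimalPeriod σ e ∈ Ds true) ∧ ∀ e, minimalPeriod τ e ∈ Ds false) ↔
      ∀ x, minimalPeriod (pr σ τ) x ∈ Ds x.2 := by
    simp only [Prod.forall, Bool.forall_bool, per_pr, forall_and, and_comm]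
  have h4 : ∀ x : α × Bool, (pr σ τ x).2 = x.2 := by rintro ⟨x, _ | _⟩ <;> rfl
  have h5 := hc.reach (fun x => x.2 = true) (fun x hx => by rw [h, h4, hx]) rfl
  rw [h] at hc
  rw [Good, G0, h1, h2, h3, sub_eq_zero]
  norm_cast
  constructor
  · rintro ⟨a1, a2, a3⟩
    refine ⟨?_, hP, a1, a2, fun x _ hx => ⟨by rw [hout x hx, h4], by rw [hper x hx]; exact a3 x⟩⟩
    have := a3 (e, true)
    rwa [hc.per mem_cons_self] at this
  · rintro ⟨a0, -, a1, a2, a3⟩
    refine ⟨a1, a2, fun x => ?_⟩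
    by_cases hx : x ∈ (e, true) :: f
    · rw [hc.per hx, h5 x hx]; exact a0
    · rw [← hper x hx]; exact (a3 x (Finset.mem_univ _) hx).2

open Classical in
theorem card_good (Ds : Bool → Set ℕ) (e : α) :
    (Finset.univ.filter fun p : Perm α × Perm α => Good Ds p.1 p.2).card =
      ∑ m ∈ Finset.range (Fintype.card α), ∑ f ∈ lists true m,
        wt Ds true m * cnt Ds ((e, true) :: f) Finset.univ := by
  rw [Finset.sum_sigma', card_eq_sum_unique _
    ((Finset.range (Fintype.card α)).sigma (lists true)) _ (fun q p => q.1 + 1 ∈ Ds true ∧ ∃ ψ,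
      G0 Ds ((e, true) :: q.2) ψ Finset.univ ∧ ((e, true) :: q.2).formPerm * ψ = pr p.1 p.2)]
  · refine Finset.sum_congr rfl fun q hq => ?_
    rw [wt]
    split_ifs with h
    swap
    · simp [h]
    rw [one_mul, cnt]
    refine Finset.card_bij (fun p _ => ((e, true) :: q.2).formPerm⁻¹ * pr p.1 p.2) ?_ ?_ ?_
    · intro p hp
      obtain ⟨-, ψ, h1, h2⟩ := (Finset.mem_filter.1 hp).2
      rw [← h2, inv_mul_cancel_left]
      exact Finset.mem_filter.2 ⟨Finset.mem_univ _, fun x hx => by simp at hx, h1⟩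
    · rintro ⟨σ, τ⟩ _ ⟨σ', τ'⟩ _ h
      have h1 := mul_left_cancel h
      refine Prod.ext (Equiv.ext fun x => ?_) (Equiv.ext fun x => ?_)
      · simpa using Equiv.congr_fun h1 (x, true)
      · simpa using Equiv.congr_fun h1 (x, false)
    · intro ψ hψ
      obtain ⟨-, h1⟩ := (Finset.mem_filter.1 hψ).2
      have h2 : ∀ x ∈ (e, true) :: q.2, x.2 = true := by
        simpa using (mem_lists.1 (Finset.mem_sigma.1 hq).2).2
      obtain ⟨σ, τ, h3⟩ := exists_pr (π := ((e, true) :: q.2).formPerm * ψ) fun x => by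
        by_cases hx : x ∈ (e, true) :: q.2
        · rw [h2 x hx, h2 _ (((isCyc_mul h1.1.nd h1.1.fix).mem_iff x).2 hx)]
        · rw [(mul_apply_notMem h1.1.fix hx).2]
          exact (h1.2.2.2 x (Finset.mem_univ _) hx).1
      exact ⟨(σ, τ), Finset.mem_filter.2 ⟨Finset.mem_univ _, h, ψ, h1, h3⟩, by simp [← h3]⟩
  · rintro ⟨σ, τ⟩
    constructor
    · intro H
      obtain ⟨f, hf⟩ := exists_cyc (pr σ τ) (e, true)
      obtain ⟨ψ, h1, h2⟩ := hf.decomp
      have := (good_iff hf.1 h1 h2.symm).1 H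
      have h5 := hf.reach (fun x => x.2 = true) (by rintro ⟨x, _ | _⟩ <;> simp) rfl
      refine ⟨⟨f.length, f⟩, Finset.mem_sigma.2 ⟨Finset.mem_range.2 ?_,
        mem_lists.2 ⟨rfl, fun x hx => h5 x (mem_cons_of_mem _ hx)⟩⟩, this.1, ψ, this.2, h2.symm⟩
      exact (length_map Prod.fst).symm.trans_le (hf.1.map_on fun x hx y hy h =>
        Prod.ext h ((h5 x hx).trans (h5 y hy).symm)).length_le_card
    · rintro ⟨⟨m, f⟩, h0, h1, ψ, h2, h3⟩
      obtain rfl : f.length = m := (mem_lists.1 (Finset.mem_sigma.1 h0).2).1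
      exact (good_iff h2.1.nd h2.1.fix h3).2 ⟨h1, h2⟩
  · rintro p ⟨m, f⟩ h0 ⟨m', f'⟩ h0' ⟨-, ψ₁, a2, a3⟩ ⟨-, ψ₂, b2, b3⟩
    obtain rfl : f.length = m := (mem_lists.1 (Finset.mem_sigma.1 h0).2).1
    obtain rfl : f'.length = m' := (mem_lists.1 (Finset.mem_sigma.1 h0').2).1
    have c1 := isCyc_mul a2.1.nd a2.1.fix
    have c2 := isCyc_mul b2.1.nd b2.1.fix
    rw [a3] at c1
    rw [b3] at c2
    obtain rfl : f = f' := c1.unique c2
    rfl

omit [DecidableEq α] in
theorem cycles_conj (g π : Perm α) : cycles (g * π * g⁻¹) = cycles π := by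
  have := cyc_univ (g * π * g⁻¹)
  rw [cyc, ← Equiv.sum_comp g] at this
  simp only [per_semiconj (f := π) (g := ⇑(g * π * g⁻¹)) g.injective (by simp)] at this
  exact_mod_cast this.symm.trans (cyc_univ π)

theorem EMap.ext' {D₁ D₂ : Set ℕ} {n : ℕ} {m m' : EMap D₁ D₂ n} (h1 : m.σ = m'.σ)
    (h2 : m.τ = m'.τ) (h3 : m.root = m'.root) : m = m' := by
  cases m; cases m'; cases h1; cases h2; cases h3; rfl

/-- relabelling -/
@[reducible] def act (D₁ D₂ : Set ℕ) (n : ℕ) : MulAction (Perm (Fin n)) (EMap D₁ D₂ n) where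
  smul g m :=
    { σ := g * m.σ * g⁻¹
      τ := g * m.τ * g⁻¹
      root := g m.root
      conn := (trans_iff _ _).2 fun p h1 h2 a b ha => by
        simpa using (trans_iff _ _).1 m.conn (fun x => p (g x)) (fun x => by simpa using h1 (g x))
          (fun x => by simpa using h2 (g x)) (g⁻¹ a) (g⁻¹ b) (by simpa using ha)
      planar := by
        rw [show g * m.σ * g⁻¹ * (g * m.τ * g⁻¹) = g * (m.σ * m.τ) * g⁻¹ by group,
          cycles_conj, cycles_conj, cycles_conj, m.planar]
      black := fun e => by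
        obtain ⟨e, rfl⟩ := g.surjective e
        rw [per_semiconj (f := m.σ) g.injective (by simp)]; exact m.black e
      white := fun e => by
        obtain ⟨e, rfl⟩ := g.surjective e
        rw [per_semiconj (f := m.τ) g.injective (by simp)]; exact m.white e }
  one_smul m := EMap.ext' (by change 1 * _ * 1⁻¹ = _; simp) (by change 1 * _ * 1⁻¹ = _; simp) rfl
  mul_smul g g' m := EMap.ext'
    (by change g * g' * _ * (g * g')⁻¹ = g * (g' * _ * g'⁻¹) * g⁻¹; group)
    (by change g * g' * _ * (g * g')⁻¹ = g * (g' * _ * g'⁻¹) * g⁻¹; group) rfl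

theorem card_emap (D₁ D₂ : Set ℕ) (n : ℕ) :
    Nat.card (EMap D₁ D₂ n) = count D₁ D₂ n * n.factorial := by
  let _ := act D₁ D₂ n
  rw [Nat.card_congr (MulAction.selfEquivOrbitsQuotientProd (G := Perm (Fin n)) fun m => ?_),
    Nat.card_prod, count, Nat.card_perm, Nat.card_fin]
  · congr 1
    refine Nat.card_congr (Quot.congrRight fun m m' => ?_)
    rw [MulAction.orbitRel_apply, MulAction.mem_orbit_symm]
    exact ⟨fun ⟨g, hg⟩ => ⟨g, hg ▸ ⟨rfl, rfl, rfl⟩⟩,
      fun ⟨g, h1, h2, h3⟩ => ⟨g, EMap.ext' h1.symm h2.symm h3.symm⟩⟩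
  · rw [Subgroup.eq_bot_iff_forall]
    intro g hg
    have h1 : g * m.σ * g⁻¹ = m.σ := congrArg EMap.σ hg
    have h2 : g * m.τ * g⁻¹ = m.τ := congrArg EMap.τ hg
    have h3 : g m.root = m.root := congrArg EMap.root hg
    have key : ∀ π : Perm (Fin n), g * π * g⁻¹ = π → ∀ x, g x = x ↔ g (π x) = π x := by
      intro π h x
      have : g (π x) = π (g x) := by simpa using Equiv.congr_fun h (g x)
      rw [this, π.injective.eq_iff]
    exact Equiv.ext fun x => (trans_iff _ _).1 m.conn (fun x => g x = x) (key _ h1) (key _ h2)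
      _ x h3

theorem count_eq (D₁ D₂ : Set ℕ) (n : ℕ) : (count D₁ D₂ n : ℚ) = ∑ m ∈ Finset.range n,
    (wt (fun c => cond c D₁ D₂) true m : ℚ) * zz (fun m => wt (fun c => cond c D₁ D₂) true m)
      (fun m => wt (fun c => cond c D₁ D₂) false m) n (m + 1) 0 := by
  classical
  set Ds : Bool → Set ℕ := fun c => cond c D₁ D₂
  let E : EMap D₁ D₂ n ≃ Fin n × {p : Perm (Fin n) × Perm (Fin n) // Good Ds p.1 p.2} :=
    { toFun := fun m => (m.root, ⟨(m.σ, m.τ), (trans_iff _ _).1 m.conn,
        by rw [Fintype.card_fin]; exact m.planar, m.black, m.white⟩)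
      invFun := fun p => ⟨p.2.1.1, p.2.1.2, p.1, (trans_iff _ _).2 p.2.2.1,
        by simpa using p.2.2.2.1, p.2.2.2.2.1, p.2.2.2.2.2⟩
      left_inv := fun _ => rfl
      right_inv := fun _ => rfl }
  have h1 := card_emap D₁ D₂ n
  rw [Nat.card_congr E, Nat.card_prod, Nat.card_eq_fintype_card, Nat.card_eq_fintype_card,
    Fintype.card_subtype, ← smul_eq_mul, ← Finset.card_univ, ← Finset.sum_const,
    Finset.sum_congr rfl fun e _ => card_good Ds e, Finset.sum_comm, Fintype.card_fin] at h1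
  have h2 : ∀ m, ∑ e : Fin n, ∑ f ∈ lists true m, wt Ds true m * cnt Ds ((e, true) :: f)
      Finset.univ = wt Ds true m * CC Ds (m + 1) 0 (Finset.univ : Finset (Fin n)) := by
    intro m
    simp only [CC, sum_lists_zero, append_nil, sum_lists_succ, Finset.mul_sum]
  simp only [h2] at h1
  have h3 := congrArg (Nat.cast : ℕ → ℚ) h1
  push_cast at h3
  simp only [CC_eq Ds n _ _ (Finset.univ : Finset (Fin n)) (by simp)] at h3
  refine mul_right_cancel₀ (Nat.cast_ne_zero.2 n.factorial_ne_zero) ?_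
  rw [← h3, Finset.sum_mul]
  exact Finset.sum_congr rfl fun m _ => by ring

end Pool.Agent.MP_098ecc_co.H85
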