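import Pool.Agent.MP_098ecc_co.H85.Side

set_option autoImplicit false

namespace Pool.Agent.MP_098ecc_co.H85

open Polynomial
open scoped PowerSeries

variable {T : Type*} [CommRing T] {q : ℕ}

theorem loop_core {U V : Type*} [CommRing U] [CommRing V] (c : T →+* U) (ia ib : U →+* V)
    (hc : ia.comp c = ib.comp c) (κ : U[X] →+* V) (hκC : κ.comp C = ib) (x : U)
    (hκX : κ X = ia x) (A B : Half T q) (za zb : U) (pa pb : U[X]) (hpa : pa.natDegree ≤ q)
    (hpb : pb.natDegree ≤ q) (fa : (X - C za) * pa = X * A.E.map c - C x * A.Y.map c)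
    (fb : (X - C zb) * pb = X * B.E.map c - C x * B.Y.map c) (M : V)
    (hM : M * (ia (rho q pa (B.E.map c)) * ib (rho q pb (A.E.map c)) * (1 - ia za * ib zb)) =
      rho q (pa.map ia) (pb.map ib) * ib (c (rho q A.E B.E)))
    (Δ J : T[X]) (hΔ : Δ.natDegree ≤ q) (hDen : hom q C Δ A.Y (X * A.E) = reflect q B.E * J)
    (D0 P0 W : U) (hD0 : κ ((reflect q Δ).map c) = ia D0)
    (hW : D0 * (reflect (q + 1) B.Y).eval₂ c za = (reflect q B.E).eval₂ c za * (P0 + D0 * W))
    (hv : IsUnit (rho q pb (A.E.map c)))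
    (hr : IsUnit (resultant (reflect q B.E) A.Y q (q + 1))) (hq : 1 ≤ q) :
    ∃ Q : U[X], Q.natDegree ≤ q * q ∧ ia ((reflect q B.E).eval₂ c za) *
      (ia D0 ^ (q - 1) * ((ia D0 - ib x * (ia P0 + ia D0 * ia W)) * M)) =
        ia ((reflect q B.E).eval₂ c za) * κ Q := by
  obtain ⟨Θ, hΘ, eΘ⟩ := loop_res c A B Δ J hΔ hDen
  set L' : U[X][X] := ((X * A.E).map c).map C - C X * (A.Y.map c).map C with hL'
  have hLκ : L'.map κ = (X - C (ia za)) * pa.map ia := by
    have := congrArg (Polynomial.map ia) fa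
    simp only [Polynomial.map_mul, Polynomial.map_sub, map_X, map_C, Polynomial.map_map,
      hc] at this
    rw [this, hL']
    simp only [Polynomial.map_mul, Polynomial.map_sub, map_X, map_C, Polynomial.map_map,
      ← RingHom.comp_assoc, hκC, hκX]
  have hPi : ∀ g : U[X], g.natDegree ≤ q →
      κ (resultant ((reflect q g).map C) L' q (q + 1)) =
        (-1) ^ q * eval (ia za) ((reflect q g).map ib) * rho q (g.map ib) (pa.map ia) := by
    intro g hg
    have hg' : ((reflect q g).map ib).natDegree ≤ q :=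
      natDegree_map_le.trans (natDegree_reflect_le.trans (max_le le_rfl hg))
    rw [← resultant_map_map, hLκ, Polynomial.map_map, hκC, add_comm q 1,
      res_mul_right _ _ _ _ _ _ hg' (natDegree_X_sub_C_le _) (natDegree_map_le.trans hpa),
      resultant_X_sub_C_right _ _ _ hg', rho, reflect_map]
  have hevia : ∀ f : T[X], eval (ia za) ((f.map c).map ib) = ia (f.eval₂ c za) := by
    intro f
    rw [Polynomial.map_map, ← hc, ← Polynomial.map_map, eval_map_apply, eval₂_eq_eval_map]
  have hB : (1 - ib zb * ia za) * eval (ia za) ((reflect q pb).map ib) =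
      ia ((reflect q B.E).eval₂ c za) - ib x * ia ((reflect (q + 1) B.Y).eval₂ c za) := by
    have := congrArg (reflect (1 + q)) fb
    rw [reflect_mul _ _ (natDegree_X_sub_C_le _) hpb, reflect_sub, reflect_sub,
      reflect_mul _ _ natDegree_X_le (natDegree_map_le.trans B.hE), reflect_C_mul, reflect_one_X,
      reflect_C, reflect_map, reflect_map, add_comm 1 q] at this
    have := congrArg (fun f => eval (ia za) (f.map ib)) this
    simp only [Polynomial.map_mul, Polynomial.map_sub, map_X, map_C, eval_mul, eval_sub, eval_C,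
      eval_X, Polynomial.map_one, eval_one, pow_one, one_mul] at this
    rw [this, hevia, hevia]
  have p1 := hPi pb hpb
  have p2 := hPi (B.E.map c) (natDegree_map_le.trans B.hE)
  have e5 : (B.E.map c).map ib = (B.E.map c).map ia := by
    rw [Polynomial.map_map, Polynomial.map_map, hc]
  rw [reflect_map, hevia, e5, rho_map ia, rho_comm] at p2
  have p3 := congrArg κ eΘ
  rw [map_mul, map_mul, map_pow, map_pow, p2, ← RingHom.comp_apply κ C, hκC, hD0] at p3
  obtain ⟨v, hv⟩ := hv
  obtain ⟨r, hr⟩ := hr.map c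
  refine ⟨C (↑v⁻¹ * (↑r⁻¹) ^ q * c (rho q A.E B.E)) *
    (resultant ((reflect q pb).map C) L' q (q + 1) * Θ), ?_, ?_⟩
  · refine (natDegree_C_mul_le _ _).trans (natDegree_mul_le.trans ?_)
    have h1 : (resultant ((reflect q pb).map C) L' q (q + 1)).natDegree ≤ q * 1 := by
      refine res_deg _ _ _ _ _ fun i => ?_
      rw [hL', coeff_sub, coeff_C_mul, coeff_map, coeff_map (C : U →+* _)]
      refine (natDegree_sub_le _ _).trans (max_le (by simp) (natDegree_mul_le.trans ?_))
      simpa using natDegree_X_le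
    obtain ⟨k, rfl⟩ := Nat.exists_eq_add_of_le hq
    simp only [Nat.add_sub_cancel_left] at hΘ
    nlinarith
  · rw [map_mul κ, map_mul κ, p1, ← RingHom.comp_apply κ C, hκC, map_mul ib, map_mul ib,
      map_pow ib, rho_comm q (pb.map ib)]
    have hv1 : ib (↑v⁻¹ : U) * ib (rho q pb (A.E.map c)) = 1 := by
      rw [← map_mul, ← hv]; simp
    have hr1 : ib (↑r⁻¹ : U) ^ q * ib (c (resultant (reflect q B.E) A.Y q (q + 1))) ^ q = 1 := by
      rw [← mul_pow, ← map_mul, ← hr]; simp
    have hW' := congrArg ia hW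
    rw [map_mul, map_mul, map_add, map_mul] at hW'
    have hq' : ia D0 ^ q = ia D0 ^ (q - 1) * ia D0 := by
      rw [← pow_succ]; congr 1; omega
    rw [hq'] at p3
    generalize ia ((reflect q B.E).eval₂ c za) = e at *
    generalize ia ((reflect (q + 1) B.Y).eval₂ c za) = y at *
    generalize ia D0 ^ (q - 1) = d' at *
    generalize ia D0 = d at *
    generalize ib (↑r⁻¹ : U) ^ q = r1 at *
    generalize ib (c (resultant (reflect q B.E) A.Y q (q + 1))) ^ q = r2 at *
    generalize ib (↑v⁻¹ : U) = v1 at *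
    generalize ib (rho q pb (A.E.map c)) = v2 at *
    generalize eval (ia za) ((reflect q pb).map ib) = pp at *
    generalize ((-1 : V)) ^ q = sg at *
    generalize ia (rho q pa (B.E.map c)) = ra at *
    generalize rho q (pa.map ia) (pb.map ib) = rab at *
    generalize ib (c (rho q A.E B.E)) = r0 at *
    generalize κ Θ = th at *
    linear_combination (v1 * pp * r1 * sg * e * th) * hM +
      (d' * M * ib x) * hW' - (d' * d * M) * hB +
      (M * (1 - ib zb * ia za) * pp * r1) * p3 -
      (d' * d * M * (1 - ib zb * ia za) * pp) * hr1 -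
      (M * (1 - ib zb * ia za) * ra * pp * r1 * sg * e * th) * hv1

variable {A B : Half T q}

theorem loop [IsDomain T] (hq : 1 ≤ q) {a : Root A} {b : Root B} {M : T⟦X⟧⟦X⟧} (hM : IsM a b M)
    (h : IsUnit (rho q A.E B.E)) (Δ P J β C' : T[X]) (cB : T) (hΔ : Δ.natDegree ≤ q)
    (hΔ0 : Δ.coeff 0 = 1) (hP : P.natDegree ≤ q)
    (hDen : hom q C Δ A.Y (X * A.E) = reflect q B.E * J)
    (hNum : hom q C P A.Y (X * A.E) = β * J + X * C' * reflect q B.E)
    (hXB : reflect (q + 1) B.Y = C cB * X * reflect q B.E + β) (hJ : IsUnit (J.coeff 0))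
    (hres : IsUnit (resultant (reflect q B.E) A.Y q (q + 1))) :
    ∃ W : T⟦X⟧, PowerSeries.constantCoeff W = 0 ∧
      PowerSeries.coeff 1 W * J.coeff 0 = A.Y.coeff 0 * (cB * J.coeff 0 - C'.coeff 0) ∧
      ∃ Q : (T⟦X⟧)[X], Q.natDegree ≤ q * q ∧
        ia (reflect q Δ).toPowerSeries ^ (q - 1) * ((ia (reflect q Δ).toPowerSeries -
          ib PowerSeries.X *
          (ia (reflect q P).toPowerSeries + ia (reflect q Δ).toPowerSeries * ia W)) * M) =
          Q.toPowerSeries := by
  let c : T →+* T⟦X⟧ := PowerSeries.C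
  let ev : T[X] →+* T⟦X⟧ := eval₂RingHom c a.z
  have hev0 : ∀ f, PowerSeries.constantCoeff (ev f) = f.coeff 0 := fun f => by
    simp only [ev, coe_eval₂RingHom, a.hz]; exact const_ev _ _
  have hevX : ev X = a.z := by simp [ev]
  have hevC : ev.comp C = c := by refine RingHom.ext fun x => ?_; simp [ev]
  have hroot : ev (X * A.E) = PowerSeries.X * ev A.Y := by
    have := congrArg (eval a.z) a.fac
    simp only [eval_mul, eval_sub, eval_X, eval_C, sub_self, zero_mul,
      ← eval₂_eq_eval_map] at this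
    simp only [ev, coe_eval₂RingHom, eval₂_mul, eval₂_X]
    linear_combination -this
  have hcoe : ∀ f : T[X], f.natDegree ≤ q →
      hom q c f (ev A.Y) (PowerSeries.X * ev A.Y) = ev A.Y ^ q * (reflect q f).toPowerSeries := by
    intro f hf
    have h1 := hom_mul q c f 1 PowerSeries.X (ev A.Y)
    rw [one_mul] at h1
    have h2 := map_hom (coeToPowerSeries.ringHom (R := T)) q C f 1 X
    have e3 : (coeToPowerSeries.ringHom (R := T)).comp C = c := by
      refine RingHom.ext fun x => ?_
      simp [c]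
    rw [e3, hom_reflect q f hf] at h2
    simp only [coeToPowerSeries.ringHom_apply, coe_one, coe_X] at h2
    rw [h1, h2]
  have d1 := congrArg ev hDen
  have d2 := congrArg ev hNum
  rw [map_hom, hevC, hroot, hcoe _ hΔ, map_mul] at d1
  rw [map_hom, hevC, hroot, hcoe _ hP, map_add, map_mul, map_mul, map_mul, hevX] at d2
  have d3 := congrArg ev hXB
  rw [map_add, map_mul, map_mul, hevX, ← RingHom.comp_apply ev C, hevC] at d3
  obtain ⟨j, hj⟩ : IsUnit (ev J) := by rwa [PowerSeries.isUnit_iff_constantCoeff, hev0]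
  have hYu : IsUnit (ev A.Y) := by rw [PowerSeries.isUnit_iff_constantCoeff, hev0]; exact A.hc
  set D0 : T⟦X⟧ := (reflect q Δ).toPowerSeries with hD0
  set P0 : T⟦X⟧ := (reflect q P).toPowerSeries with hP0
  have hD : D0 ≠ 0 := by
    intro h0
    have := congrArg (PowerSeries.coeff q) h0
    simp [hD0, coeff_reflect, hΔ0] at this
  have hEB : ev (reflect q B.E) ≠ 0 := by
    intro h0
    rw [h0, zero_mul] at d1
    exact mul_ne_zero (pow_ne_zero _ hYu.ne_zero) hD d1
  let W : T⟦X⟧ := c cB * a.z - a.z * ev C' * ↑j⁻¹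
  have hWj : W * ev J = c cB * a.z * ev J - a.z * ev C' := by
    simp only [W]; rw [sub_mul, ← hj, Units.inv_mul_cancel_right]
  have hW : D0 * ev (reflect (q + 1) B.Y) = ev (reflect q B.E) * (P0 + D0 * W) := by
    refine (hj ▸ j.isUnit : IsUnit (ev J)).mul_right_cancel ?_
    rw [d3]
    linear_combination (-ev (reflect q B.E) * D0) * hWj - D0 * d2 + P0 * d1
  refine ⟨W, ?_, ?_, ?_⟩
  · simp [W, a.hz]
  · have := congrArg (PowerSeries.coeff 1) hWj
    have h0 : PowerSeries.constantCoeff W = 0 := by simp [W, a.hz]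
    rw [show c cB * a.z * ev J - a.z * ev C' =
      PowerSeries.X * (a.z' * (c cB * ev J - ev C')) by rw [a.hz]; ring,
      PowerSeries.coeff_succ_X_mul, PowerSeries.coeff_one_mul] at this
    simpa [h0, hev0, a.hz', c] using this
  let κ : (T⟦X⟧)[X] →+* T⟦X⟧⟦X⟧ := coeToPowerSeries.ringHom
  have hκC : κ.comp C = ib := by refine RingHom.ext fun x => ?_; simp [κ, ib]
  have hκX : κ X = ia PowerSeries.X := by simp [κ, ia]
  have hκD : κ ((reflect q Δ).map c) = ia D0 := by
    ext i : 1
    simp [κ, ia, hD0, c]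
  have hia : Function.Injective (ia (T := T)) :=
    PowerSeries.map_injective _ PowerSeries.C_injective
  obtain ⟨Q, hQ, eQ⟩ := loop_core c ia ib ia_C κ hκC PowerSeries.X hκX A B a.z b.z a.p b.p
    a.hp b.hp a.fac b.fac M hM Δ J hΔ hDen D0 P0 W hκD hW
    (rho_unit b (rho_comm q A.E B.E ▸ h)) hres hq
  exact ⟨Q, hQ, mul_left_cancel₀ ((map_ne_zero_iff _ hia).2 hEB) eQ⟩

end Pool.Agent.MP_098ecc_co.H85
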