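import Pool.Agent.MP_098ecc_co.H85.Cyc

set_option autoImplicit false

namespace Pool.Agent.MP_098ecc_co.H85

open Equiv Function List

section Del
variable {β : Type*} [DecidableEq β]

/-- remove a point from its cycle -/
def del (a : β) (π : Perm β) : Perm β := swap a (π a) * π

omit [DecidableEq β] in
theorem fix_iff {ψ : Perm β} {y : β} (h : ψ y = y) (x : β) : ψ x = y ↔ x = y := by
  rw [← ψ.injective.eq_iff (a := x), h]

theorem del_self (a : β) (π : Perm β) : del a π a = a := by simp [del]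

theorem del_fix {a b : β} {π : Perm β} (h : π b = b) : del a π b = b := by
  by_cases hab : b = a
  · rw [hab, del_self]
  · simp only [del, Perm.mul_apply, h]
    exact swap_apply_of_ne_of_ne hab fun h1 => hab (π.injective (h.trans h1))

theorem del_inv {a : β} {π : Perm β} {s : Finset β} (hs : ∀ x ∈ s, π x ∈ s) (ha : a ∈ s) :
    ∀ x ∈ s.erase a, del a π x ∈ s.erase a := by
  intro x hx
  obtain ⟨h1, h2⟩ := Finset.mem_erase.1 hx
  refine Finset.mem_erase.2 ⟨fun h => h1 ((del a π).injective (h.trans (del_self a π).symm)), ?_⟩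
  simp only [del, Perm.mul_apply, swap_apply_def]
  split_ifs
  exacts [hs a ha, ha, hs x h2]

theorem del_mul_left {a : β} {ε : Perm β} (h : ε a = a) (π : Perm β) :
    del a (ε * π) = ε * del a π := by
  rw [del, del, ← mul_assoc, ← mul_assoc, mul_swap_eq_swap_mul, h, Perm.mul_apply]

theorem del_mul_right {a : β} {ρ : Perm β} (h : ρ a = a) (π : Perm β) :
    del a (π * ρ) = del a π * ρ := by
  rw [del, del, Perm.mul_apply, h, mul_assoc]

theorem del_cons {a : β} {f : List β} (h : (a :: f).Nodup) :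
    del a (a :: f).formPerm = f.formPerm := del_formPerm h

theorem cons_fix {a : β} {f : List β} (h : (a :: f).Nodup) :
    (a :: f).formPerm a = a ↔ f = [] := by
  rw [formPerm_apply_mem_eq_self_iff _ h _ mem_cons_self]; simp

theorem formPerm_comm {u v : List β} (h : u.Disjoint v) :
    u.formPerm * v.formPerm = v.formPerm * u.formPerm := by
  refine Perm.Disjoint.commute fun x => ?_
  by_cases hx : x ∈ u
  · exact Or.inr (formPerm_apply_of_notMem fun h' => h hx h')
  · exact Or.inl (formPerm_apply_of_notMem hx)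

end Del

variable {α : Type*} [DecidableEq α] [Fintype α]

/-- the other side of an edge -/
def fl : Perm (α × Bool) := (Equiv.refl α).prodCongr Equiv.boolNot

omit [DecidableEq α] [Fintype α] in
@[simp] theorem fl_apply (x : α × Bool) : fl x = (x.1, !x.2) := rfl

omit [DecidableEq α] [Fintype α] in
theorem fl_ne (x : α × Bool) : fl x ≠ x := by
  rcases x with ⟨e, _ | _⟩ <;> simp

omit [DecidableEq α] [Fintype α] in
theorem fl_fl (x : α × Bool) : fl (fl x) = x := by simp

omit [DecidableEq α] [Fintype α] in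
theorem fst_eq {x y : α × Bool} : x.1 = y.1 ↔ x = y ∨ x = fl y := by
  rcases x with ⟨e, _ | _⟩ <;> rcases y with ⟨e', _ | _⟩ <;> simp

/-- edge sides over a set of edges -/
def D (S : Finset α) : Finset (α × Bool) := S ×ˢ Finset.univ

omit [DecidableEq α] [Fintype α] in
@[simp] theorem mem_D {S : Finset α} {x : α × Bool} : x ∈ D S ↔ x.1 ∈ S := by simp [D]

theorem vert_del {S : Finset α} {φ : Perm (α × Bool)} (hφ : ∀ x, x.1 ∈ S → (φ x).1 ∈ S)
    {a : α × Bool} (ha : a.1 ∈ S) :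
    cyc (fl * φ) (D S) = cyc (fl * del (fl a) (del a (swap a (fl a) * φ))) (D (S.erase a.1)) +
      (if (swap a (fl a) * φ) a = a then 1 else 0) +
      if del a (swap a (fl a) * φ) (fl a) = fl a then 1 else 0 := by
  set φ1 := swap a (fl a) * φ with h1
  let ε : Perm (α × Bool) := fl * swap a (fl a)
  have hεa : ε a = a := by simp [ε]
  have hεb : ε (fl a) = fl a := by simp only [ε, Perm.mul_apply, swap_apply_right]
  have e : fl * φ = ε * φ1 := by simp only [ε, h1, mul_assoc, swap_mul_self_mul]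
  have i1 : ∀ x ∈ D S, (ε * φ1) x ∈ D S := by
    intro x hx; rw [← e]; simpa using hφ x (mem_D.1 hx)
  have a1 : a ∈ D S := mem_D.2 ha
  have i2 := del_inv i1 a1
  have a2 : fl a ∈ (D S).erase a := Finset.mem_erase.2 ⟨fl_ne a, by simpa using ha⟩
  have i3 := del_inv i2 a2
  have e2 : ((D S).erase a).erase (fl a) = D (S.erase a.1) := by
    ext x
    simp only [Finset.mem_erase, mem_D, ne_eq, fst_eq]
    tauto
  have hiff : ∀ (π : Perm (α × Bool)) x, ε x = x → ((ε * π) x = x ↔ π x = x) := by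
    intro π x hx
    rw [Perm.mul_apply]
    conv_lhs => rw [← hx]
    rw [hx, ← ε.injective.eq_iff (a := π x), hx]
  rw [e, cyc_del _ i1 a1, ← del, cyc_del _ i2 a2, ← del, e2]
  rw [e2] at i3
  simp only [del_mul_left hεa, del_mul_left hεb, hiff _ _ hεa, hiff _ _ hεb] at i3 ⊢
  rw [cyc_congr i3 (π' := fl * del (fl a) (del a φ1))]
  · ring
  · intro x hx
    have hx' : ¬ (x = a ∨ x = fl a) := by
      rw [← fst_eq]; exact (Finset.mem_erase.1 (mem_D.1 hx)).1
    simp only [ε, Perm.mul_apply, EmbeddingLike.apply_eq_iff_eq]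
    refine swap_apply_of_ne_of_ne (fun h => hx' (Or.inl ?_)) fun h => hx' (Or.inr ?_)
    · exact (del (fl a) (del a φ1)).injective (h.trans (del_fix (del_self _ _)).symm)
    · exact (del (fl a) (del a φ1)).injective (h.trans (del_self _ _).symm)

/-- boundary `L`, inner faces `ψ`, edge set `S` -/
structure Pre (L : List (α × Bool)) (ψ : Perm (α × Bool)) (S : Finset α) : Prop where
  nd : L.Nodup
  sub : ∀ x ∈ L, x.1 ∈ S
  fix : ∀ x ∈ L, ψ x = x
  inv : ∀ x, (ψ x).1 ∈ S ↔ x.1 ∈ S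

/-- every edge is connected to the boundary -/
def Conn (L : List (α × Bool)) (ψ : Perm (α × Bool)) (S : Finset α) : Prop :=
  ∀ p : α → Prop, (∀ x ∈ L, p x.1) → (∀ x, x.1 ∈ S → (p x.1 ↔ p (ψ x).1)) → ∀ e ∈ S, p e

/-- Euler characteristic minus two -/
noncomputable def chi (L : List (α × Bool)) (ψ : Perm (α × Bool)) (S : Finset α) : ℚ :=
  cyc ψ (D S \ L.toFinset) + cyc (fl * (L.formPerm * ψ)) (D S) + (if L = [] then 1 else 0) -
    S.card - 1

omit [Fintype α] in
theorem formPerm_inv {l : List (α × Bool)} {S : Finset α} (h : ∀ x ∈ l, x.1 ∈ S) (x : α × Bool) :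
    (l.formPerm x).1 ∈ S ↔ x.1 ∈ S := by
  by_cases hx : x ∈ l
  · simp [h x hx, h _ (formPerm_apply_mem_of_mem hx)]
  · rw [formPerm_apply_of_notMem hx]

omit [Fintype α] in
theorem Pre.phi_inv {L : List (α × Bool)} {ψ : Perm (α × Bool)} {S : Finset α} (h : Pre L ψ S)
    (x : α × Bool) : ((L.formPerm * ψ) x).1 ∈ S ↔ x.1 ∈ S := by
  rw [Perm.mul_apply, formPerm_inv h.sub, h.inv]

omit [Fintype α] in
theorem Pre.inner_inv {L : List (α × Bool)} {ψ : Perm (α × Bool)} {S : Finset α}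
    (h : Pre L ψ S) : ∀ x ∈ D S \ L.toFinset, ψ x ∈ D S \ L.toFinset := by
  intro x hx
  simp only [Finset.mem_sdiff, mem_D, mem_toFinset] at hx ⊢
  exact ⟨(h.inv x).2 hx.1, (mul_apply_notMem h.fix hx.2).1⟩

section Merge
variable {u w f : List (α × Bool)} {b : α × Bool} {ψ : Perm (α × Bool)} {S : Finset α}

omit [Fintype α] in
theorem Pre.notMem {L : List (α × Bool)} (h : Pre L ψ (S.erase b.1)) : b ∉ L ∧ fl b ∉ L :=
  ⟨fun h1 => by simpa using h.sub _ h1, fun h1 => by simpa using h.sub _ h1⟩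

omit [Fintype α] in
theorem merge_pre (h : Pre (u ++ f ++ w) ψ (S.erase b.1)) (hS : b.1 ∈ S) (hb : ψ b = b)
    (ha : ψ (fl b) = fl b) : Pre (u ++ b :: w) ((fl b :: f).formPerm * ψ) S ∧
      fl b ∉ u ++ b :: w ∧ (fl b :: f).Nodup ∧ (∀ x ∈ fl b :: f, ψ x = x) ∧
      (fl b :: f).Disjoint (u ++ b :: w) := by
  have h1 := h.notMem
  have h2 := h.nd
  have h3 := fl_ne b
  have hf : ∀ x ∈ fl b :: f, ψ x = x := by
    intro x hx
    rcases mem_cons.1 hx with rfl | hx
    exacts [ha, h.fix x (by simp [hx])]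
  have hd : (fl b :: f).Disjoint (u ++ b :: w) := by
    intro x hx hx'
    simp only [nodup_append, mem_append, mem_cons] at *
    grind
  refine ⟨⟨?_, ?_, ?_, ?_⟩, fun h => hd mem_cons_self h, ?_, hf, hd⟩
  · simp only [nodup_append, mem_append, mem_cons, nodup_cons] at *
    grind
  · intro x hx
    rcases mem_append.1 hx with hx | hx
    · exact Finset.mem_of_mem_erase (h.sub x (by simp [hx]))
    · rcases mem_cons.1 hx with rfl | hx
      exacts [hS, Finset.mem_of_mem_erase (h.sub x (by simp [hx]))]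
  · intro x hx
    rw [(mul_apply_notMem hf fun h => hd h hx).2]
    rcases mem_append.1 hx with hx | hx
    · exact h.fix x (by simp [hx])
    · rcases mem_cons.1 hx with rfl | hx
      exacts [hb, h.fix x (by simp [hx])]
  · intro x
    rw [Perm.mul_apply, formPerm_inv]
    · by_cases hx : x.1 = b.1
      · rcases fst_eq.1 hx with rfl | rfl
        · rw [hb]
        · rw [ha]
      · have h4 := h.inv x
        have h5 : (ψ x).1 ≠ b.1 := by
          intro h5
          rcases fst_eq.1 h5 with h6 | h6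
          · exact hx (by rw [ψ.injective (h6.trans hb.symm)])
          · exact hx (by rw [ψ.injective (h6.trans ha.symm)]; rfl)
        simpa [hx, h5] using h4
    · intro y hy
      rcases mem_cons.1 hy with rfl | hy
      exacts [hS, Finset.mem_of_mem_erase (h.sub y (by simp [hy]))]
  · simp only [nodup_append, mem_append, mem_cons, nodup_cons] at *
    grind

omit [Fintype α] in
theorem merge_conn (h : Pre (u ++ f ++ w) ψ (S.erase b.1)) (hS : b.1 ∈ S) (hb : ψ b = b)
    (ha : ψ (fl b) = fl b) : Conn (u ++ b :: w) ((fl b :: f).formPerm * ψ) S ↔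
      Conn (u ++ f ++ w) ψ (S.erase b.1) := by
  obtain ⟨h1, h2, h3, h4, h5⟩ := merge_pre h hS hb ha
  constructor
  · intro hc p hp1 hp2 e he
    have hf : ∀ x ∈ fl b :: f, p x.1 ∨ x.1 = b.1 := by
      intro x hx
      rcases mem_cons.1 hx with rfl | hx
      exacts [Or.inr rfl, Or.inl (hp1 x (by simp [hx]))]
    have := hc (fun e => p e ∨ e = b.1) (by
      intro x hx
      rcases mem_append.1 hx with hx | hx
      · exact Or.inl (hp1 x (by simp [hx]))
      · rcases mem_cons.1 hx with rfl | hx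
        exacts [Or.inr rfl, Or.inl (hp1 x (by simp [hx]))]) (by
      intro x hx
      by_cases hx' : x ∈ fl b :: f
      · exact iff_of_true (hf x hx') (hf _ (((isCyc_mul h3 h4).mem_iff x).2 hx'))
      · rw [(mul_apply_notMem h4 hx').2]
        by_cases hxb : x.1 = b.1
        · rcases fst_eq.1 hxb with rfl | rfl
          · rw [hb]
          · rw [ha]
        · have h6 : x.1 ∈ S.erase b.1 := Finset.mem_erase.2 ⟨hxb, hx⟩
          have h7 := (Finset.mem_erase.1 ((h.inv x).2 h6)).1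
          simp only [hxb, h7, or_false]
          exact hp2 x h6) e (Finset.mem_of_mem_erase he)
    exact this.resolve_right (Finset.mem_erase.1 he).1
  · intro hc p hp1 hp2 e he
    have hpb : p b.1 := hp1 b (by simp)
    have hf := (isCyc_mul h3 h4).reach (fun x => x.1 ∈ S ∧ p x.1)
      (fun x hx => ⟨(h1.inv x).2 hx.1, (hp2 x hx.1).1 hx.2⟩) ⟨hS, hpb⟩
    by_cases he' : e = b.1
    · rwa [he']
    refine hc p (fun x hx => ?_) (fun x hx => ?_) e (Finset.mem_erase.2 ⟨he', he⟩)
    · simp only [mem_append] at hx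
      rcases hx with (hx | hx) | hx
      exacts [hp1 x (by simp [hx]), (hf x (by simp [hx])).2, hp1 x (by simp [hx])]
    · by_cases hx' : x ∈ fl b :: f
      · rw [h4 x hx']
      · rw [← (mul_apply_notMem h4 hx').2]
        exact hp2 x (Finset.mem_of_mem_erase hx)

theorem merge_chi (h : Pre (u ++ f ++ w) ψ (S.erase b.1)) (hS : b.1 ∈ S) (hb : ψ b = b)
    (ha : ψ (fl b) = fl b) : chi (u ++ b :: w) ((fl b :: f).formPerm * ψ) S =
      chi (u ++ f ++ w) ψ (S.erase b.1) := by
  obtain ⟨h1, h2, h3, h4, h5⟩ := merge_pre h hS hb ha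
  have hn := h.notMem
  have hnd := h.nd
  have hfl := fl_ne b
  have n1 : (b :: (w ++ u) ++ fl b :: f).Nodup := by
    simp only [nodup_append, mem_append, mem_cons, nodup_cons, cons_append] at *
    grind
  have n2 : (b :: (w ++ u) ++ [fl b]).Nodup :=
    n1.sublist (Sublist.append_left (by simp) _)
  have n1' : (b :: (w ++ u ++ fl b :: f)).Nodup := n1
  have n3 : ((w ++ u) ++ fl b :: f).Nodup := (nodup_cons.1 n1).2
  have r1 : (u ++ b :: w).formPerm = (b :: (w ++ u)).formPerm :=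
    formPerm_eq_of_isRotated h1.nd isRotated_append
  have r2 : ((w ++ u) ++ fl b :: f).formPerm = (fl b :: (f ++ (w ++ u))).formPerm :=
    formPerm_eq_of_isRotated n3 isRotated_append
  have n4 : (fl b :: (f ++ (w ++ u))).Nodup := (isRotated_append (l := w ++ u)).perm.nodup_iff.1 n3
  have r3 : (u ++ f ++ w).formPerm = (f ++ (w ++ u)).formPerm := by
    rw [append_assoc, ← append_assoc f]
    exact formPerm_eq_of_isRotated (append_assoc u f w ▸ hnd) isRotated_append
  have e1 : swap b (fl b) * ((u ++ b :: w).formPerm * ((fl b :: f).formPerm * ψ)) =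
      (b :: (w ++ u) ++ fl b :: f).formPerm * ψ := by
    rw [r1, ← mul_assoc _ _ ψ, ← swap_mul_formPerm n2, mul_assoc, swap_mul_self_mul]
  have e2 : del b ((b :: (w ++ u) ++ fl b :: f).formPerm * ψ) =
      (fl b :: (f ++ (w ++ u))).formPerm * ψ := by
    rw [del_mul_right hb, cons_append, del_cons n1', r2]
  have hv := vert_del (fun x hx => (h1.phi_inv x).2 hx) hS
  rw [e1, e2, del_mul_right ha, del_cons n4, ← r3, Perm.mul_apply, Perm.mul_apply, hb, ha,
    cons_append] at hv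
  simp only [cons_fix n1', cons_fix n4] at hv
  have hsub : (fl b :: f).toFinset ⊆ D S \ (u ++ b :: w).toFinset := by
    intro x hx
    have hx' := mem_toFinset.1 hx
    simp only [Finset.mem_sdiff, mem_D, mem_toFinset]
    refine ⟨?_, fun h => h5 hx' h⟩
    rcases mem_cons.1 hx' with rfl | hx'
    exacts [hS, Finset.mem_of_mem_erase (h.sub x (by simp [hx']))]
  have e3 : (D S \ (u ++ b :: w).toFinset) \ (fl b :: f).toFinset =
      D (S.erase b.1) \ (u ++ f ++ w).toFinset := by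
    ext x
    simp only [Finset.mem_sdiff, mem_D, mem_toFinset, mem_append, mem_cons, Finset.mem_erase,
      ne_eq, fst_eq]
    tauto
  have e4 : cyc ((fl b :: f).formPerm * ψ) (D S \ (u ++ b :: w).toFinset) =
      cyc ψ (D (S.erase b.1) \ (u ++ f ++ w).toFinset) + 1 := by
    have := (isCyc_mul h3 h4).cyc
    rw [if_neg (by simp)] at this
    rw [cyc, ← Finset.sum_sdiff hsub, ← this, e3, cyc_congr h.inner_inv
      (π' := (fl b :: f).formPerm * ψ)]
    · rfl
    · intro x hx
      rw [← e3, Finset.mem_sdiff, mem_toFinset] at hx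
      exact (mul_apply_notMem h4 hx.2).2.symm
  have e5 : f ++ (w ++ u) = [] ↔ u ++ f ++ w = [] := by simp; tauto
  rw [chi, chi, hv, e4, ← Finset.card_erase_add_one hS]
  simp only [e5, append_eq_nil_iff, reduceCtorEq, and_false, if_false]
  push_cast
  ring

theorem exists_merge (h : Pre (u ++ b :: w) ψ S) (ha : fl b ∉ u ++ b :: w) :
    ∃ f ψ', Pre (u ++ f ++ w) ψ' (S.erase b.1) ∧ ψ' b = b ∧ ψ' (fl b) = fl b ∧
      ψ = (fl b :: f).formPerm * ψ' := by
  obtain ⟨f, hf⟩ := exists_cyc ψ (fl b)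
  obtain ⟨ψ', h1, h2⟩ := hf.decomp
  have hS : b.1 ∈ S := h.sub b (by simp)
  have h3 := hf.reach (fun x => x.1 ∈ S ∧ x ∉ u ++ b :: w)
    (fun x hx => ⟨(h.inv x).2 hx.1, (mul_apply_notMem h.fix hx.2).1⟩) ⟨hS, ha⟩
  have h4 : ∀ x ∈ u ++ b :: w, ψ' x = x := by
    intro x hx
    rw [← (mul_apply_notMem h1 fun h => (h3 x h).2 hx).2, ← h2, h.fix x hx]
  have hb := h4 b (by simp)
  have ha' := h1 (fl b) mem_cons_self
  have hnd := h.nd
  have hnd' := hf.1
  refine ⟨f, ψ', ⟨?_, ?_, ?_, ?_⟩, hb, ha', h2⟩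
  · simp only [nodup_append, mem_append, mem_cons, nodup_cons] at *
    grind
  · intro x hx
    have hs := h.sub
    rw [Finset.mem_erase, ne_eq, fst_eq]
    simp only [nodup_append, mem_append, mem_cons, nodup_cons] at *
    grind
  · intro x hx
    simp only [mem_append] at hx
    rcases hx with (hx | hx) | hx
    exacts [h4 x (by simp [hx]), h1 x (by simp [hx]), h4 x (by simp [hx])]
  · intro x
    have h5 : (ψ' x).1 ∈ S ↔ x.1 ∈ S := by
      rw [← h.inv x, h2, Perm.mul_apply, formPerm_inv fun y hy => (h3 y hy).1]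
    have h6 : (ψ' x).1 = b.1 ↔ x.1 = b.1 := by
      rw [fst_eq, fst_eq, fix_iff hb, fix_iff ha']
    simp [h5, h6]

end Merge

section Split
variable {u v w : List (α × Bool)} {a : α × Bool} {ψ : Perm (α × Bool)} {S S₁ S₂ : Finset α}

omit [Fintype α] in
theorem Pre.erase (h : Pre (u ++ a :: v ++ fl a :: w) ψ S) (x : α × Bool) :
    (ψ x).1 ∈ S.erase a.1 ↔ x.1 ∈ S.erase a.1 := by
  rw [Finset.mem_erase, Finset.mem_erase, h.inv, ne_eq, ne_eq, fst_eq, fst_eq,
    fix_iff (h.fix a (by simp)), fix_iff (h.fix (fl a) (by simp))]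

omit [Fintype α] in
theorem Pre.sub_erase (h : Pre (u ++ a :: v ++ fl a :: w) ψ S) :
    ∀ x, x ∈ v ∨ x ∈ u ++ w → x.1 ∈ S.erase a.1 := by
  intro x hx
  have hs := h.sub
  have hnd := h.nd
  rw [Finset.mem_erase, ne_eq, fst_eq]
  simp only [nodup_append, mem_append, mem_cons, nodup_cons] at *
  grind

omit [DecidableEq α] [Fintype α] in
theorem Pre.nd_parts (h : Pre (u ++ a :: v ++ fl a :: w) ψ S) :
    v.Nodup ∧ (u ++ w).Nodup ∧ v.Disjoint (u ++ w) := by
  have hnd := h.nd
  refine ⟨?_, ?_, fun x h1 h2 => ?_⟩ <;>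
  simp only [nodup_append, mem_append, mem_cons, nodup_cons] at * <;> grind

theorem chi_cut (h : Pre (u ++ a :: v ++ fl a :: w) ψ S) :
    chi (u ++ a :: v ++ fl a :: w) ψ S =
      cyc ψ ((D (S.erase a.1) \ v.toFinset) \ (u ++ w).toFinset) +
      cyc (fl * (v.formPerm * ((u ++ w).formPerm * ψ))) (D (S.erase a.1)) +
      (if v = [] then 1 else 0) + (if u ++ w = [] then 1 else 0) - (S.erase a.1).card - 2 := by
  have hS : a.1 ∈ S := h.sub a (by simp)
  have ha := h.fix a (by simp)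
  have hb := h.fix (fl a) (by simp)
  have hnd := h.nd
  have n1 : (a :: v ++ [fl a]).Nodup := hnd.sublist (by
    rw [append_assoc]
    exact (Sublist.append_left (by simp) _).trans (sublist_append_right _ _))
  have n2 : (a :: v).Nodup := n1.sublist (sublist_append_left _ _)
  have n3 : (fl a :: (w ++ u)).Nodup := by
    simp only [nodup_append, mem_append, mem_cons, nodup_cons] at *
    grind
  have n4 : (fl a :: (w ++ u)).Disjoint v ∧ a ∉ fl a :: (w ++ u) := by
    refine ⟨fun x h1 h2 => ?_, ?_⟩ <;>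
    simp only [nodup_append, mem_append, mem_cons, nodup_cons] at * <;> grind
  have r1 : (u ++ a :: v ++ fl a :: w).formPerm = (a :: v ++ fl a :: (w ++ u)).formPerm := by
    rw [append_assoc] at hnd ⊢
    rw [formPerm_eq_of_isRotated hnd isRotated_append]
    simp
  have r2 : (w ++ u).formPerm = (u ++ w).formPerm :=
    formPerm_eq_of_isRotated (nodup_cons.1 n3).2 isRotated_append
  have e1 : swap a (fl a) * ((u ++ a :: v ++ fl a :: w).formPerm * ψ) =
      (a :: v).formPerm * ((fl a :: (w ++ u)).formPerm * ψ) := by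
    rw [r1, ← mul_assoc, swap_mul_formPerm n1, mul_assoc]
  have f1 : ((fl a :: (w ++ u)).formPerm * ψ) a = a := by
    rw [Perm.mul_apply, ha, formPerm_apply_of_notMem n4.2]
  have f2 : (v.formPerm * ψ) (fl a) = fl a := by
    rw [Perm.mul_apply, hb, formPerm_apply_of_notMem fun h => n4.1 mem_cons_self h]
  have e2 : del a ((a :: v).formPerm * ((fl a :: (w ++ u)).formPerm * ψ)) =
      (fl a :: (w ++ u)).formPerm * (v.formPerm * ψ) := by
    rw [del_mul_right f1, del_cons n2, ← mul_assoc, ← formPerm_comm n4.1, mul_assoc]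
  have hv := vert_del (fun x hx => (h.phi_inv x).2 hx) hS
  rw [e1, e2, del_mul_right f2, del_cons n3, r2, Perm.mul_apply, f1, Perm.mul_apply, f2,
    ← mul_assoc _ v.formPerm ψ, ← formPerm_comm h.nd_parts.2.2, mul_assoc v.formPerm] at hv
  simp only [cons_fix n2, cons_fix n3] at hv
  have e3 : D S \ (u ++ a :: v ++ fl a :: w).toFinset =
      (D (S.erase a.1) \ v.toFinset) \ (u ++ w).toFinset := by
    ext x
    simp only [Finset.mem_sdiff, mem_D, mem_toFinset, mem_append, mem_cons, Finset.mem_erase,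
      ne_eq, fst_eq]
    tauto
  have e5 : w ++ u = [] ↔ u ++ w = [] := by simp; tauto
  have e6 : u ++ a :: v ++ fl a :: w ≠ [] := by simp
  rw [chi, hv, e3, ← Finset.card_erase_add_one hS, if_neg e6]
  simp only [e5]
  push_cast
  ring

omit [Fintype α] in
theorem split_pre (h₁ : Pre v ψ S₁) (h₂ : Pre (u ++ w) ψ S₂) (hd : Disjoint S₁ S₂)
    (hS : S₁ ∪ S₂ = S.erase a.1) (haS : a.1 ∈ S) (ha : ψ a = a) (hb : ψ (fl a) = fl a) :
    Pre (u ++ a :: v ++ fl a :: w) ψ S := by
  have hm : ∀ e, (e ∈ S₁ ∨ e ∈ S₂) ↔ e ≠ a.1 ∧ e ∈ S := fun e => by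
    rw [← Finset.mem_union, hS, Finset.mem_erase]
  have s1 := h₁.sub
  have s2 := h₂.sub
  have hd' := Finset.disjoint_left.1 hd
  refine ⟨?_, ?_, ?_, fun x => ?_⟩
  · have n1 := h₁.nd
    have n2 := h₂.nd
    have n3 := fl_ne a
    have n4 : (fl a).1 = a.1 := rfl
    simp only [nodup_append, mem_append, mem_cons, nodup_cons] at *
    grind
  · have n4 : (fl a).1 = a.1 := rfl
    simp only [mem_append, mem_cons] at *
    grind
  · have f1 := h₁.fix
    have f2 := h₂.fix
    simp only [mem_append, mem_cons] at *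
    grind
  · have i1 := h₁.inv x
    have i2 := h₂.inv x
    have : (ψ x).1 = a.1 ↔ x.1 = a.1 := by rw [fst_eq, fst_eq, fix_iff ha, fix_iff hb]
    grind

omit [Fintype α] in
theorem split_conn (h₁ : Conn v ψ S₁) (h₂ : Conn (u ++ w) ψ S₂)
    (hS : S₁ ∪ S₂ = S.erase a.1) : Conn (u ++ a :: v ++ fl a :: w) ψ S := by
  have hm : ∀ e, (e ∈ S₁ ∨ e ∈ S₂) ↔ e ≠ a.1 ∧ e ∈ S := fun e => by
    rw [← Finset.mem_union, hS, Finset.mem_erase]
  intro p hp1 hp2 e he
  by_cases hea : e = a.1
  · exact hea ▸ hp1 a (by simp)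
  rcases (hm e).2 ⟨hea, he⟩ with h | h
  · exact h₁ p (fun x hx => hp1 x (by simp [hx]))
      (fun x hx => hp2 x ((hm _).1 (Or.inl hx)).2) e h
  · exact h₂ p (fun x hx => hp1 x (by simp at hx ⊢; tauto))
      (fun x hx => hp2 x ((hm _).1 (Or.inr hx)).2) e h

theorem split_chi (h₁ : Pre v ψ S₁) (h₂ : Pre (u ++ w) ψ S₂) (hd : Disjoint S₁ S₂)
    (hS : S₁ ∪ S₂ = S.erase a.1) (haS : a.1 ∈ S) (ha : ψ a = a) (hb : ψ (fl a) = fl a) :
    chi (u ++ a :: v ++ fl a :: w) ψ S = chi v ψ S₁ + chi (u ++ w) ψ S₂ := by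
  have hd' := Finset.disjoint_left.1 hd
  have s1 := h₁.sub
  have s2 := h₂.sub
  have e1 : (D (S₁ ∪ S₂) \ v.toFinset) \ (u ++ w).toFinset =
      (D S₁ \ v.toFinset) ∪ (D S₂ \ (u ++ w).toFinset) := by
    ext x
    simp only [Finset.mem_sdiff, mem_D, mem_toFinset, Finset.mem_union]
    grind
  have e2 : D (S₁ ∪ S₂) = D S₁ ∪ D S₂ := by ext x; simp
  have d1 : Disjoint (D S₁) (D S₂) := Finset.disjoint_left.2 fun x h1 h2 =>
    hd' (mem_D.1 h1) (mem_D.1 h2)
  have c1 : cyc (fl * (v.formPerm * ψ)) (D S₁) =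
      cyc (fl * (v.formPerm * ((u ++ w).formPerm * ψ))) (D S₁) := by
    refine cyc_congr (fun x hx => by simpa using (h₁.phi_inv x).2 (mem_D.1 hx)) fun x hx => ?_
    have : ψ x ∉ u ++ w := fun h => hd' ((h₁.inv x).2 (mem_D.1 hx)) (s2 _ h)
    simp only [Perm.mul_apply, formPerm_apply_of_notMem this]
  have c2 : cyc (fl * ((u ++ w).formPerm * ψ)) (D S₂) =
      cyc (fl * (v.formPerm * ((u ++ w).formPerm * ψ))) (D S₂) := by
    refine cyc_congr (fun x hx => by simpa using (h₂.phi_inv x).2 (mem_D.1 hx)) fun x hx => ?_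
    have : ((u ++ w).formPerm * ψ) x ∉ v := fun h => hd' (s1 _ h) ((h₂.phi_inv x).2 (mem_D.1 hx))
    rw [Perm.mul_apply, Perm.mul_apply fl, Perm.mul_apply v.formPerm,
      formPerm_apply_of_notMem this]
  rw [chi_cut (split_pre h₁ h₂ hd hS haS ha hb), ← hS, e1, e2, chi, chi, c1, c2,
    Finset.card_union_of_disjoint hd]
  unfold cyc
  rw [Finset.sum_union d1, Finset.sum_union
    (d1.mono Finset.sdiff_subset Finset.sdiff_subset)]
  push_cast
  ring

omit [Fintype α] in
theorem join_pre (h : Pre (u ++ a :: v ++ fl a :: w) ψ S) :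
    Pre (u ++ w) (v.formPerm * ψ) (S.erase a.1) := by
  refine ⟨h.nd_parts.2.1, fun x hx => h.sub_erase x (Or.inr hx), fun x hx => ?_, fun x => ?_⟩
  · rw [Perm.mul_apply, h.fix x (by simp at hx ⊢; tauto),
      formPerm_apply_of_notMem fun h' => h.nd_parts.2.2 h' hx]
  · rw [Perm.mul_apply, formPerm_inv fun y hy => h.sub_erase y (Or.inl hy), h.erase]

theorem join_chi (h : Pre (u ++ a :: v ++ fl a :: w) ψ S) (hv : v ≠ []) :
    chi (u ++ a :: v ++ fl a :: w) ψ S = chi (u ++ w) (v.formPerm * ψ) (S.erase a.1) - 2 := by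
  have hf : ∀ x ∈ v, ψ x = x := fun x hx => h.fix x (by simp [hx])
  have hsub : v.toFinset ⊆ D (S.erase a.1) \ (u ++ w).toFinset := by
    intro x hx
    have hx' := mem_toFinset.1 hx
    simp only [Finset.mem_sdiff, mem_D, mem_toFinset]
    exact ⟨h.sub_erase x (Or.inl hx'), fun h' => h.nd_parts.2.2 hx' h'⟩
  have e4 : cyc (v.formPerm * ψ) (D (S.erase a.1) \ (u ++ w).toFinset) =
      cyc ψ ((D (S.erase a.1) \ v.toFinset) \ (u ++ w).toFinset) + 1 := by
    have := (isCyc_mul h.nd_parts.1 hf).cyc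
    rw [if_neg hv] at this
    rw [cyc, ← Finset.sum_sdiff hsub, ← this, sdiff_right_comm, cyc_congr
      (π' := v.formPerm * ψ)]
    · rfl
    · intro x hx
      simp only [Finset.mem_sdiff, mem_D, mem_toFinset] at hx ⊢
      exact ⟨⟨(h.erase x).2 hx.1.1, (mul_apply_notMem hf hx.1.2).1⟩, (mul_apply_notMem
        (fun y hy => h.fix y (by simp at hy ⊢; tauto)) hx.2).1⟩
    · intro x hx
      simp only [Finset.mem_sdiff, mem_D, mem_toFinset] at hx
      exact (mul_apply_notMem hf hx.1.2).2.symm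
  rw [chi_cut h, chi, e4, if_neg hv, ← mul_assoc _ _ ψ, formPerm_comm h.nd_parts.2.2, mul_assoc]
  ring

theorem cut_cases (h : Pre (u ++ a :: v ++ fl a :: w) ψ S)
    (hc : Conn (u ++ a :: v ++ fl a :: w) ψ S) :
    (∃ S₁ S₂ : Finset α, Disjoint S₁ S₂ ∧ S₁ ∪ S₂ = S.erase a.1 ∧ Pre v ψ S₁ ∧ Pre (u ++ w) ψ S₂ ∧
      Conn v ψ S₁ ∧ Conn (u ++ w) ψ S₂) ∨
    (v ≠ [] ∧ Conn (u ++ w) (v.formPerm * ψ) (S.erase a.1)) := by
  classical
  let R : List (α × Bool) → α → Prop := fun l e => ∀ p : α → Prop, (∀ x ∈ l, p x.1) →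
    (∀ x, x.1 ∈ S.erase a.1 → (p x.1 ↔ p (ψ x).1)) → p e
  have hR1 : ∀ l, ∀ x ∈ l, R l x.1 := fun l x hx p hp _ => hp x hx
  have hR2 : ∀ l x, x.1 ∈ S.erase a.1 → (R l x.1 ↔ R l (ψ x).1) := fun l x hx =>
    ⟨fun H p h1 h2 => (h2 x hx).1 (H p h1 h2), fun H p h1 h2 => (h2 x hx).2 (H p h1 h2)⟩
  have ha := h.fix a (by simp)
  have hb := h.fix (fl a) (by simp)
  have hU : ∀ e ∈ S.erase a.1, R v e ∨ R (u ++ w) e := by
    intro e he
    have := hc (fun e => e = a.1 ∨ (R v e ∨ R (u ++ w) e)) (by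
      intro x hx
      have h1 := hR1 v x
      have h2 := hR1 (u ++ w) x
      have h3 : (fl a).1 = a.1 := rfl
      simp only [mem_append, mem_cons] at hx h2
      grind) (by
      intro x hx
      by_cases hxa : x.1 = a.1
      · rcases fst_eq.1 hxa with rfl | rfl
        · rw [ha]
        · rw [hb]
      · have h1 : x.1 ∈ S.erase a.1 := Finset.mem_erase.2 ⟨hxa, hx⟩
        have h2 := (Finset.mem_erase.1 ((h.erase x).2 h1)).1
        rw [hR2 v x h1, hR2 _ x h1]
        simp [hxa, h2]) e (Finset.mem_of_mem_erase he)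
    exact this.resolve_left (Finset.mem_erase.1 he).1
  have hP : ∀ l, l.Nodup → (∀ x ∈ l, x.1 ∈ S.erase a.1) → (∀ x ∈ l, ψ x = x) →
      Pre l ψ ((S.erase a.1).filter (R l)) ∧ Conn l ψ ((S.erase a.1).filter (R l)) := by
    intro l h1 h2 h3
    have hi : ∀ x, (ψ x).1 ∈ (S.erase a.1).filter (R l) ↔ x.1 ∈ (S.erase a.1).filter (R l) := by
      intro x
      rw [Finset.mem_filter, Finset.mem_filter, h.erase]
      exact and_congr_right fun hx => (hR2 l x hx).symm
    refine ⟨⟨h1, fun x hx => Finset.mem_filter.2 ⟨h2 x hx, hR1 l x hx⟩, h3, hi⟩,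
      fun p hp1 hp2 e he => ?_⟩
    refine ((Finset.mem_filter.1 he).2 (fun e => e ∈ (S.erase a.1).filter (R l) ∧ p e)
      (fun x hx => ⟨Finset.mem_filter.2 ⟨h2 x hx, hR1 l x hx⟩, hp1 x hx⟩) fun x _ => ?_).2
    rw [hi]
    exact and_congr_right fun hx => hp2 x hx
  have hv := hP v h.nd_parts.1 (fun x hx => h.sub_erase x (Or.inl hx))
    fun x hx => h.fix x (by simp [hx])
  have hw := hP (u ++ w) h.nd_parts.2.1 (fun x hx => h.sub_erase x (Or.inr hx))
    fun x hx => h.fix x (by simp at hx ⊢; tauto)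
  by_cases hd : ∃ e, R v e ∧ R (u ++ w) e
  · obtain ⟨e, he1, he2⟩ := hd
    have hv0 : v ≠ [] := by
      rintro rfl
      exact he1 (fun _ => False) (by simp) (by simp)
    refine Or.inr ⟨hv0, fun p hp1 hp2 => ?_⟩
    have hf : ∀ x ∈ v, ψ x = x := fun x hx => h.fix x (by simp [hx])
    have hcl : ∀ x, x.1 ∈ S.erase a.1 → (p x.1 ↔ p (ψ x).1) := by
      intro x hx
      by_cases hxv : x ∈ v
      · rw [hf x hxv]
      · rw [← (mul_apply_notMem hf hxv).2]; exact hp2 x hx
    obtain ⟨c, f, rfl⟩ := exists_cons_of_ne_nil hv0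
    have hcyc := isCyc_mul h.nd_parts.1 hf
    have hj := join_pre h
    have hcS := h.sub_erase c (Or.inl mem_cons_self)
    by_cases hpc : p c.1
    · have := hcyc.reach (fun x => x.1 ∈ S.erase a.1 ∧ p x.1)
        (fun x hx => ⟨(hj.inv x).2 hx.1, (hp2 x hx.1).1 hx.2⟩) ⟨hcS, hpc⟩
      intro e' he'
      rcases hU e' he' with H | H
      · exact H p (fun x hx => (this x hx).2) hcl
      · exact H p hp1 hcl
    · have := hcyc.reach (fun x => x.1 ∈ S.erase a.1 ∧ ¬ p x.1)
        (fun x hx => ⟨(hj.inv x).2 hx.1, fun H => hx.2 ((hp2 x hx.1).2 H)⟩) ⟨hcS, hpc⟩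
      exact absurd (he2 p hp1 hcl) (he1 (fun e => ¬ p e) (fun x hx => (this x hx).2)
        fun x hx => (hcl x hx).not)
  · refine Or.inl ⟨_, _, ?_, ?_, hv.1, hw.1, hv.2, hw.2⟩
    · exact Finset.disjoint_left.2 fun e h1 h2 =>
        hd ⟨e, (Finset.mem_filter.1 h1).2, (Finset.mem_filter.1 h2).2⟩
    · ext e
      rw [Finset.mem_union, Finset.mem_filter, Finset.mem_filter, ← and_or_left]
      exact and_iff_left_of_imp (hU e)

end Split

theorem chi_nil {ψ : Perm (α × Bool)} {S : Finset α} (hc : Conn [] ψ S) :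
    S = ∅ ∧ chi [] ψ S = 0 := by
  have : S = ∅ := Finset.eq_empty_of_forall_notMem fun e he =>
    hc (fun _ => False) (by simp) (by simp) e he
  subst this
  refine ⟨rfl, ?_⟩
  simp [chi, cyc, D]

theorem chi_le (n : ℕ) : ∀ (L : List (α × Bool)) (ψ : Perm (α × Bool)) (S : Finset α),
    S.card = n → Pre L ψ S → Conn L ψ S → chi L ψ S ≤ 0 := by
  induction n using Nat.strong_induction_on with
  | _ n ih =>
  intro L ψ S hn h hc
  rcases L with _ | ⟨a, L⟩
  · exact (chi_nil hc).2.le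
  have hS : a.1 ∈ S := h.sub a mem_cons_self
  have hlt : (S.erase a.1).card < n := hn ▸ Finset.card_erase_lt_of_mem hS
  by_cases ha : fl a ∈ a :: L
  · obtain ⟨v, w, rfl⟩ := append_of_mem ((mem_cons.1 ha).resolve_left (fl_ne a))
    have e : a :: (v ++ fl a :: w) = [] ++ a :: v ++ fl a :: w := by simp
    have h' : Pre ([] ++ a :: v ++ fl a :: w) ψ S := e ▸ h
    rw [e] at hc ⊢
    rcases cut_cases h' hc with ⟨S₁, S₂, h1, h2, h3, h4, h5, h6⟩ | ⟨h1, h2⟩
    · rw [split_chi h3 h4 h1 h2 hS (h.fix a (by simp)) (h.fix (fl a) ha)]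
      exact add_nonpos
        (ih _ ((Finset.card_le_card (h2 ▸ Finset.subset_union_left)).trans_lt hlt) _ _ _ rfl h3 h5)
        (ih _ ((Finset.card_le_card (h2 ▸ Finset.subset_union_right)).trans_lt hlt) _ _ _ rfl h4 h6)
    · rw [join_chi h' h1]
      have := ih _ hlt _ _ _ rfl (join_pre h') h2
      linarith
  · have h' : Pre ([] ++ a :: L) ψ S := by rwa [nil_append]
    obtain ⟨f, ψ', h1, h2, h3, rfl⟩ := exists_merge h' (by rwa [nil_append])
    have e1 := merge_chi h1 hS h2 h3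
    have e2 := (merge_conn h1 hS h2 h3).1
    rw [nil_append (a :: L)] at e1 e2
    rw [e1]
    exact ih _ hlt _ _ _ rfl h1 (e2 hc)

end Pool.Agent.MP_098ecc_co.H85
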