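import Pool.Agent.MP_098ecc_co.H85.System

set_option autoImplicit false

namespace Pool.Agent.MP_098ecc_co.H85

open Polynomial
open scoped PowerSeries

theorem cancel_lead {V : Type*} [CommRing V] (s : V) (D : V[X]) (d N k : ℕ)
    (hD : D.natDegree ≤ d) (Z : V⟦X⟧)
    (h : ∀ j, d + N < j → s ^ k ∣ PowerSeries.coeff j ((X ^ d + C s * D : V[X]) * Z)) :
    ∀ j, N < j → s ^ k ∣ PowerSeries.coeff j Z := by
  induction k with
  | zero => intro j _; simp
  | succ k ih =>
    have ih' := ih fun j hj => (pow_dvd_pow s (Nat.le_succ k)).trans (h j hj)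
    intro j hj
    have h1 := h (j + d) (by omega)
    rw [coe_add, coe_mul, coe_pow, coe_X, coe_C, add_mul, map_add, PowerSeries.coeff_X_pow_mul,
      mul_assoc, PowerSeries.coeff_C_mul] at h1
    refine (dvd_add_left ?_).1 h1
    rw [pow_succ']
    refine mul_dvd_mul_left _ ?_
    rw [PowerSeries.coeff_mul]
    refine Finset.dvd_sum fun p hp => ?_
    have hp' := Finset.HasAntidiagonal.mem_antidiagonal.1 hp
    by_cases h2 : p.1 ≤ d
    · exact (ih' p.2 (by omega)).mul_left _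
    · rw [coeff_coe, coeff_eq_zero_of_natDegree_lt (by omega)]; simp

theorem pow_lead {V : Type*} [CommRing V] (s : V) (D : V[X]) (d k : ℕ) (hD : D.natDegree ≤ d) :
    ∃ D' : V[X], D'.natDegree ≤ d * k ∧ (X ^ d + C s * D) ^ k = X ^ (d * k) + C s * D' := by
  induction k with
  | zero => exact ⟨0, by simp, by simp⟩
  | succ k ih =>
    obtain ⟨D', h1, h2⟩ := ih
    refine ⟨X ^ (d * k) * D + D' * (X ^ d + C s * D), ?_, ?_⟩
    · refine (natDegree_add_le _ _).trans (max_le (natDegree_mul_le.trans ?_)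
        (natDegree_mul_le.trans ?_))
      · have := natDegree_X_pow_le (R := V) (d * k); rw [mul_add]; omega
      · have := (natDegree_add_le _ _).trans (max_le (natDegree_X_pow_le (R := V) d)
          ((natDegree_C_mul_le s D).trans hD))
        rw [mul_add]; omega
    · rw [pow_succ, h2]; ring

variable {T : Type*} [CommRing T]

theorem ia_coe (p : T[X]) : ia p.toPowerSeries = (p.map PowerSeries.C).toPowerSeries := by
  ext i : 1
  simp [ia]

theorem coeff_loop (n : ℕ) (s : T) (G P : T[X]) (hG : G.natDegree ≤ n) (hP : P.natDegree ≤ n + 1)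
    (U : T⟦X⟧) (hU : (1 + C s * X * G : T[X]) * U = P)
    (hUs : ∀ m, s ^ m ∣ PowerSeries.coeff m U) {W : T⟦X⟧} {M : T⟦X⟧⟦X⟧}
    (h : LoopEq (n + 1) (1 + C s * X * G) P W M) (N k : ℕ) :
    PowerSeries.C s ^ N ∣ PowerSeries.coeff (k + 1) M - PowerSeries.X *
      (∑ m ∈ Finset.range (N + 1), PowerSeries.C (PowerSeries.coeff m U) *
        PowerSeries.coeff (k + 1 + m) M + PowerSeries.coeff (k + 1) (ia W * M)) := by
  obtain ⟨Q, hQ, e⟩ := h
  set Δ : T[X] := 1 + C s * X * G with hΔ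
  have hXG : (X * G).natDegree ≤ n + 1 := by
    refine natDegree_mul_le.trans ?_
    have := natDegree_X_le (R := T); omega
  have hΔd : Δ.natDegree ≤ n + 1 := by
    rw [hΔ, mul_assoc]
    exact (natDegree_add_le _ _).trans (max_le (by simp) ((natDegree_C_mul_le _ _).trans hXG))
  let V := PowerSeries.trunc (N + 1) U
  have hV : V.natDegree ≤ N := Nat.lt_succ_iff.1 (PowerSeries.natDegree_trunc_lt U N)
  obtain ⟨R, hR⟩ : C (s ^ N) ∣ Δ * V - P := by
    rw [C_dvd_iff_dvd_coeff]
    intro i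
    rw [← coeff_coe, coe_sub, coe_mul, ← hU, ← mul_sub, PowerSeries.coeff_mul]
    refine Finset.dvd_sum fun p _ => Dvd.dvd.mul_left ?_ _
    rw [map_sub, coeff_coe, PowerSeries.coeff_trunc]
    split_ifs with h1
    · simp
    · rw [zero_sub, dvd_neg]
      exact (pow_dvd_pow s (by omega)).trans (hUs _)
  have hR' := congrArg (reflect (n + 1 + N)) hR
  have hP' : reflect (n + 1 + N) P = reflect (n + 1) P * X ^ N := by
    have := reflect_mul P 1 hP (natDegree_one.le.trans (Nat.zero_le N))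
    rw [mul_one] at this
    rw [this, ← C_1, reflect_C, C_1, one_mul]
  rw [reflect_sub, reflect_mul _ _ hΔd hV, hP', reflect_C_mul] at hR'
  have hD : reflect (n + 1) Δ = X ^ (n + 1) + C s * reflect (n + 1) (X * G) := by
    rw [hΔ, reflect_add, mul_assoc, reflect_C_mul, ← C_1, reflect_C, C_1, one_mul]
  obtain ⟨D', hD'1, hD'2⟩ := pow_lead (PowerSeries.C s : T⟦X⟧)
    ((reflect (n + 1) (X * G)).map PowerSeries.C) (n + 1) (n + 1)
    (natDegree_map_le.trans (natDegree_reflect_le.trans (max_le le_rfl hXG)))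
  let Z : T⟦X⟧⟦X⟧ := (PowerSeries.X ^ N - ib PowerSeries.X *
    (ia (reflect N V).toPowerSeries + PowerSeries.X ^ N * ia W)) * M
  have hZ : (X ^ ((n + 1) * (n + 1)) + C (PowerSeries.C s) * D' : T⟦X⟧[X]).toPowerSeries * Z =
      PowerSeries.X ^ N * Q.toPowerSeries - PowerSeries.C (PowerSeries.C s ^ N) *
        (ib PowerSeries.X * ia (reflect (n + 1) Δ).toPowerSeries ^ n *
          ia (reflect (n + 1 + N) R).toPowerSeries * M) := by
    have e1 : (X ^ ((n + 1) * (n + 1)) + C (PowerSeries.C s) * D' : T⟦X⟧[X]).toPowerSeries =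
        ia (reflect (n + 1) Δ).toPowerSeries ^ (n + 1) := by
      rw [← hD'2, ia_coe, hD, coe_pow]
      simp
    have e2 := congrArg (fun p : T[X] => ia p.toPowerSeries) hR'
    simp only [coe_sub, coe_mul, coe_pow, coe_X, coe_C, map_sub, map_mul, map_pow] at e2
    have e3 : ia (PowerSeries.X : T⟦X⟧) = PowerSeries.X := by simp [ia]
    have e4 : ia (PowerSeries.C s : T⟦X⟧) = PowerSeries.C (PowerSeries.C s) := by simp [ia]
    rw [e3, e4] at e2
    rw [e1, ← e, map_pow, Nat.add_sub_cancel]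
    simp only [Z]
    linear_combination (-(ib PowerSeries.X * ia (reflect (n + 1) Δ).toPowerSeries ^ n * M)) * e2
  have := cancel_lead (PowerSeries.C s : T⟦X⟧) D' _ N N hD'1 Z (by
    intro j hj
    rw [hZ, map_sub, PowerSeries.coeff_C_mul, PowerSeries.coeff_X_pow_mul', if_pos (by omega),
      coeff_coe, coeff_eq_zero_of_natDegree_lt (by omega), zero_sub, dvd_neg]
    exact dvd_mul_right _ _) (k + 1 + N) (by omega)
  convert this using 1
  simp only [Z]
  rw [sub_mul, map_sub, PowerSeries.coeff_X_pow_mul, mul_assoc, ib, PowerSeries.coeff_C_mul,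
    add_mul, map_add, mul_assoc, PowerSeries.coeff_X_pow_mul, ← hom_reflect N V hV, hom,
    ← coeToPowerSeries.ringHom_apply, map_sum, map_sum, Finset.sum_mul, map_sum]
  congr 3
  refine Finset.sum_congr rfl fun m hm => ?_
  have hm' := Finset.mem_range.1 hm
  have e3 : ia (PowerSeries.X : T⟦X⟧) = PowerSeries.X := by simp [ia]
  have e4 : ∀ c : T, ia (PowerSeries.C c : T⟦X⟧) = PowerSeries.C (PowerSeries.C c) := by
    simp [ia]
  simp only [coeToPowerSeries.ringHom_apply, one_pow, mul_one, coe_C, coe_X,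
    map_mul, map_pow, e3, e4, mul_assoc, PowerSeries.coeff_C_mul, V, PowerSeries.coeff_trunc,
    if_pos hm']
  rw [show k + 1 + N = (k + 1 + m) + (N - m) by omega, PowerSeries.coeff_X_pow_mul]

/-- the array of coefficients -/
noncomputable def mm (M : T⟦X⟧⟦X⟧) (k l : ℕ) : T :=
  PowerSeries.coeff (l + 1) (PowerSeries.coeff (k + 1) M)

theorem mm_sw (M : T⟦X⟧⟦X⟧) (k l : ℕ) : mm (sw M) k l = mm M l k := coeff_sw _ _ _

theorem mm_rec {s : T} {U W : T⟦X⟧} {M : T⟦X⟧⟦X⟧} (h0 : PowerSeries.constantCoeff M = 1)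
    (h1 : PowerSeries.constantCoeff (sw M) = 1) (hW : PowerSeries.constantCoeff W = 0) (N k : ℕ)
    (h : PowerSeries.C s ^ N ∣ PowerSeries.coeff (k + 1) M - PowerSeries.X *
      (∑ m ∈ Finset.range (N + 1), PowerSeries.C (PowerSeries.coeff m U) *
        PowerSeries.coeff (k + 1 + m) M + PowerSeries.coeff (k + 1) (ia W * M))) :
    s ^ N ∣ mm M k 0 - PowerSeries.coeff (k + 1) W ∧ ∀ l, s ^ N ∣ mm M k (l + 1) -
      (∑ i ∈ Finset.range k, PowerSeries.coeff (i + 1) W * mm M (k - 1 - i) l +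
        ∑ m ∈ Finset.range (N + 1), PowerSeries.coeff m U * mm M (k + m) l) := by
  have hc : ∀ l, s ^ N ∣ PowerSeries.coeff (l + 1) (PowerSeries.coeff (k + 1) M) -
      (∑ m ∈ Finset.range (N + 1), PowerSeries.coeff m U *
        PowerSeries.coeff l (PowerSeries.coeff (k + 1 + m) M) +
      ∑ i ∈ Finset.range (k + 1 + 1), PowerSeries.coeff i W *
        PowerSeries.coeff l (PowerSeries.coeff (k + 1 - i) M)) := by
    intro l
    obtain ⟨c, hc⟩ := h
    have := congrArg (PowerSeries.coeff (l + 1)) hc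
    rw [← map_pow, PowerSeries.coeff_C_mul, map_sub, PowerSeries.coeff_succ_X_mul, map_add,
      map_sum, PowerSeries.coeff_mul, Finset.Nat.sum_antidiagonal_eq_sum_range_succ
        (fun i j => PowerSeries.coeff i (ia W) * PowerSeries.coeff j M), map_sum] at this
    simp only [ia, PowerSeries.coeff_map, PowerSeries.coeff_C_mul] at this
    exact ⟨_, this⟩
  have hz : ∀ j, PowerSeries.coeff 0 (PowerSeries.coeff (j + 1) M) = 0 := by
    intro j
    rw [← coeff_sw, PowerSeries.coeff_zero_eq_constantCoeff_apply, h1, PowerSeries.coeff_one]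
    simp
  have hM0 : PowerSeries.coeff 0 M = 1 := by simpa using h0
  have hW0 : PowerSeries.coeff 0 W = 0 := by simpa using hW
  refine ⟨?_, fun l => ?_⟩
  · convert hc 0 using 2
    · rfl
    rw [Finset.sum_range_succ _ (k + 1), Finset.sum_eq_zero, Finset.sum_eq_zero, Nat.sub_self, hM0]
    · simp
    · intro i hi
      have := Finset.mem_range.1 hi
      rw [show k + 1 - i = (k - i) + 1 by omega, hz, mul_zero]
    · intro m _
      rw [show k + 1 + m = (k + m) + 1 by omega, hz, mul_zero]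
  · convert hc (l + 1) using 2
    · rfl
    rw [add_comm]
    congr 1
    · refine Finset.sum_congr rfl fun m _ => ?_
      rw [mm, show k + 1 + m = (k + m) + 1 by omega]
    · rw [Finset.sum_range_succ, Finset.sum_range_succ', hW0, Nat.sub_self, hM0,
        PowerSeries.coeff_one]
      simp only [Nat.add_one_ne_zero, if_false, mul_zero, zero_mul, add_zero]
      refine Finset.sum_congr rfl fun i hi => ?_
      have := Finset.mem_range.1 hi
      rw [mm, show k + 1 - (i + 1) = (k - 1 - i) + 1 by omega]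

/-- the recursion obtained by deleting an edge, in truncated form -/
def Rec {R : Type*} [CommRing R] (ϖ τ : R) (x y : ℕ → R) (F : ℕ → ℕ → R) : Prop :=
  ∀ N, ϖ ^ N ∣ F 0 0 - 1 ∧
    (∀ k l, ϖ ^ N ∣ F k (l + 1) - τ * (∑ i ∈ Finset.range k, F i 0 * F (k - 1 - i) l +
      ∑ m ∈ Finset.range (N + 1), x m * F (k + m) l)) ∧
    ∀ k, ϖ ^ N ∣ F (k + 1) 0 - τ * ∑ m ∈ Finset.range (N + 1), y m * F k m

theorem Rec.map {R R' : Type*} [CommRing R] [CommRing R'] (ψ : R →+* R') {ϖ τ : R}
    {x y : ℕ → R} {F : ℕ → ℕ → R} (h : Rec ϖ τ x y F) (ϖ' : R') (hϖ : ϖ' ∣ ψ ϖ) :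
    Rec ϖ' (ψ τ) (fun m => ψ (x m)) (fun m => ψ (y m)) fun k l => ψ (F k l) := by
  intro N
  have key : ∀ z : R, ϖ ^ N ∣ z → ϖ' ^ N ∣ ψ z := fun z hz =>
    (pow_dvd_pow_of_dvd hϖ N).trans (by rw [← map_pow]; exact map_dvd ψ hz)
  obtain ⟨h1, h2, h3⟩ := h N
  refine ⟨by simpa using key _ h1, fun k l => ?_, fun k => ?_⟩
  · simpa [map_sum] using key _ (h2 k l)
  · simpa [map_sum] using key _ (h3 k)

theorem Rec.unique {R : Type*} [CommRing R] {ϖ τ : R} (hτ : ϖ ∣ τ)
    {x y : ℕ → R} {F G : ℕ → ℕ → R} (h : Rec ϖ τ x y F) (h' : Rec ϖ τ x y G) (N : ℕ) :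
    ∀ k l, ϖ ^ N ∣ F k l - G k l := by
  induction N with
  | zero => simp
  | succ N ih =>
    obtain ⟨a1, a2, a3⟩ := h (N + 1)
    obtain ⟨b1, b2, b3⟩ := h' (N + 1)
    have key : ∀ f g A B : R, ϖ ^ (N + 1) ∣ f - τ * A → ϖ ^ (N + 1) ∣ g - τ * B →
        ϖ ^ N ∣ A - B → ϖ ^ (N + 1) ∣ f - g := by
      intro f g A B h1 h2 h3
      have : f - g = (f - τ * A) - (g - τ * B) + τ * (A - B) := by ring
      rw [this]
      refine dvd_add (dvd_sub h1 h2) ?_
      rw [pow_succ']
      exact mul_dvd_mul hτ h3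
    have hs : ∀ (c : ℕ → R) (i j : ℕ → ℕ) (s : Finset ℕ), ϖ ^ N ∣
        ∑ m ∈ s, c m * F (i m) (j m) - ∑ m ∈ s, c m * G (i m) (j m) := by
      intro c i j s
      rw [← Finset.sum_sub_distrib]
      refine Finset.dvd_sum fun m _ => ?_
      rw [← mul_sub]; exact (ih _ _).mul_left _
    intro k l
    rcases l with _ | l
    · rcases k with _ | k
      · simpa using dvd_sub a1 b1
      · exact key _ _ _ _ (a3 k) (b3 k) (hs _ _ _ _)
    · refine key _ _ _ _ (a2 k l) (b2 k l) ?_
      rw [add_sub_add_comm]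
      refine dvd_add ?_ (hs _ _ (fun _ => l) _)
      rw [← Finset.sum_sub_distrib]
      refine Finset.dvd_sum fun i _ => ?_
      have : F i 0 * F (k - 1 - i) l - G i 0 * G (k - 1 - i) l =
          (F i 0 - G i 0) * F (k - 1 - i) l + G i 0 * (F (k - 1 - i) l - G (k - 1 - i) l) := by
        ring
      rw [this]
      exact dvd_add ((ih _ _).mul_right _) ((ih _ _).mul_left _)

theorem rec_of_loops (n : ℕ) (s : T) (x y : ℕ → T) (G G' P P' : T[X]) (hG : G.natDegree ≤ n)
    (hG' : G'.natDegree ≤ n) (hP : P.natDegree ≤ n + 1) (hP' : P'.natDegree ≤ n + 1)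
    (hU : (1 + C s * X * G : T[X]) * PowerSeries.mk (fun m => x m * s ^ (m + 1)) = P)
    (hU' : (1 + C s * X * G' : T[X]) * PowerSeries.mk (fun m => y m * s ^ (m + 1)) = P')
    {W W' : T⟦X⟧} {M : T⟦X⟧⟦X⟧} (h0 : PowerSeries.constantCoeff M = 1)
    (h1 : PowerSeries.constantCoeff (sw M) = 1) (hW : PowerSeries.constantCoeff W = 0)
    (hW1 : PowerSeries.coeff 1 W = 1) (hW' : PowerSeries.constantCoeff W' = 0)
    (h : LoopEq (n + 1) (1 + C s * X * G) P W M)
    (h' : LoopEq (n + 1) (1 + C s * X * G') P' W' (sw M)) :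
    Rec s (s ^ 2) x y fun k l => s ^ (k + l) * mm M k l := by
  intro N
  have hs : ∀ (x : ℕ → T) (m : ℕ), s ^ m ∣
      PowerSeries.coeff m (PowerSeries.mk (fun m => x m * s ^ (m + 1))) := by
    intro x m
    rw [PowerSeries.coeff_mk, pow_succ']
    exact (dvd_mul_left _ _).mul_left _
  have hsw : sw (sw M) = M := by ext i j; rw [coeff_sw, coeff_sw]
  have A := fun k => mm_rec h0 h1 hW N k (coeff_loop n s G P hG hP _ hU (hs x) h N k)
  have B := (mm_rec h1 (hsw.symm ▸ h0) hW' N 0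
    (coeff_loop n s G' P' hG' hP' _ hU' (hs y) h' N 0)).2
  refine ⟨by simpa [hW1] using (A 0).1, fun k l => ?_, fun k => ?_⟩
  · have h2 := ((A k).2 l).mul_left (s ^ (k + (l + 1)))
    have h3 : s ^ N ∣ ∑ i ∈ Finset.range k, s ^ (k + (l + 1)) *
        (mm M i 0 - PowerSeries.coeff (i + 1) W) * mm M (k - 1 - i) l :=
      Finset.dvd_sum fun i _ => (((A i).1).mul_left _).mul_right _
    convert dvd_sub h2 h3 using 1
    simp only [PowerSeries.coeff_mk, mul_add, mul_sub, sub_mul, Finset.mul_sum,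
      Finset.sum_sub_distrib]
    have e1 : ∑ i ∈ Finset.range k, s ^ 2 * (s ^ (i + 0) * mm M i 0 *
        (s ^ (k - 1 - i + l) * mm M (k - 1 - i) l)) = ∑ i ∈ Finset.range k,
        s ^ (k + (l + 1)) * mm M i 0 * mm M (k - 1 - i) l := by
      refine Finset.sum_congr rfl fun i hi => ?_
      have := Finset.mem_range.1 hi
      rw [show k + (l + 1) = 2 + (i + 0) + (k - 1 - i + l) by omega]
      ring
    have e2 : ∑ m ∈ Finset.range (N + 1), s ^ 2 * (x m * (s ^ (k + m + l) * mm M (k + m) l)) =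
        ∑ m ∈ Finset.range (N + 1), s ^ (k + (l + 1)) * (x m * s ^ (m + 1) * mm M (k + m) l) :=
      Finset.sum_congr rfl fun m _ => by ring
    have e3 : ∑ i ∈ Finset.range k, s ^ (k + (l + 1)) * PowerSeries.coeff (i + 1) W *
        mm M (k - 1 - i) l = ∑ i ∈ Finset.range k, s ^ (k + (l + 1)) *
        (PowerSeries.coeff (i + 1) W * mm M (k - 1 - i) l) :=
      Finset.sum_congr rfl fun m _ => by ring
    rw [e1, e2, e3]; ring
  · have h2 := (B k).mul_left (s ^ (k + 1 + 0))
    convert h2 using 1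
    simp only [PowerSeries.coeff_mk, mul_sub, Finset.mul_sum, mm_sw, Finset.range_zero,
      Finset.sum_empty, zero_add]
    congr 1
    exact Finset.sum_congr rfl fun m _ => by ring

end Pool.Agent.MP_098ecc_co.H85
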