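import Mathlib

set_option autoImplicit false

namespace Pool.Agent.MP_098ecc_co.H85

open Polynomial

variable {R : Type*} [CommRing R]

theorem res_mul_right (f g₁ g₂ : R[X]) (m n₁ n₂ : ℕ) (hf : f.natDegree ≤ m)
    (h₁ : g₁.natDegree ≤ n₁) (h₂ : g₂.natDegree ≤ n₂) :
    resultant f (g₁ * g₂) m (n₁ + n₂) = resultant f g₁ m n₁ * resultant f g₂ m n₂ := by
  obtain ⟨a, rfl⟩ := Nat.exists_eq_add_of_le h₁
  obtain ⟨b, rfl⟩ := Nat.exists_eq_add_of_le h₂
  rw [show g₁.natDegree + a + (g₂.natDegree + b) = (g₁.natDegree + g₂.natDegree) + (a + b) by ring,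
    resultant_add_right_deg _ _ _ _ _ natDegree_mul_le, resultant_add_right_deg _ _ _ _ _ le_rfl,
    resultant_add_right_deg _ _ _ _ _ le_rfl, resultant_mul_right _ _ _ _ hf]
  ring

theorem res_monic (f g : R[X]) (m n n' : ℕ) (hf : f.coeff m = 1)
    (h : g.natDegree ≤ n) (h' : g.natDegree ≤ n') :
    resultant f g m n = resultant f g m n' := by
  obtain ⟨a, rfl⟩ := Nat.exists_eq_add_of_le h
  obtain ⟨b, rfl⟩ := Nat.exists_eq_add_of_le h'
  rw [resultant_add_right_deg _ _ _ _ _ le_rfl, resultant_add_right_deg _ _ _ _ _ le_rfl, hf]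
  simp

theorem res_reflect (f g : R[X]) (q : ℕ) :
    resultant (reflect q g) (reflect q f) q q = resultant f g q q := by
  unfold resultant
  rw [← Matrix.det_submatrix_equiv_self Fin.revPerm (sylvester f g q q)]
  congr 1
  ext i j
  have hi := i.2
  induction j using Fin.addCases with
  | left j =>
    have hj := j.2
    have e : Fin.revPerm (Fin.castAdd q j) = Fin.natAdd q (Fin.rev j) := by
      ext; simp; omega
    simp only [sylvester, Matrix.of_apply, Fin.addCases_left, Matrix.submatrix_apply, e,
      Fin.addCases_right, Set.mem_Icc, Fin.revPerm_apply, Fin.val_rev, coeff_reflect]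
    split_ifs with h1 h2 h2
    · rw [revAt_le (by omega)]; congr 1; omega
    · omega
    · omega
    · rfl
  | right j =>
    have hj := j.2
    have e : Fin.revPerm (Fin.natAdd q j) = Fin.castAdd q (Fin.rev j) := by
      ext; simp; omega
    simp only [sylvester, Matrix.of_apply, Fin.addCases_left, Matrix.submatrix_apply, e,
      Fin.addCases_right, Set.mem_Icc, Fin.revPerm_apply, Fin.val_rev, coeff_reflect]
    split_ifs with h1 h2 h2
    · rw [revAt_le (by omega)]; congr 1; omega
    · omega
    · omega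
    · rfl

/-- the symmetric pairing -/
noncomputable def rho (q : ℕ) (f g : R[X]) : R := resultant (reflect q f) g q q

theorem rho_comm (q : ℕ) (f g : R[X]) : rho q f g = rho q g f := by
  unfold rho
  rw [← res_reflect, reflect_reflect]

theorem rho_map {S : Type*} [CommRing S] (φ : R →+* S) (q : ℕ) (f g : R[X]) :
    rho q (f.map φ) (g.map φ) = φ (rho q f g) := by
  unfold rho
  rw [reflect_map, resultant_map_map]

theorem res_deg (f : R[X]) (g : R[X][X]) (m n d : ℕ) (hg : ∀ i, (g.coeff i).natDegree ≤ d) :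
    (resultant (f.map C) g m n).natDegree ≤ m * d := by
  unfold resultant
  rw [Matrix.det_apply']
  refine natDegree_sum_le_of_forall_le _ _ fun σ _ => ?_
  refine natDegree_mul_le.trans ?_
  have h0 : (((Equiv.Perm.sign σ : ℤˣ) : ℤ) : R[X]).natDegree = 0 := natDegree_intCast _
  rw [h0, zero_add]
  refine (natDegree_prod_le _ _).trans ?_
  rw [Fin.sum_univ_add]
  have h1 : ∑ i : Fin m, (sylvester (f.map C) g m n (σ (Fin.castAdd n i)) (Fin.castAdd n i)).natDegree
      ≤ ∑ _i : Fin m, d := by
    refine Finset.sum_le_sum fun i _ => ?_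
    simp only [sylvester, Matrix.of_apply, Fin.addCases_left]
    split_ifs
    · exact hg _
    · simp
  have h2 : ∑ i : Fin n, (sylvester (f.map C) g m n (σ (Fin.natAdd m i)) (Fin.natAdd m i)).natDegree
      = 0 := by
    refine Finset.sum_eq_zero fun i _ => ?_
    simp only [sylvester, Matrix.of_apply, Fin.addCases_right]
    split_ifs <;> simp
  rw [h2]; simpa using h1

end Pool.Agent.MP_098ecc_co.H85
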