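import Pool.Agent.MP_098ecc_co.H85.Fix
import Pool.Agent.MP_098ecc_co.H85.Res

set_option autoImplicit false

namespace Pool.Agent.MP_098ecc_co.H85

open Polynomial
open scoped PowerSeries

section Hom
variable {T A B : Type*} [CommRing T] [CommRing A] [CommRing B]

/-- homogeneous evaluation in formal degree `q` -/
noncomputable def hom (q : ℕ) (φ : T →+* A) (f : T[X]) (x e : A) : A :=
  ∑ k ∈ Finset.range (q + 1), φ (f.coeff k) * x ^ k * e ^ (q - k)

theorem map_hom (ψ : A →+* B) (q : ℕ) (φ : T →+* A) (f : T[X]) (x e : A) :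
    ψ (hom q φ f x e) = hom q (ψ.comp φ) f (ψ x) (ψ e) := by
  simp [hom, map_sum]

theorem hom_mul (q : ℕ) (φ : T →+* A) (f : T[X]) (x e y : A) :
    hom q φ f (x * y) (e * y) = y ^ q * hom q φ f x e := by
  unfold hom
  rw [Finset.mul_sum]
  refine Finset.sum_congr rfl fun k hk => ?_
  have : y ^ q = y ^ k * y ^ (q - k) := by
    rw [← pow_add]; congr 1; have := Finset.mem_range.1 hk; omega
  rw [this, mul_pow, mul_pow]; ring

theorem hom_reflect (q : ℕ) (f : T[X]) (hf : f.natDegree ≤ q) :
    hom q C f 1 X = reflect q f := by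
  conv_rhs => rw [f.as_sum_range' (q + 1) (Nat.lt_succ_of_le hf)]
  have : ∀ s : Finset ℕ, (∀ k ∈ s, k ≤ q) → reflect q (∑ k ∈ s, monomial k (f.coeff k)) =
      ∑ k ∈ s, C (f.coeff k) * 1 ^ k * X ^ (q - k) := by
    intro s hs
    induction s using Finset.induction_on with
    | empty => simp
    | insert a s ha ih =>
      rw [Finset.sum_insert ha, Finset.sum_insert ha, reflect_add,
        ih fun k hk => hs k (Finset.mem_insert_of_mem hk), ← C_mul_X_pow_eq_monomial,
        reflect_C_mul_X_pow, revAt_le (hs a (Finset.mem_insert_self _ _))]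
      simp
  rw [this _ fun k hk => Nat.lt_succ_iff.1 (Finset.mem_range.1 hk)]
  rfl

theorem hom_sub (q : ℕ) (φ : T →+* A[X]) (f : T[X]) (x e : A[X]) :
    ∃ Θ : A[X][X], (∀ i, (Θ.coeff i).natDegree ≤ q - 1) ∧
      hom q ((mapRingHom C).comp φ) f (x.map C) (C X * x.map C) -
        hom q ((mapRingHom C).comp φ) f (x.map C) (e.map C) = (C X * x.map C - e.map C) * Θ := by
  refine ⟨∑ k ∈ Finset.range (q + 1), ∑ i ∈ Finset.range (q - k),
    C (X ^ i) * (φ (f.coeff k) * x ^ k * x ^ i * e ^ (q - k - 1 - i)).map C, ?_, ?_⟩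
  · intro j
    rw [finsetSum_coeff]
    refine natDegree_sum_le_of_forall_le _ _ fun k _ => ?_
    rw [finsetSum_coeff]
    refine natDegree_sum_le_of_forall_le _ _ fun i hi => ?_
    rw [coeff_C_mul, coeff_map]
    refine natDegree_mul_le.trans ?_
    have := Finset.mem_range.1 hi
    have h2 := natDegree_X_pow_le (R := A) i
    rw [natDegree_C]; omega
  · unfold hom
    rw [← Finset.sum_sub_distrib, Finset.mul_sum]
    refine Finset.sum_congr rfl fun k _ => ?_
    rw [← mul_sub, ← geom_sum₂_mul, Finset.mul_sum, Finset.sum_mul, Finset.mul_sum]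
    refine Finset.sum_congr rfl fun i _ => ?_
    simp only [RingHom.comp_apply, coe_mapRingHom, Polynomial.map_mul, Polynomial.map_pow,
      map_pow, mul_pow]
    ring

end Hom

variable {T : Type*} [CommRing T]

/-- one half of the rational parametrisation -/
structure Half (T : Type*) [CommRing T] (q : ℕ) where
  E : T[X]
  Y : T[X]
  hE : E.natDegree ≤ q
  hE0 : E.coeff 0 = 1
  hY : Y.natDegree ≤ q + 1
  hc : IsUnit (Y.coeff 0)

/-- the distinguished root and the cofactor -/
structure Root {q : ℕ} (A : Half T q) where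
  z : T⟦X⟧
  z' : T⟦X⟧
  p : (T⟦X⟧)[X]
  hz : z = PowerSeries.X * z'
  hz' : PowerSeries.constantCoeff z' = A.Y.coeff 0
  hp : p.natDegree ≤ q
  fac : (X - C z) * p = X * A.E.map PowerSeries.C - C PowerSeries.X * A.Y.map PowerSeries.C
  hp0 : p.map PowerSeries.constantCoeff = A.E

theorem const_ev (z : T⟦X⟧) (f : T[X]) :
    PowerSeries.constantCoeff (f.eval₂ PowerSeries.C (PowerSeries.X * z)) = f.coeff 0 := by
  rw [hom_eval₂]
  have : (PowerSeries.constantCoeff (R := T)).comp PowerSeries.C = RingHom.id T := by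
    ext; simp
  simp [this, coeff_zero_eq_eval_zero]

theorem exists_root {q : ℕ} (A : Half T q) : Nonempty (Root A) := by
  let F : (Unit → T⟦X⟧) → (Unit → T⟦X⟧) := fun g _ =>
    A.Y.eval₂ PowerSeries.C (PowerSeries.X * g ()) -
      PowerSeries.X * (g () * g () * A.E.divX.eval₂ PowerSeries.C (PowerSeries.X * g ()))
  obtain ⟨g, hg⟩ := exists_fix F (by
    intro n f g h _
    have h0 := h ()
    have h1 : PowerSeries.X ^ (n + 1) ∣ PowerSeries.X * f () - PowerSeries.X * g () := by
      rw [← mul_sub, pow_succ']; exact mul_dvd_mul_left _ h0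
    have h2 : ∀ r : T[X], PowerSeries.X * f () - PowerSeries.X * g () ∣
        r.eval₂ PowerSeries.C (PowerSeries.X * f ()) -
          r.eval₂ PowerSeries.C (PowerSeries.X * g ()) := by
      intro r
      rw [eval₂_eq_eval_map, eval₂_eq_eval_map]
      exact sub_dvd_eval_sub _ _ _
    have h3 := (pow_dvd_pow _ (Nat.le_succ n)).trans (h1.trans (h2 A.E.divX))
    have e : F f () - F g () = (A.Y.eval₂ PowerSeries.C (PowerSeries.X * f ()) -
        A.Y.eval₂ PowerSeries.C (PowerSeries.X * g ())) - PowerSeries.X *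
        (f () * f () * (A.E.divX.eval₂ PowerSeries.C (PowerSeries.X * f ()) -
          A.E.divX.eval₂ PowerSeries.C (PowerSeries.X * g ())) + (f () - g ()) *
          ((f () + g ()) * A.E.divX.eval₂ PowerSeries.C (PowerSeries.X * g ()))) := by
      simp only [F]; ring
    rw [e]
    refine dvd_sub (h1.trans (h2 _)) ?_
    rw [pow_succ']
    exact mul_dvd_mul_left _ (dvd_add (h3.mul_left _) (h0.mul_right _)))
  have hg' := congrFun hg ()
  simp only [F] at hg'
  set z' := g ()
  let L : (T⟦X⟧)[X] := X * A.E.map PowerSeries.C - C PowerSeries.X * A.Y.map PowerSeries.C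
  have hroot : L.IsRoot (PowerSeries.X * z') := by
    have hE : A.E = A.E.divX * X + 1 := by
      conv_lhs => rw [← divX_mul_X_add A.E, A.hE0]
      simp
    simp only [L, IsRoot, eval_sub, eval_mul, eval_X, eval_C, ← eval₂_eq_eval_map]
    rw [hE, eval₂_add, eval₂_mul, eval₂_X, eval₂_one]
    linear_combination (-PowerSeries.X) * hg'
  have hL : L.natDegree ≤ q + 1 := by
    refine (natDegree_sub_le _ _).trans (max_le ?_ ?_)
    · refine natDegree_mul_le.trans ?_
      have := natDegree_X_le (R := T⟦X⟧)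
      have := (natDegree_map_le (f := PowerSeries.C)).trans A.hE
      omega
    · exact (natDegree_C_mul_le _ _).trans (natDegree_map_le.trans A.hY)
  have hfac := mul_divByMonic_eq_iff_isRoot.2 hroot
  refine ⟨⟨PowerSeries.X * z', z', L /ₘ (X - C (PowerSeries.X * z')), rfl, ?_, ?_, hfac, ?_⟩⟩
  · have := congrArg PowerSeries.constantCoeff hg'
    simpa [const_ev] using this.symm
  · nontriviality T⟦X⟧
    rw [natDegree_divByMonic _ (monic_X_sub_C _), natDegree_X_sub_C]; omega
  · generalize L /ₘ (X - C (PowerSeries.X * z')) = p at hfac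
    have := congrArg (Polynomial.map (PowerSeries.constantCoeff (R := T))) hfac
    have e : (PowerSeries.constantCoeff (R := T)).comp PowerSeries.C = RingHom.id T := by
      ext; simp
    simp only [L, Polynomial.map_mul, Polynomial.map_sub, map_X, map_C, map_mul,
      PowerSeries.constantCoeff_X, zero_mul, map_zero, sub_zero, Polynomial.map_map, e,
      Polynomial.map_id] at this
    exact (monic_X (R := T)).isRegular.left this

/-- embedding in the outer variable -/
noncomputable def ia : T⟦X⟧ →+* T⟦X⟧⟦X⟧ := PowerSeries.map PowerSeries.C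
/-- embedding in the inner variable -/
noncomputable def ib : T⟦X⟧ →+* T⟦X⟧⟦X⟧ := PowerSeries.C

theorem ia_C : (ia (T := T)).comp PowerSeries.C = ib.comp PowerSeries.C := by
  ext1 x; simp [ia, ib]

/-- exchange of the two variables -/
noncomputable def sw : T⟦X⟧⟦X⟧ →+* T⟦X⟧⟦X⟧ where
  toFun f := PowerSeries.mk fun i => PowerSeries.mk fun j =>
    PowerSeries.coeff i (PowerSeries.coeff j f)
  map_one' := by
    ext i j
    simp only [PowerSeries.coeff_mk, PowerSeries.coeff_one]
    split_ifs <;> simp_all [PowerSeries.coeff_one]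
  map_mul' f g := by
    ext i j
    simp only [PowerSeries.coeff_mk, PowerSeries.coeff_mul, map_sum]
    exact Finset.sum_comm
  map_zero' := by ext i j; simp
  map_add' f g := by ext i j; simp

theorem coeff_sw (f : T⟦X⟧⟦X⟧) (i j : ℕ) :
    PowerSeries.coeff j (PowerSeries.coeff i (sw f)) =
      PowerSeries.coeff i (PowerSeries.coeff j f) := by
  simp [sw]

theorem sw_ia (f : T⟦X⟧) : sw (ia f) = ib f := by
  ext i j
  rw [coeff_sw]
  simp only [ia, ib, PowerSeries.coeff_map, PowerSeries.coeff_C]
  split_ifs <;> simp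

theorem sw_ib (f : T⟦X⟧) : sw (ib f) = ia f := by
  ext i j
  rw [coeff_sw]
  simp only [ia, ib, PowerSeries.coeff_map, PowerSeries.coeff_C]
  split_ifs <;> simp

variable {q : ℕ} {A B : Half T q}

/-- the defining equation of the mixed series -/
def IsM (a : Root A) (b : Root B) (M : T⟦X⟧⟦X⟧) : Prop :=
  M * (ia (rho q a.p (B.E.map PowerSeries.C)) * ib (rho q b.p (A.E.map PowerSeries.C)) *
    (1 - ia a.z * ib b.z)) = rho q (a.p.map ia) (b.p.map ib) * ib (PowerSeries.C (rho q A.E B.E))

theorem IsM.swap {a : Root A} {b : Root B} {M : T⟦X⟧⟦X⟧} (h : IsM a b M) : IsM b a (sw M) := by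
  have := congrArg sw h
  have e1 : (sw (T := T)).comp ia = ib := RingHom.ext sw_ia
  have e2 : (sw (T := T)).comp ib = ia := RingHom.ext sw_ib
  simp only [map_mul, map_sub, map_one, sw_ia, sw_ib] at this
  rw [← rho_map (sw (T := T)), Polynomial.map_map, Polynomial.map_map, e1, e2] at this
  unfold IsM
  rw [rho_comm q (b.p.map ia), rho_comm q B.E, ← RingHom.comp_apply ib PowerSeries.C, ← ia_C,
    RingHom.comp_apply, ← this]
  ring

theorem rho_unit (a : Root A) (h : IsUnit (rho q A.E B.E)) :
    IsUnit (rho q a.p (B.E.map PowerSeries.C)) := by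
  rw [PowerSeries.isUnit_iff_constantCoeff, ← rho_map, a.hp0, Polynomial.map_map]
  have e : (PowerSeries.constantCoeff (R := T)).comp PowerSeries.C = RingHom.id T := by
    ext; simp
  rwa [e, Polynomial.map_id]

theorem exists_M (a : Root A) (b : Root B) (h : IsUnit (rho q A.E B.E)) : ∃ M, IsM a b M := by
  have h1 := (rho_unit a h).map ia
  have h2 := (rho_unit b (rho_comm q A.E B.E ▸ h)).map ib
  have h3 : IsUnit (1 - ia a.z * ib b.z) := by
    rw [PowerSeries.isUnit_iff_constantCoeff, a.hz]
    simp [ia]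
  obtain ⟨u, hu⟩ := (h1.mul h2).mul h3
  refine ⟨rho q (a.p.map ia) (b.p.map ib) * ib (PowerSeries.C (rho q A.E B.E)) * ↑u⁻¹, ?_⟩
  unfold IsM
  rw [← hu, Units.inv_mul_cancel_right]

theorem IsM.const {a : Root A} {b : Root B} {M : T⟦X⟧⟦X⟧} (hM : IsM a b M)
    (h : IsUnit (rho q A.E B.E)) : PowerSeries.constantCoeff M = 1 := by
  have := congrArg PowerSeries.constantCoeff hM
  have e1 : (PowerSeries.constantCoeff (R := T⟦X⟧)).comp ia =
      PowerSeries.C.comp PowerSeries.constantCoeff := by
    refine RingHom.ext fun x => ?_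
    simp only [ia, RingHom.comp_apply, ← PowerSeries.coeff_zero_eq_constantCoeff_apply,
      PowerSeries.coeff_map]
  have e1' : ∀ x, PowerSeries.constantCoeff (R := T⟦X⟧) (ia x) =
      PowerSeries.C (PowerSeries.constantCoeff x) := fun x => RingHom.congr_fun e1 x
  have e2 : (PowerSeries.constantCoeff (R := T⟦X⟧)).comp ib = RingHom.id _ := by
    ext1 x; simp [ib]
  have e2' : ∀ x, PowerSeries.constantCoeff (R := T⟦X⟧) (ib x) = x :=
    fun x => RingHom.congr_fun e2 x
  have e : (PowerSeries.constantCoeff (R := T)).comp PowerSeries.C = RingHom.id T := by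
    ext; simp
  have hz : PowerSeries.constantCoeff a.z = 0 := by rw [a.hz]; simp
  simp only [map_mul, map_sub, map_one, e1', e2', hz, map_zero, zero_mul, sub_zero,
    mul_one] at this
  rw [← rho_map (PowerSeries.constantCoeff (R := T)),
    ← rho_map (PowerSeries.constantCoeff (R := T⟦X⟧)), Polynomial.map_map, Polynomial.map_map, Polynomial.map_map, e1, e2, e, a.hp0,
    ← Polynomial.map_map, a.hp0, Polynomial.map_id, Polynomial.map_id,
    rho_comm q (A.E.map _)] at this
  have hu := (h.map PowerSeries.C).mul (rho_unit b (rho_comm q A.E B.E ▸ h))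
  refine hu.mul_right_cancel ?_
  rw [this]; ring

theorem res_pow_right {R : Type*} [CommRing R] (f g : R[X]) (m n k : ℕ) (hf : f.natDegree ≤ m)
    (hg : g.natDegree ≤ n) : resultant f (g ^ k) m (k * n) = resultant f g m n ^ k * 
      resultant f 1 m 0 := by
  induction k with
  | zero => simp
  | succ k ih =>
    rw [pow_succ, add_mul, one_mul, res_mul_right _ _ _ _ _ _ hf
      (natDegree_pow_le.trans (Nat.mul_le_mul_left k hg)) hg, ih]
    ring

theorem loop_res {U : Type*} [CommRing U] (c : T →+* U) (A B : Half T q) (Δ J : T[X]) (hΔ : Δ.natDegree ≤ q)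
    (hDen : hom q C Δ A.Y (X * A.E) = reflect q B.E * J) :
    ∃ Θ : U[X], Θ.natDegree ≤ q * (q - 1) ∧
      ((reflect q Δ).map c) ^ q *
        C (c (resultant (reflect q B.E) A.Y q (q + 1))) ^ q =
      resultant (((reflect q B.E).map c).map C)
        (((X * A.E).map c).map C - C X * (A.Y.map c).map C) q (q + 1) * Θ := by
  obtain ⟨Θ, hΘ, e⟩ := hom_sub q (C.comp c) Δ (A.Y.map c) ((X * A.E).map c)
  set E' := ((reflect q B.E).map c).map C with hE'
  set Y' := (A.Y.map c).map C with hY'
  set W' := ((X * A.E).map c).map C with hW'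
  have hEd : (reflect q B.E).natDegree ≤ q := natDegree_reflect_le.trans (max_le le_rfl B.hE)
  have hE1 : E'.natDegree ≤ q := natDegree_map_le.trans (natDegree_map_le.trans hEd)
  have hE2 : E'.coeff q = 1 := by simp [hE', coeff_reflect, B.hE0]
  have hY1 : Y'.natDegree ≤ q + 1 := natDegree_map_le.trans (natDegree_map_le.trans A.hY)
  have hW1 : W'.natDegree ≤ q + 1 := by
    refine natDegree_map_le.trans (natDegree_map_le.trans (natDegree_mul_le.trans ?_))
    have := natDegree_X_le (R := T)
    have := A.hE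
    omega
  have hL : (W' - C X * Y').natDegree ≤ q + 1 :=
    (natDegree_sub_le _ _).trans (max_le hW1 ((natDegree_C_mul_le _ _).trans hY1))
  have e1 : hom q ((mapRingHom C).comp (C.comp c)) Δ Y' W' = E' * (J.map c).map C := by
    have := congrArg ((mapRingHom (C : U →+* U[X])).comp (mapRingHom c)) hDen
    rw [map_hom] at this
    have e3 : ((mapRingHom (C : U →+* U[X])).comp (mapRingHom c)).comp C =
        (mapRingHom C).comp (C.comp c) := by
      refine RingHom.ext fun x => ?_
      simp
    rw [e3] at this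
    simpa only [RingHom.comp_apply, coe_mapRingHom, Polynomial.map_mul, hE', hY', hW'] using this
  have e2 : hom q ((mapRingHom C).comp (C.comp c)) Δ Y' (C X * Y') =
      C ((reflect q Δ).map c) * Y' ^ q := by
    have h1 := hom_mul q ((mapRingHom (C : U →+* U[X])).comp (C.comp c)) Δ 1 (C X) Y'
    rw [one_mul] at h1
    have h2 := map_hom ((C : U[X] →+* U[X][X]).comp (mapRingHom c)) q C Δ 1 X
    have e3 : ((C : U[X] →+* U[X][X]).comp (mapRingHom c)).comp C =
        (mapRingHom C).comp (C.comp c) := by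
      refine RingHom.ext fun x => ?_
      simp
    rw [e3, hom_reflect q Δ hΔ] at h2
    simp only [RingHom.comp_apply, coe_mapRingHom, map_one, map_X] at h2
    rw [h1, h2, mul_comm]
  rw [e1, e2] at e
  have e4 : C ((reflect q Δ).map c) * Y' ^ q = (W' - C X * Y') * (-Θ) + E' * (J.map c).map C := by
    linear_combination e
  have hg0 : (C ((reflect q Δ).map c) * Y' ^ q).natDegree ≤ q * (q + 1) :=
    (natDegree_C_mul_le _ _).trans (natDegree_pow_le.trans (Nat.mul_le_mul_left q hY1))
  have hg1 : ((W' - C X * Y') * (-Θ)).natDegree ≤ (q + 1) + (-Θ).natDegree :=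
    natDegree_mul_le.trans (Nat.add_le_add_right hL _)
  refine ⟨resultant E' (-Θ) q (-Θ).natDegree, ?_, ?_⟩
  · exact res_deg _ _ _ _ _ fun i => by simpa using hΘ i
  · rw [← res_mul_right _ _ _ _ _ _ hE1 hL le_rfl]
    let n := ((J.map c).map C).natDegree + q + ((q + 1) + (-Θ).natDegree) + q * (q + 1)
    rw [res_monic _ _ _ _ n hE2 hg1 (hg1.trans (by omega)),
      ← resultant_add_mul_right E' _ ((J.map c).map C) q n (by omega) hE1, ← e4,
      res_monic _ _ _ n (q * (q + 1)) hE2 (hg0.trans (by omega)) hg0, resultant_C_mul_right,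
      res_pow_right _ _ _ _ _ hE1 hY1, hE', hY', resultant_map_map, resultant_map_map]
    simp

end Pool.Agent.MP_098ecc_co.H85
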