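import Pool.Agent.MP_098ecc_co.H85.Loop

set_option autoImplicit false

namespace Pool.Agent.MP_098ecc_co.H85

open Polynomial
open scoped PowerSeries

/-- unknowns and data of one colour -/
structure Dat (T : Type*) [CommRing T] where
  c : T
  e : T[X]
  β : T[X]
  G : T[X]
  H : T[X]

section Defs
variable {T : Type*} [CommRing T] (n : ℕ) (u : T)

noncomputable def EE (a : Dat T) : T[X] := X ^ (n + 1) + C (u ^ 2) * a.e
noncomputable def EA (a : Dat T) : T[X] := reflect (n + 1) (EE n u a)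
noncomputable def YY (a : Dat T) : T[X] := reflect (n + 1 + 1) (C a.c * X * EE n u a + a.β)
noncomputable def kap (a : Dat T) : T[X] :=
  reflect (n + 1) a.e * ∑ i ∈ Finset.range (n + 1), EA n u a ^ i
noncomputable def T1 (a b : Dat T) : T[X] :=
  YY n u a * hom n C a.G (YY n u a) (X * EA n u a) - C u * b.e * kap n u a
noncomputable def hh (a b : Dat T) : T[X] :=
  C u * kap n u a + C (u ^ 2) * (T1 n u a b /ₘ EE n u b)
noncomputable def T2 (a b : Dat T) : T[X] :=
  C (u ^ 2) * hom (n + 1) C a.H (YY n u a) (X * EA n u a) - b.β * hh n u a b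

variable {T' : Type*} [CommRing T'] (ψ : T →+* T')

noncomputable def Dat.map (a : Dat T) : Dat T' :=
  ⟨ψ a.c, a.e.map ψ, a.β.map ψ, a.G.map ψ, a.H.map ψ⟩

theorem EE_map (a : Dat T) : (EE n u a).map ψ = EE n (ψ u) (a.map ψ) := by
  simp [EE, Dat.map]

theorem EA_map (a : Dat T) : (EA n u a).map ψ = EA n (ψ u) (a.map ψ) := by
  rw [EA, ← reflect_map, EE_map, EA]

theorem YY_map (a : Dat T) : (YY n u a).map ψ = YY n (ψ u) (a.map ψ) := by
  rw [YY, ← reflect_map, YY, ← EE_map]
  simp [Dat.map]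

theorem kap_map (a : Dat T) : (kap n u a).map ψ = kap n (ψ u) (a.map ψ) := by
  rw [kap, kap, ← EA_map, Polynomial.map_mul, ← reflect_map, Polynomial.map_sum]
  simp [Dat.map]

theorem hom_map (q : ℕ) (f x e : T[X]) :
    (hom q C f x e).map ψ = hom q C (f.map ψ) (x.map ψ) (e.map ψ) := by
  simp [hom, Polynomial.map_sum]

theorem T1_map (a b : Dat T) : (T1 n u a b).map ψ = T1 n (ψ u) (a.map ψ) (b.map ψ) := by
  rw [T1, T1, ← YY_map, ← EA_map, ← kap_map]
  simp [Dat.map, hom_map]

theorem EE_monic (b : Dat T) (hb : b.e.degree < (n + 1 : ℕ)) : (EE n u b).Monic :=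
  monic_X_pow_add ((degree_mul_le _ _).trans_lt (by
    have := degree_C_le (a := u ^ 2)
    calc _ ≤ 0 + b.e.degree := by gcongr
      _ < _ := by rwa [zero_add]))

theorem hh_map (a b : Dat T) (hb : b.e.degree < (n + 1 : ℕ)) :
    (hh n u a b).map ψ = hh n (ψ u) (a.map ψ) (b.map ψ) := by
  rw [hh, hh, ← kap_map, ← T1_map, ← EE_map, ← map_divByMonic _ (EE_monic n u b hb)]
  simp

theorem T2_map (a b : Dat T) (hb : b.e.degree < (n + 1 : ℕ)) :
    (T2 n u a b).map ψ = T2 n (ψ u) (a.map ψ) (b.map ψ) := by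
  rw [T2, T2, ← hh_map _ _ _ _ _ hb, ← YY_map, ← EA_map]
  simp [Dat.map, hom_map]

theorem EE_deg (b : Dat T) (hb : b.e.degree < (n + 1 : ℕ)) : (EE n u b).natDegree ≤ n + 1 :=
  (natDegree_add_le _ _).trans (max_le (natDegree_X_pow_le _)
    ((natDegree_C_mul_le _ _).trans (natDegree_le_of_degree_le hb.le)))

theorem EA_eq (a : Dat T) : EA n u a = 1 + C (u ^ 2) * reflect (n + 1) a.e := by
  rw [EA, EE, reflect_add, reflect_C_mul, reflect_monomial, revAt_le le_rfl]
  simp

theorem hom_succ (s : T) (G x e : T[X]) :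
    hom (n + 1) C (1 + C s * X * G) x e = e ^ (n + 1) + C s * (x * hom n C G x e) := by
  unfold hom
  rw [Finset.sum_range_succ', add_comm, Finset.mul_sum, Finset.mul_sum]
  congr 1
  · simp [mul_assoc, coeff_one]
  · refine Finset.sum_congr rfl fun k _ => ?_
    simp only [mul_assoc, coeff_add, coeff_one, Nat.add_one_ne_zero, if_false, zero_add,
      coeff_C_mul, coeff_X_mul, map_mul, Nat.add_sub_add_right]
    ring

theorem hom_C_mul (q : ℕ) (s : T) (H x e : T[X]) :
    hom q C (C s * H) x e = C s * hom q C H x e := by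
  unfold hom
  rw [Finset.mul_sum]
  refine Finset.sum_congr rfl fun k _ => ?_
  simp only [coeff_C_mul, map_mul]; ring

/-- the half parametrisation attached to the data -/
noncomputable def half (a : Dat T) (he : a.e.degree < (n + 1 : ℕ)) (hβ : a.β.natDegree ≤ n + 1)
    (hc : IsUnit a.c) : Half T (n + 1) where
  E := EA n u a
  Y := YY n u a
  hE := natDegree_reflect_le.trans (max_le le_rfl (EE_deg n u a he))
  hE0 := by
    rw [EA_eq]
    simp [coeff_reflect, coeff_eq_zero_of_degree_lt he, coeff_one]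
  hY := natDegree_reflect_le.trans (max_le le_rfl ((natDegree_add_le _ _).trans (max_le (by
    rw [mul_assoc]
    refine (natDegree_C_mul_le _ _).trans (natDegree_mul_le.trans ?_)
    have := natDegree_X_le (R := T)
    have := EE_deg n u a he
    omega) (by omega))))
  hc := by
    have : (EE n u a).coeff (n + 1) = 1 := by
      rw [EE, coeff_add, coeff_C_mul, coeff_eq_zero_of_degree_lt he]; simp
    rw [YY, coeff_reflect, revAt_le (Nat.zero_le _), Nat.sub_zero, coeff_add, mul_assoc,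
      coeff_C_mul, coeff_X_mul, this, coeff_eq_zero_of_natDegree_lt (by omega)]
    simpa using hc

theorem den_eq (a b : Dat T) (h : b.e = C u * (T1 n u a b %ₘ EE n u b)) :
    hom (n + 1) C (1 + C (u ^ 3) * X * a.G) (YY n u a) (X * EA n u a) =
      EE n u b * (1 + C u * hh n u a b) := by
  have h1 := modByMonic_add_div (T1 n u a b) (EE n u b)
  have h2 : EA n u a ^ (n + 1) = 1 + C (u ^ 2) * kap n u a := by
    have := mul_geom_sum (EA n u a) (n + 1)
    rw [kap, ← mul_assoc, ← sub_eq_iff_eq_add', ← this]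
    congr 1
    rw [EA_eq]; ring
  rw [hom_succ, mul_pow, h2, hh]
  have h3 : YY n u a * hom n C a.G (YY n u a) (X * EA n u a) =
      T1 n u a b + C u * b.e * kap n u a := by rw [T1]; ring
  rw [h3]
  have h4 : EE n u b = X ^ (n + 1) + C (u ^ 2) * b.e := rfl
  simp only [map_pow] at *
  linear_combination (-C u ^ 3) * h1 - (C u ^ 2) * h - (1 + C u ^ 2 * kap n u a) * h4

theorem num_eq (a b : Dat T) (h : b.β = C u * (T2 n u a b %ₘ (X * EE n u b))) :
    hom (n + 1) C (C (u ^ 3) * a.H) (YY n u a) (X * EA n u a) =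
      b.β * (1 + C u * hh n u a b) + X * (C u * (T2 n u a b /ₘ (X * EE n u b))) * EE n u b := by
  have h1 := modByMonic_add_div (T2 n u a b) (X * EE n u b)
  have h3 : C (u ^ 2) * hom (n + 1) C a.H (YY n u a) (X * EA n u a) =
      T2 n u a b + b.β * hh n u a b := by rw [T2]; ring
  rw [hom_C_mul]
  simp only [map_pow] at *
  linear_combination (-C u) * h1 - h + C u * h3

end Defs

/-- the loop equation -/
def LoopEq {T : Type*} [CommRing T] (q : ℕ) (Δ P : T[X]) (W : T⟦X⟧) (M : T⟦X⟧⟦X⟧) : Prop :=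
  ∃ Q : (T⟦X⟧)[X], Q.natDegree ≤ q * q ∧
    ia (reflect q Δ).toPowerSeries ^ (q - 1) * ((ia (reflect q Δ).toPowerSeries -
      ib PowerSeries.X *
      (ia (reflect q P).toPowerSeries + ia (reflect q Δ).toPowerSeries * ia W)) * M) =
      Q.toPowerSeries

section Two
variable {T K : Type*} [CommRing T] [CommRing K] (n : ℕ) (u : T) (π : T →+* K)

/-- the equations linking the two colours -/
structure Sol (a b : Dat T) : Prop where
  he : b.e.degree < (n + 1 : ℕ)
  hβ : b.β.natDegree ≤ n + 1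
  hG : b.G.natDegree ≤ n
  hH : b.H.natDegree ≤ n + 1
  hc : π b.c = 1
  e1 : b.e = C u * (T1 n u a b %ₘ EE n u b)
  e2 : b.β = C u * (T2 n u a b %ₘ (X * EE n u b))

variable {n u π}

theorem EE_pi (hu : π u = 0) (a : Dat T) : (EE n u a).map π = X ^ (n + 1) := by
  simp [EE, hu]

theorem EA_pi (hu : π u = 0) (a : Dat T) : (EA n u a).map π = 1 := by
  simp [EA_eq, hu]

theorem YY_pi (hu : π u = 0) {a b : Dat T} (h : Sol n u π b a) : (YY n u a).map π = 1 := by
  have : a.β.map π = 0 := by rw [h.e2]; simp [hu]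
  rw [YY, ← reflect_map, Polynomial.map_add, Polynomial.map_mul, Polynomial.map_mul, EE_pi hu,
    this, map_C, h.hc, map_X, map_one, one_mul, add_zero, ← pow_succ', reflect_monomial,
    revAt_le le_rfl]
  simp

theorem one_loop [IsDomain T] (hu : π u = 0) (hπ : ∀ x, π x = 1 → IsUnit x) {a b : Dat T}
    (hab : Sol n u π a b) (hba : Sol n u π b a)
    {ra : Root (half n u a hba.he hba.hβ (hπ _ hba.hc))}
    {rb : Root (half n u b hab.he hab.hβ (hπ _ hab.hc))} {M : T⟦X⟧⟦X⟧} (hM : IsM ra rb M) :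
    PowerSeries.constantCoeff M = 1 ∧ ∃ W : T⟦X⟧, PowerSeries.constantCoeff W = 0 ∧
      PowerSeries.coeff 1 W * (1 + u * (hh n u a b).coeff 0) =
        (YY n u a).coeff 0 * (b.c * (1 + u * (hh n u a b).coeff 0) -
          u * (T2 n u a b /ₘ (X * EE n u b)).coeff 0) ∧
      LoopEq (n + 1) (1 + C (u ^ 3) * X * a.G) (C (u ^ 3) * a.H) W M := by
  have h1 : IsUnit (rho (n + 1) (EA n u a) (EA n u b)) := by
    refine hπ _ ?_
    rw [← rho_map, EA_pi hu, EA_pi hu, rho, resultant_one_right, coeff_reflect, revAt_le le_rfl]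
    simp
  have hr : reflect (n + 1) (EA n u b) = EE n u b := reflect_reflect
  refine ⟨hM.const h1, ?_⟩
  have := loop (Nat.le_add_left 1 n) hM h1 (1 + C (u ^ 3) * X * a.G) (C (u ^ 3) * a.H)
    (1 + C u * hh n u a b) b.β (C u * (T2 n u a b /ₘ (X * EE n u b))) b.c
    ((natDegree_add_le _ _).trans (max_le (by simp) (by
      rw [mul_assoc]
      refine (natDegree_C_mul_le _ _).trans (natDegree_mul_le.trans ?_)
      have := natDegree_X_le (R := T)
      have := hba.hG
      omega)))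
    (by simp [mul_assoc, coeff_one])
    ((natDegree_C_mul_le _ _).trans hba.hH)
    (by simp only [half, hr]; exact den_eq n u a b hab.e1)
    (by simp only [half, hr]; exact num_eq n u a b hab.e2)
    (by simp only [half, hr]; exact reflect_reflect)
    (hπ _ (by simp [hu, coeff_one]))
    (hπ _ (by
      simp only [half]
      rw [← resultant_map_map, hr, EE_pi hu, YY_pi hu hba, resultant_one_right]
      simp))
  simpa only [half, coeff_add, coeff_C_mul, coeff_one_zero, LoopEq] using this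

theorem two_loops [IsDomain T] (hu : π u = 0) (hπ : ∀ x, π x = 1 → IsUnit x) {a b : Dat T}
    (hab : Sol n u π a b) (hba : Sol n u π b a) (ha : a.c = 1)
    (hb : b.c - 1 = u * ((T2 n u a b /ₘ (X * EE n u b)).coeff 0 -
      (b.c - 1) * (hh n u a b).coeff 0)) :
    ∃ M : T⟦X⟧⟦X⟧, PowerSeries.constantCoeff M = 1 ∧ PowerSeries.constantCoeff (sw M) = 1 ∧
      (∃ W : T⟦X⟧, PowerSeries.constantCoeff W = 0 ∧ PowerSeries.coeff 1 W = 1 ∧
        LoopEq (n + 1) (1 + C (u ^ 3) * X * a.G) (C (u ^ 3) * a.H) W M) ∧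
      ∃ W : T⟦X⟧, PowerSeries.constantCoeff W = 0 ∧
        LoopEq (n + 1) (1 + C (u ^ 3) * X * b.G) (C (u ^ 3) * b.H) W (sw M) := by
  obtain ⟨ra⟩ := exists_root (half n u a hba.he hba.hβ (hπ _ hba.hc))
  obtain ⟨rb⟩ := exists_root (half n u b hab.he hab.hβ (hπ _ hab.hc))
  have h1 : IsUnit (rho (n + 1) (EA n u a) (EA n u b)) := by
    refine hπ _ ?_
    rw [← rho_map, EA_pi hu, EA_pi hu, rho, resultant_one_right, coeff_reflect, revAt_le le_rfl]
    simp
  obtain ⟨M, hM⟩ := exists_M ra rb h1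
  obtain ⟨c1, W1, w1, w2, w3⟩ := one_loop hu hπ hab hba hM
  obtain ⟨c2, W2, v1, -, v3⟩ := one_loop hu hπ hba hab hM.swap
  refine ⟨M, c1, c2, ⟨W1, w1, ?_, w3⟩, W2, v1, v3⟩
  have hY : (YY n u a).coeff 0 = 1 := by
    have : (EE n u a).coeff (n + 1) = 1 := by
      rw [EE, coeff_add, coeff_C_mul, coeff_eq_zero_of_degree_lt hba.he]; simp
    have := hba.hβ
    rw [YY, coeff_reflect, revAt_le (Nat.zero_le _), Nat.sub_zero, coeff_add, mul_assoc,
      coeff_C_mul, coeff_X_mul, ‹(EE n u a).coeff (n + 1) = 1›,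
      coeff_eq_zero_of_natDegree_lt (by omega), ha]
    simp
  have hJ : IsUnit (1 + u * (hh n u a b).coeff 0) := hπ _ (by simp [hu])
  refine hJ.mul_right_cancel ?_
  rw [w2, hY]
  linear_combination hb

end Two

section Phi
variable {T : Type*} [CommRing T] {T' : Type*} [CommRing T']

/-- polynomial with given coefficients -/
noncomputable def pol {k : ℕ} (f : Fin k → T) : T[X] := ∑ i : Fin k, monomial (i : ℕ) (f i)

theorem pol_map {k : ℕ} (ψ : T →+* T') (f : Fin k → T) :
    (pol f).map ψ = pol fun i => ψ (f i) := by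
  simp [pol, Polynomial.map_sum]

theorem pol_deg {k : ℕ} (f : Fin k → T) : (pol f).degree < k :=
  degree_sum_fin_lt f |> fun h => by simpa only [pol, C_mul_X_pow_eq_monomial] using h

theorem pol_eq {k : ℕ} (f : Fin k → T) (p : T[X]) (hp : p.degree < k)
    (h : ∀ i, f i = p.coeff i) : pol f = p := by
  rw [pol, Finset.sum_congr rfl fun i _ => by rw [h i]]
  conv_rhs => rw [← sum_monomial_eq p, ← sum_fin (fun i a => monomial i a) (by simp) hp]

variable (n : ℕ) (G H : Bool → ℚ[X][X])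

/-- index set of the unknowns -/
abbrev Ix (n : ℕ) : Type := Option (Bool × Bool × Fin (n + 1 + 1))

noncomputable def dat (ε : ℚ[X] →+* T) (f : Ix n → T) (s : Bool) : Dat T :=
  ⟨cond s 1 (1 + f none), pol fun i : Fin (n + 1) => f (some (s, true, i.castSucc)),
    pol fun i => f (some (s, false, i)), (G s).map ε, (H s).map ε⟩

theorem dat_map (ε : ℚ[X] →+* T) (f : Ix n → T) (s : Bool) (ψ : T →+* T') :
    (dat n G H ε f s).map ψ = dat n G H (ψ.comp ε) (fun i => ψ (f i)) s := by
  cases s <;> simp [dat, Dat.map, pol_map, Polynomial.map_map]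

noncomputable def Phi (ε : ℚ[X] →+* T) (f : Ix n → T) : Ix n → T
  | none => (T2 n (ε X) (dat n G H ε f true) (dat n G H ε f false) /ₘ
      (X * EE n (ε X) (dat n G H ε f false))).coeff 0 -
      f none * (hh n (ε X) (dat n G H ε f true) (dat n G H ε f false)).coeff 0
  | some (s, true, i) => (T1 n (ε X) (dat n G H ε f (!s)) (dat n G H ε f s) %ₘ
      EE n (ε X) (dat n G H ε f s)).coeff i
  | some (s, false, i) => (T2 n (ε X) (dat n G H ε f (!s)) (dat n G H ε f s) %ₘ
      (X * EE n (ε X) (dat n G H ε f s))).coeff i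

theorem Phi_map (ε : ℚ[X] →+* T) (f : Ix n → T) (ψ : T →+* T') (j : Ix n) :
    ψ (Phi n G H ε f j) = Phi n G H (ψ.comp ε) (fun i => ψ (f i)) j := by
  have hd : ∀ s, (dat n G H ε f s).e.degree < (n + 1 : ℕ) := fun s => pol_deg _
  have hm : ∀ s, (EE n (ε X) (dat n G H ε f s)).Monic := fun s => EE_monic _ _ _ (hd s)
  rcases j with _ | ⟨s, _ | _, i⟩
  · simp only [Phi, map_sub, map_mul, ← coeff_map, map_divByMonic _ (monic_X.mul (hm _)),
      T2_map _ _ _ _ _ (hd _), hh_map _ _ _ _ _ (hd _), Polynomial.map_mul, map_X, EE_map,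
      dat_map, RingHom.comp_apply]
  · simp only [Phi, ← coeff_map, map_modByMonic _ (monic_X.mul (hm _)),
      T2_map _ _ _ _ _ (hd _), Polynomial.map_mul, map_X, EE_map, dat_map, RingHom.comp_apply]
  · simp only [Phi, ← coeff_map, map_modByMonic _ (hm _), T1_map, EE_map, dat_map,
      RingHom.comp_apply]

theorem sol_of_fix [Nontrivial T] {K : Type*} [CommRing K] (π : T →+* K) (ε : ℚ[X] →+* T)
    (hu : π (ε X) = 0) (hG : ∀ s, (G s).natDegree ≤ n) (hH : ∀ s, (H s).natDegree ≤ n + 1)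
    (f : Ix n → T) (hf : ∀ j, f j = ε X * Phi n G H ε f j) (s : Bool) :
    Sol n (ε X) π (dat n G H ε f (!s)) (dat n G H ε f s) := by
  have hd : (dat n G H ε f s).e.degree < (n + 1 : ℕ) := pol_deg _
  have hm : (EE n (ε X) (dat n G H ε f s)).Monic := EE_monic _ _ _ hd
  have hE := EE_deg n (ε X) _ hd
  have hC : ∀ (p : T[X]) (k : ℕ), p.degree < k → (C (ε X) * p).degree < k := fun p k hp =>
    (degree_mul_le _ _).trans_lt (by
      have := degree_C_le (a := ε X)
      calc _ ≤ 0 + p.degree := by gcongr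
        _ < _ := by rwa [zero_add])
  refine ⟨hd, ?_, natDegree_map_le.trans (hG s), natDegree_map_le.trans (hH s), ?_, ?_, ?_⟩
  · refine natDegree_le_iff_degree_le.2 (Order.le_of_lt_succ ?_)
    exact pol_deg _
  · cases s
    · simp only [dat, cond_false, map_add, map_one]
      rw [hf none, map_mul, hu]; simp
    · simp [dat]
  · refine pol_eq _ _ (hC _ _ ((degree_modByMonic_lt _ hm).trans_le
      (degree_le_of_natDegree_le hE))) fun i => ?_
    rw [hf, coeff_C_mul]; rfl
  · refine pol_eq _ _ (hC _ _ ((degree_modByMonic_lt _ (monic_X.mul hm)).trans_le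
      (degree_le_of_natDegree_le (natDegree_mul_le.trans ?_)))) fun i => ?_
    · have := natDegree_X_le (R := T); omega
    · rw [hf, coeff_C_mul]; rfl

theorem exists_alg_fix : ∃ f : Ix n → ℚ⟦X⟧, (∀ j, IsAlgebraic ℚ[X] (f j)) ∧
    ∀ j, f j = PowerSeries.X * Phi n G H (algebraMap ℚ[X] ℚ⟦X⟧) f j := by
  obtain ⟨f, hf⟩ := exists_fix
    (fun (f : Ix n → ℚ⟦X⟧) j => PowerSeries.X * Phi n G H (algebraMap ℚ[X] ℚ⟦X⟧) f j) (by
      intro k f g h j
      rw [← mul_sub, pow_succ']
      refine mul_dvd_mul_left _ ?_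
      let I : Ideal ℚ⟦X⟧ := Ideal.span {PowerSeries.X ^ k}
      rw [← Ideal.mem_span_singleton, ← Ideal.Quotient.eq, Phi_map, Phi_map]
      congr 1
      funext i
      rw [Ideal.Quotient.eq, Ideal.mem_span_singleton]
      exact h i)
  refine ⟨f, alg_of_fix f fun j => ⟨0, Phi n G H (algebraMap ℚ[X] ℚ⟦X⟧) f j, ?_, ?_⟩,
    fun j => (congrFun hf j).symm⟩
  · let S := Algebra.adjoin ℚ (insert PowerSeries.X (Set.range f))
    let ε : ℚ[X] →+* S := (aeval (⟨PowerSeries.X,
      Algebra.subset_adjoin (Set.mem_insert _ _)⟩ : S)).toRingHom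
    let g : Ix n → S := fun i => ⟨f i, Algebra.subset_adjoin (Set.mem_insert_of_mem _ ⟨i, rfl⟩)⟩
    have h1 := Phi_map n G H ε g S.val.toRingHom j
    have h2 : S.val.toRingHom.comp ε = algebraMap ℚ[X] ℚ⟦X⟧ := by
      refine Polynomial.ringHom_ext (fun c => ?_) ?_
      · simp [ε, PowerSeries.algebraMap_apply']
      · simp [ε, PowerSeries.algebraMap_apply']
    rw [h2] at h1
    exact h1 ▸ (Phi n G H ε g j).2
  · rw [map_zero, zero_add]; exact (congrFun hf j).symm

end Phi

end Pool.Agent.MP_098ecc_co.H85
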